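import Pool.Agent.H38Pav.Defs

/-!
MP_039b14_co, ranks four to seven: definitions.  The rank is `k + 2`.

A paving matroid of rank `k + 2` on `Fin n` is given by the family of its hyperplanes with at least
`k + 2` points: sets with at least `k + 2` and fewer than `n` elements, any two of which have at
most `k` common elements.
-/

set_option autoImplicit false

namespace Pool.Agent.RKP

open Finset

variable {n : ℕ}

/-- the families of hyperplanes with at least `k + 2` points of the paving matroids of rank
`k + 2` -/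
def IsFam (k : ℕ) (F : Finset (Finset (Fin n))) : Prop :=
  (∀ H ∈ F, k + 2 ≤ H.card ∧ H.card < n) ∧ ∀ H ∈ F, ∀ K ∈ F, H ≠ K → (H ∩ K).card ≤ k

/-- some member of the family contains `X` -/
def Cov (F : Finset (Finset (Fin n))) (X : Finset (Fin n)) : Prop := ∃ H ∈ F, X ⊆ H

open Classical in
/-- all families -/
noncomputable def fams (k n : ℕ) : Finset (Finset (Finset (Fin n))) := univ.filter (IsFam k)

open Classical in
/-- the families no member of which contains an element of `P` -/
noncomputable def AA (k : ℕ) (P : Finset (Finset (Fin n))) : Finset (Finset (Finset (Fin n))) :=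
  (fams k n).filter (fun F => ∀ e ∈ P, ¬ Cov F e)

open Classical in
/-- the families in `AA k P` for which exactly `t` members contain `e`, all of them with `k + 2`
elements -/
noncomputable def FT (k : ℕ) (P : Finset (Finset (Fin n))) (e : Finset (Fin n)) (t : ℕ) :
    Finset (Finset (Finset (Fin n))) :=
  (AA k P).filter (fun F => (∀ H ∈ F, e ⊆ H → H.card = k + 2) ∧
    (F.filter (fun H => e ⊆ H)).card = t)

/-- `X` contains no element of `P` and has at most `k` common elements with every member of `F` -/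
def Free (k : ℕ) (P F : Finset (Finset (Fin n))) (X : Finset (Fin n)) : Prop :=
  (∀ f ∈ P, ¬ f ⊆ X) ∧ ∀ K ∈ F, (K ∩ X).card ≤ k

open Classical in
/-- the member of `F` which contains `X` (the empty set if there is none) -/
noncomputable def mb (F : Finset (Finset (Fin n))) (X : Finset (Fin n)) : Finset (Fin n) :=
  if h : Cov F X then h.choose else ∅

/-- the set `e` without `i` and with `u`, `v` -/
def tr (e : Finset (Fin n)) (i u v : Fin n) : Finset (Fin n) := insert u (insert v (e.erase i))

open Classical in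
/-- the points `w` for which `tr e i u v` together with `w` could replace the member `R` -/
noncomputable def gset (k : ℕ) (P : Finset (Finset (Fin n))) (e : Finset (Fin n))
    (F : Finset (Finset (Fin n))) (i u v : Fin n) (R : Finset (Fin n)) : Finset (Fin n) :=
  univ.filter (fun w => w ∉ R ∧ w ∉ e ∧ Free k P (F.erase R) (insert w (tr e i u v)))

open Classical in
/-- the members `M` through `e` without `i` and with `v` which `u` could join when it has left the
member `R` -/
noncomputable def xset (k : ℕ) (P : Finset (Finset (Fin n))) (e : Finset (Fin n))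
    (F : Finset (Finset (Fin n))) (i u v : Fin n) (R : Finset (Fin n)) :
    Finset (Finset (Fin n)) :=
  F.filter (fun M => M ≠ R ∧ insert v (e.erase i) ⊆ M ∧ i ∉ M ∧ (insert u M).card < n ∧
    Free k P ((F.erase R).erase M) (insert u M))

open Classical in
/-- the price for making `tr e i u v` uncovered -/
noncomputable def cst (k : ℕ) (P : Finset (Finset (Fin n))) (e : Finset (Fin n))
    (F : Finset (Finset (Fin n))) (i u v : Fin n) : ℕ :=
  if Cov F (tr e i u v) ∧ i ∉ mb F (tr e i u v) then
    (if (mb F (tr e i u v)).card = k + 2 then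
      (gset k P e F i u v (mb F (tr e i u v))).card + 1
    else (xset k P e F i u v (mb F (tr e i u v))).card + 1)
  else 1

/-- the pairs of different points off `e` -/
def pts (e : Finset (Fin n)) : Finset (Fin n × Fin n) :=
  univ.filter (fun p => p.1 ≠ p.2 ∧ p.1 ∉ e ∧ p.2 ∉ e)

open Classical in
/-- the (ordered) members `e - i + a + b + c` with `k + 2` elements and large product -/
noncomputable def bad3 (k : ℕ) (P : Finset (Finset (Fin n))) (e : Finset (Fin n))
    (F : Finset (Finset (Fin n))) (i : Fin n) (g : ℕ) : Finset (Fin n × Fin n × Fin n) :=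
  univ.filter (fun p => p.1 ≠ p.2.1 ∧ p.2.1 ≠ p.2.2 ∧ p.2.2 ≠ p.1 ∧ p.1 ∉ e ∧ p.2.1 ∉ e ∧
    p.2.2 ∉ e ∧ insert p.2.2 (tr e i p.1 p.2.1) ∈ F ∧
    g ≤ ((gset k P e F i p.1 p.2.1 (insert p.2.2 (tr e i p.1 p.2.1))).card + 1) *
      ((gset k P e F i p.2.1 p.2.2 (insert p.2.2 (tr e i p.1 p.2.1))).card + 1) *
      ((gset k P e F i p.2.2 p.1 (insert p.2.2 (tr e i p.1 p.2.1))).card + 1))

open Classical in
/-- the quadruples `u`, `a`, `b`, `c` on a member `R` with at least `k + 3` elements through
`e - i` with large product -/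
noncomputable def bad4 (k : ℕ) (P : Finset (Finset (Fin n))) (e : Finset (Fin n))
    (F : Finset (Finset (Fin n))) (i : Fin n) (g : ℕ) : Finset (Fin n × Fin n × Fin n × Fin n) :=
  univ.filter (fun p => p.1 ≠ p.2.1 ∧ p.1 ≠ p.2.2.1 ∧ p.1 ≠ p.2.2.2 ∧ p.2.1 ≠ p.2.2.1 ∧
    p.2.1 ≠ p.2.2.2 ∧ p.2.2.1 ≠ p.2.2.2 ∧ p.1 ∉ e ∧ p.2.1 ∉ e ∧ p.2.2.1 ∉ e ∧ p.2.2.2 ∉ e ∧
    ∃ R ∈ F, k + 3 ≤ R.card ∧ i ∉ R ∧ e.erase i ⊆ R ∧ p.1 ∈ R ∧ p.2.1 ∈ R ∧ p.2.2.1 ∈ R ∧
      p.2.2.2 ∈ R ∧
      g ≤ ((xset k P e F i p.1 p.2.1 R).card + 1) * ((xset k P e F i p.1 p.2.2.1 R).card + 1) *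
        ((xset k P e F i p.1 p.2.2.2 R).card + 1))

open Classical in
/-- the pairs of points off `e` which may be joined to `e`, for a price `X` times which is at most
`Y` -/
noncomputable def good (k : ℕ) (P : Finset (Finset (Fin n))) (e : Finset (Fin n))
    (F : Finset (Finset (Fin n))) (X Y : ℕ) : Finset (Fin n × Fin n) :=
  (pts e).filter (fun p => ¬ Cov F (insert p.1 e) ∧ ¬ Cov F (insert p.2 e) ∧
    (∀ f ∈ P, ¬ f ⊆ insert p.1 (insert p.2 e)) ∧
    (∏ i ∈ e, cst k P e F i p.1 p.2) * X ≤ Y)

open Classical in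
/-- the pairs of points off `e` which together with `e` contain an element of `P` -/
noncomputable def inad (P : Finset (Finset (Fin n))) (e : Finset (Fin n)) :
    Finset (Fin n × Fin n) :=
  (pts e).filter (fun p => ∃ f ∈ P, f ⊆ insert p.1 (insert p.2 e))

/-- all sets with `k` elements -/
def sts (k n : ℕ) : Finset (Finset (Fin n)) := univ.powersetCard k

/-- the closure of a set with respect to the closures of sets with at most `k` elements -/
def lc (k : ℕ) (M : Matroid (Fin n)) (X : Set (Fin n)) : Set (Fin n) :=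
  ⋂₀ {Y | X ⊆ Y ∧ ∀ Z : Finset (Fin n), (Z : Set (Fin n)) ⊆ Y → Z.card ≤ k →
    M.closure (Z : Set (Fin n)) ⊆ Y}

/-- the hyperplanes of a matroid of rank `k + 2` -/
def IsHyp (k : ℕ) (M : Matroid (Fin n)) (P : Set (Fin n)) : Prop :=
  M.IsFlat P ∧ M.eRk P = (k : ℕ∞) + 1

open Classical in
/-- the cap of a set: the elements which are not in the closure of the smaller ones -/
noncomputable def cap (k : ℕ) (M : Matroid (Fin n)) (P : Set (Fin n)) : Finset (Fin n) :=
  univ.filter (fun p => p ∈ P ∧ p ∉ lc k M {q | q ∈ P ∧ q < p})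

open Classical in
/-- the family of the caps of the hyperplanes -/
noncomputable def capFam (k : ℕ) (M : Matroid (Fin n)) : Finset (Finset (Fin n)) :=
  univ.filter (fun H => k + 2 ≤ H.card ∧ ∃ P, IsHyp k M P ∧ cap k M P = H)

open Classical in
/-- the sets with `k` elements contained in no cap of a hyperplane -/
noncomputable def zeroSets (k : ℕ) (M : Matroid (Fin n)) : Finset (Finset (Fin n)) :=
  (sts k n).filter (fun e => ∀ P, IsHyp k M P → ¬ e ⊆ cap k M P)

end Pool.Agent.RKP
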