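import Pool.Agent.RKP.Defs

/-!
MP_039b14_co, ranks four to seven: basic facts about the families (module KA).
-/

set_option autoImplicit false

namespace Pool.Agent.RKP

open Finset

variable {n k : ℕ}

theorem eq_of_facet {F : Finset (Finset (Fin n))} (hF : IsFam k F) {H K X : Finset (Fin n)}
    (hH : H ∈ F) (hK : K ∈ F) (hXH : X ⊆ H) (hXK : X ⊆ K) (hX : k < X.card) : H = K := by
  by_contra hne
  have h1 := hF.2 H hH K hK hne
  have h2 : X.card ≤ (H ∩ K).card := card_le_card (subset_inter hXH hXK)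
  omega

theorem mb_eq {F : Finset (Finset (Fin n))} (hF : IsFam k F) {R X : Finset (Fin n)}
    (hR : R ∈ F) (hX : X ⊆ R) (hk : k < X.card) : mb F X = R := by
  have h : Cov F X := ⟨R, hR, hX⟩
  unfold mb
  rw [dif_pos h]
  exact eq_of_facet hF h.choose_spec.1 hR h.choose_spec.2 hX hk

theorem mb_mem {F : Finset (Finset (Fin n))} {X : Finset (Fin n)} (h : Cov F X) :
    mb F X ∈ F ∧ X ⊆ mb F X := by
  unfold mb
  rw [dif_pos h]
  exact h.choose_spec

theorem tr_card {e : Finset (Fin n)} {i u v : Fin n} (he : e.card = k) (hk : 1 ≤ k) (hi : i ∈ e)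
    (huv : u ≠ v) (hu : u ∉ e) (hv : v ∉ e) : (tr e i u v).card = k + 1 := by
  unfold tr
  have h1 : (e.erase i).card = k - 1 := by rw [card_erase_of_mem hi, he]
  have h2 : v ∉ e.erase i := fun h => hv (mem_of_mem_erase h)
  have h3 : u ∉ insert v (e.erase i) := by
    intro h
    rcases mem_insert.1 h with h | h
    · exact huv h
    · exact hu (mem_of_mem_erase h)
  rw [card_insert_of_notMem h3, card_insert_of_notMem h2, h1]
  omega

theorem tr_comm (e : Finset (Fin n)) (i u v : Fin n) : tr e i u v = tr e i v u := by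
  unfold tr
  exact insert_comm _ _ _

/-- membership in `FT` -/
theorem mem_FT {P : Finset (Finset (Fin n))} {e : Finset (Fin n)} {t : ℕ}
    {F : Finset (Finset (Fin n))} : F ∈ FT k P e t ↔ IsFam k F ∧ (∀ f ∈ P, ¬ Cov F f) ∧
      (∀ H ∈ F, e ⊆ H → H.card = k + 2) ∧ (F.filter (fun H => e ⊆ H)).card = t := by
  unfold FT AA fams
  simp only [mem_filter, mem_univ, true_and]
  constructor
  · rintro ⟨⟨h1, h2⟩, h3, h4⟩
    exact ⟨h1, h2, h3, h4⟩
  · rintro ⟨h1, h2, h3, h4⟩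
    exact ⟨⟨h1, h2⟩, h3, h4⟩

/-- members `D` (not through `e`) are replaced by sets `I` (not through `e`) -/
theorem replace_FT {P : Finset (Finset (Fin n))} {e : Finset (Fin n)} {t : ℕ}
    {F D I : Finset (Finset (Fin n))} (hF : F ∈ FT k P e t) (hD : ∀ H ∈ D, ¬ e ⊆ H)
    (hI : ∀ H ∈ I, ¬ e ⊆ H ∧ k + 2 ≤ H.card ∧ H.card < n ∧ (∀ f ∈ P, ¬ f ⊆ H) ∧
      (∀ K ∈ F \ D, K ≠ H → (K ∩ H).card ≤ k) ∧ ∀ K ∈ I, K ≠ H → (K ∩ H).card ≤ k) :
    (F \ D) ∪ I ∈ FT k P e t := by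
  rw [mem_FT] at hF ⊢
  obtain ⟨⟨hF1, hF2⟩, hF3, hF4, hF5⟩ := hF
  refine ⟨⟨?_, ?_⟩, ?_, ?_, ?_⟩
  · intro H hH
    rcases mem_union.1 hH with h | h
    · exact hF1 H (mem_sdiff.1 h).1
    · exact ⟨(hI H h).2.1, (hI H h).2.2.1⟩
  · intro H hH K hK hne
    rcases mem_union.1 hH with h | h
    · rcases mem_union.1 hK with h' | h'
      · exact hF2 H (mem_sdiff.1 h).1 K (mem_sdiff.1 h').1 hne
      · exact (hI K h').2.2.2.2.1 H h hne
    · rcases mem_union.1 hK with h' | h'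
      · rw [inter_comm]
        exact (hI H h).2.2.2.2.1 K h' (Ne.symm hne)
      · exact (hI K h').2.2.2.2.2 H h hne
  · rintro f hf ⟨H, hH, hfH⟩
    rcases mem_union.1 hH with h | h
    · exact hF3 f hf ⟨H, (mem_sdiff.1 h).1, hfH⟩
    · exact (hI H h).2.2.2.1 f hf hfH
  · intro H hH he
    rcases mem_union.1 hH with h | h
    · exact hF4 H (mem_sdiff.1 h).1 he
    · exact absurd he (hI H h).1
  · rw [← hF5]
    congr 1
    ext H
    simp only [mem_filter, mem_union, mem_sdiff]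
    constructor
    · rintro ⟨h | h, he⟩
      · exact ⟨h.1, he⟩
      · exact absurd he (hI H h).1
    · rintro ⟨h, he⟩
      exact ⟨Or.inl ⟨h, fun hd => hD H hd he⟩, he⟩

end Pool.Agent.RKP
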