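import Pool.Agent.RKP.Defs

/-!
Large members: replace a large member `H` by an arbitrary set of blocks of a transversal design
inside `H`.
-/

set_option autoImplicit false

namespace Pool.Agent.RKP

open Finset H38Pav

variable {n k : ℕ}

namespace KB

variable {s : ℕ}

/-- the coordinates of a block -/
def co (a : Fin (k + 1) → Fin s) : Fin (k + 2) → Fin s :=
  Fin.snoc a ⟨(∑ j, (a j : ℕ)) % s, Nat.mod_lt _ (Nat.lt_of_le_of_lt (Nat.zero_le _) (a 0).2)⟩

theorem co_agree {a a' : Fin (k + 1) → Fin s} (h : a ≠ a') :
    (univ.filter (fun i => co a i = co a' i)).card ≤ k := by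
  by_contra hcon
  push Not at hcon
  have h1 : (univ.filter (fun i => ¬ co a i = co a' i)).card ≤ 1 := by
    have h2 := Finset.card_filter_add_card_filter_not (s := (univ : Finset (Fin (k + 2))))
      (fun i => co a i = co a' i)
    rw [Finset.card_univ, Fintype.card_fin] at h2
    omega
  obtain ⟨j, hj⟩ := Function.ne_iff.1 h
  have hc : ∀ j', co a (Fin.castSucc j') = a j' := fun j' => by
    unfold co
    rw [Fin.snoc_castSucc]
  have hc' : ∀ j', co a' (Fin.castSucc j') = a' j' := fun j' => by
    unfold co
    rw [Fin.snoc_castSucc]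
  have hjm : Fin.castSucc j ∈ univ.filter (fun i => ¬ co a i = co a' i) := by
    rw [Finset.mem_filter, hc, hc']
    exact ⟨Finset.mem_univ _, hj⟩
  have h3 : ∀ i, i ≠ Fin.castSucc j → co a i = co a' i := by
    intro i hi
    by_contra hne
    exact hi (Finset.card_le_one.1 h1 i (by simp [hne]) _ hjm)
  have h4 : ∀ j', j' ≠ j → a j' = a' j' := by
    intro j' hj'
    have := h3 (Fin.castSucc j') (fun h => hj' (Fin.castSucc_injective _ h))
    rwa [hc, hc'] at this
  have h5 : (∑ j, (a j : ℕ)) % s = (∑ j, (a' j : ℕ)) % s := by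
    have h6 := h3 (Fin.last (k + 1)) (by
      intro h
      have := congrArg Fin.val h
      rw [Fin.val_last, Fin.val_castSucc] at this
      have := j.2
      omega)
    unfold co at h6
    rw [Fin.snoc_last, Fin.snoc_last] at h6
    exact congrArg Fin.val h6
  rw [← Finset.add_sum_erase _ _ (Finset.mem_univ j),
    ← Finset.add_sum_erase _ (fun j => (a' j : ℕ)) (Finset.mem_univ j)] at h5
  have h7 : ∑ x ∈ univ.erase j, (a x : ℕ) = ∑ x ∈ univ.erase j, (a' x : ℕ) := by
    apply Finset.sum_congr rfl
    intro x hx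
    rw [h4 x (Finset.ne_of_mem_erase hx)]
  rw [h7] at h5
  have h8 : (a j : ℕ) ≡ a' j [MOD s] := Nat.ModEq.add_right_cancel' _ h5
  exact hj (Fin.ext (h8.eq_of_lt_of_lt (a j).2 (a' j).2))

/-- the blocks -/
def block (ψ : Fin (k + 2) × Fin s → Fin n) (a : Fin (k + 1) → Fin s) : Finset (Fin n) :=
  univ.image (fun i : Fin (k + 2) => ψ (i, co a i))

theorem block_card {ψ : Fin (k + 2) × Fin s → Fin n} (hψ : Function.Injective ψ)
    (a : Fin (k + 1) → Fin s) : (block ψ a).card = k + 2 := by
  unfold block
  rw [Finset.card_image_of_injective, Finset.card_univ, Fintype.card_fin]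
  intro i j hij
  have h1 := hψ hij
  exact (Prod.mk.inj h1).1

theorem block_inter {ψ : Fin (k + 2) × Fin s → Fin n} (hψ : Function.Injective ψ)
    {a a' : Fin (k + 1) → Fin s} (h : a ≠ a') : (block ψ a ∩ block ψ a').card ≤ k := by
  refine le_trans ?_ (co_agree h)
  refine le_trans (Finset.card_le_card (t := (univ.filter (fun i => co a i = co a' i)).image
    (fun i => ψ (i, co a i))) ?_) Finset.card_image_le
  intro x hx
  rw [Finset.mem_inter] at hx
  obtain ⟨h1, h2⟩ := hx
  unfold block at h1 h2
  rw [Finset.mem_image] at h1 h2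
  obtain ⟨i, -, rfl⟩ := h1
  obtain ⟨j, -, hj⟩ := h2
  have h3 := Prod.mk.inj (hψ hj)
  obtain ⟨rfl, h4⟩ := h3
  rw [Finset.mem_image]
  exact ⟨j, by simp [h4], rfl⟩

theorem block_injective {ψ : Fin (k + 2) × Fin s → Fin n} (hψ : Function.Injective ψ) :
    Function.Injective (block ψ) := by
  intro t t' h
  by_contra hne
  have h1 := block_inter hψ hne
  rw [h, Finset.inter_self, block_card hψ] at h1
  omega

theorem block_sub {ψ : Fin (k + 2) × Fin s → Fin n} {H : Finset (Fin n)} (hH : ∀ q, ψ q ∈ H)
    (a : Fin (k + 1) → Fin s) : block ψ a ⊆ H := by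
  intro x hx
  unfold block at hx
  rw [Finset.mem_image] at hx
  obtain ⟨i, -, rfl⟩ := hx
  exact hH _

end KB

open KB in
open Classical in
theorem giants (P : Finset (Finset (Fin n))) (e : Finset (Fin n)) (t m : ℕ) (hm : k + 3 ≤ m) :
    ((FT k P e t).filter (fun F => ∃ H ∈ F, H.card = m)).card * 2 ^ ((m / (k + 2)) ^ (k + 1)) ≤
      n ^ m * (FT k P e t).card := by
  rcases Nat.eq_zero_or_pos n with hn0 | hn0
  · have h0 : (FT k P e t).filter (fun F => ∃ H ∈ F, H.card = m) = ∅ := by
      rw [Finset.filter_eq_empty_iff]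
      rintro F hF ⟨H, hH, -⟩
      unfold FT AA fams at hF
      rw [Finset.mem_filter, Finset.mem_filter, Finset.mem_filter] at hF
      have := (hF.1.1.2.1 H hH).2
      omega
    rw [h0, Finset.card_empty, zero_mul]
    exact Nat.zero_le _
  set s := m / (k + 2) with hs
  have hsm : (k + 2) * s ≤ m := Nat.mul_div_le _ _
  -- the embeddings
  have hex : ∀ H : Finset (Fin n), ∃ ψ : Fin (k + 2) × Fin s → Fin n, H.card = m →
      Function.Injective ψ ∧ ∀ q, ψ q ∈ H := by
    intro H
    by_cases hH : H.card = m
    · have h1 : Fintype.card (Fin (k + 2) × Fin s) ≤ Fintype.card H := by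
        rw [Fintype.card_prod, Fintype.card_fin, Fintype.card_fin, Fintype.card_coe, hH]
        exact hsm
      obtain ⟨f⟩ := Function.Embedding.nonempty_of_card_le h1
      exact ⟨fun q => (f q : Fin n), fun _ => ⟨fun a b hab => f.injective (Subtype.ext hab),
        fun q => (f q).2⟩⟩
    · exact ⟨fun _ => ⟨0, hn0⟩, fun h => absurd h hH⟩
  choose ψ hψ using hex
  set hh : Finset (Finset (Fin n)) → Finset (Fin n) := fun F =>
    if h : ∃ H ∈ F, H.card = m then h.choose else ∅ with hhdef
  have hh_spec : ∀ F, (∃ H ∈ F, H.card = m) → hh F ∈ F ∧ (hh F).card = m := by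
    intro F h
    rw [hhdef]
    simp only [dif_pos h]
    exact h.choose_spec
  set Γ := (FT k P e t).filter (fun F => ∃ H ∈ F, H.card = m) with hΓ
  -- facts on the members of Γ
  have hfacts : ∀ F ∈ Γ, IsFam k F ∧ (∀ f ∈ P, ¬ Cov F f) ∧ hh F ∈ F ∧
      Function.Injective (ψ (hh F)) ∧ (∀ q, ψ (hh F) q ∈ hh F) ∧ (hh F).card = m ∧
      (∀ H ∈ F, e ⊆ H → H.card = k + 2) ∧ (F.filter (fun H => e ⊆ H)).card = t := by
    intro F hF
    rw [hΓ, Finset.mem_filter] at hF
    obtain ⟨h1, h2⟩ := hF
    unfold FT AA fams at h1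
    rw [Finset.mem_filter, Finset.mem_filter, Finset.mem_filter] at h1
    obtain ⟨h3, h4⟩ := hh_spec F h2
    obtain ⟨h5, h6⟩ := hψ (hh F) h4
    exact ⟨h1.1.1.2, h1.1.2, h3, h5, h6, h4, h1.2.1, h1.2.2⟩
  have hnot : ∀ F ∈ Γ, ∀ K ∈ F.erase (hh F), ¬ K ⊆ hh F := by
    intro F hF K hK hKH
    obtain ⟨h1, -, h3, -, -, -, -, -⟩ := hfacts F hF
    rw [Finset.mem_erase] at hK
    have h2 := h1.2 K hK.2 (hh F) h3 hK.1
    rw [Finset.inter_eq_left.2 hKH] at h2
    have h4 := (h1.1 K hK.2).1
    omega
  have hnote : ∀ F ∈ Γ, ¬ e ⊆ hh F := by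
    intro F hF he
    obtain ⟨-, -, h3, -, -, h4, h5, -⟩ := hfacts F hF
    have := h5 (hh F) h3 he
    omega
  have hmain : (Γ ×ˢ (univ : Finset (Finset (Fin (k + 1) → Fin s)))).card ≤
      ((univ : Finset (Fin n)).powersetCard m ×ˢ FT k P e t).card := by
    refine Finset.card_le_card_of_injOn
      (fun q => (hh q.1, q.1.erase (hh q.1) ∪ q.2.image (block (ψ (hh q.1))))) ?_ ?_
    · rintro ⟨F, S⟩ hFS
      rw [Finset.mem_coe, Finset.mem_product] at hFS
      have hF : F ∈ Γ := hFS.1
      obtain ⟨h1, h2, h3, h4, h5, h6, h7, h8⟩ := hfacts F hF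
      simp only [Finset.coe_product, Set.mem_prod, Finset.mem_coe, Finset.mem_powersetCard]
      refine ⟨⟨Finset.subset_univ _, h6⟩, ?_⟩
      have hHn : k + 2 < n := by
        have := h1.1 (hh F) h3
        omega
      unfold FT AA fams
      rw [Finset.mem_filter, Finset.mem_filter, Finset.mem_filter]
      have hKH : ∀ K ∈ F.erase (hh F), ∀ a, (K ∩ block (ψ (hh F)) a).card ≤ k := by
        intro K hK a
        rw [Finset.mem_erase] at hK
        refine le_trans (Finset.card_le_card ?_) (h1.2 K hK.2 (hh F) h3 hK.1)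
        exact Finset.inter_subset_inter_left (block_sub h5 a)
      refine ⟨⟨⟨Finset.mem_univ _, ?_, ?_⟩, ?_⟩, ?_, ?_⟩
      · intro K hK
        rw [Finset.mem_union] at hK
        rcases hK with hK | hK
        · exact h1.1 K (Finset.mem_of_mem_erase hK)
        · rw [Finset.mem_image] at hK
          obtain ⟨a, -, rfl⟩ := hK
          rw [block_card h4]
          exact ⟨le_rfl, hHn⟩
      · intro K hK K' hK' hne
        rw [Finset.mem_union] at hK hK'
        rcases hK with hK | hK <;> rcases hK' with hK' | hK'
        · exact h1.2 K (Finset.mem_of_mem_erase hK) K' (Finset.mem_of_mem_erase hK') hne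
        · rw [Finset.mem_image] at hK'
          obtain ⟨a, -, rfl⟩ := hK'
          exact hKH K hK a
        · rw [Finset.mem_image] at hK
          obtain ⟨a, -, rfl⟩ := hK
          rw [Finset.inter_comm]
          exact hKH K' hK' a
        · rw [Finset.mem_image] at hK hK'
          obtain ⟨a, -, rfl⟩ := hK
          obtain ⟨a', -, rfl⟩ := hK'
          exact block_inter h4 (fun h => hne (by rw [h]))
      · intro f hf hcov
        obtain ⟨K, hK, heK⟩ := hcov
        rw [Finset.mem_union] at hK
        rcases hK with hK | hK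
        · exact h2 f hf ⟨K, Finset.mem_of_mem_erase hK, heK⟩
        · rw [Finset.mem_image] at hK
          obtain ⟨a, -, rfl⟩ := hK
          exact h2 f hf ⟨hh F, h3, heK.trans (block_sub h5 a)⟩
      · intro K hK heK
        rw [Finset.mem_union] at hK
        rcases hK with hK | hK
        · exact h7 K (Finset.mem_of_mem_erase hK) heK
        · rw [Finset.mem_image] at hK
          obtain ⟨a, -, rfl⟩ := hK
          exact absurd (heK.trans (block_sub h5 a)) (hnote F hF)
      · rw [← h8]
        congr 1
        ext K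
        rw [Finset.mem_filter, Finset.mem_filter, Finset.mem_union, Finset.mem_erase,
          Finset.mem_image]
        constructor
        · rintro ⟨⟨-, hK⟩ | ⟨a, -, rfl⟩, heK⟩
          · exact ⟨hK, heK⟩
          · exact absurd (heK.trans (block_sub h5 a)) (hnote F hF)
        · rintro ⟨hK, heK⟩
          refine ⟨Or.inl ⟨?_, hK⟩, heK⟩
          rintro rfl
          exact hnote F hF heK
    · rintro ⟨F, S⟩ hFS ⟨F', S'⟩ hFS' heq
      rw [Finset.mem_coe, Finset.mem_product] at hFS hFS'
      have hF : F ∈ Γ := hFS.1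
      have hF' : F' ∈ Γ := hFS'.1
      have hq := Prod.mk.inj heq
      obtain ⟨hH, hU⟩ := hq
      dsimp only at hH hU
      obtain ⟨-, -, h3, h4, h5, -, -, -⟩ := hfacts F hF
      obtain ⟨-, -, h3', h4', h5', -, -, -⟩ := hfacts F' hF'
      have hb : ∀ K ∈ S.image (block (ψ (hh F))), K ⊆ hh F := by
        intro K hK
        rw [Finset.mem_image] at hK
        obtain ⟨a, -, rfl⟩ := hK
        exact block_sub h5 a
      have hb' : ∀ K ∈ S'.image (block (ψ (hh F'))), K ⊆ hh F' := by
        intro K hK
        rw [Finset.mem_image] at hK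
        obtain ⟨a, -, rfl⟩ := hK
        exact block_sub h5' a
      have hn := hnot F hF
      have hn' := hnot F' hF'
      rw [← hH] at hU hb' hn' h3'
      have e1 : F.erase (hh F) = F'.erase (hh F) := by
        ext K
        constructor
        · intro hK
          have h6 : K ∈ F'.erase (hh F) ∪ S'.image (block (ψ (hh F))) := by
            rw [← hU]; exact Finset.mem_union_left _ hK
          rw [Finset.mem_union] at h6
          rcases h6 with h6 | h6
          · exact h6
          · exact absurd (hb' K h6) (hn K hK)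
        · intro hK
          have h6 : K ∈ F.erase (hh F) ∪ S.image (block (ψ (hh F))) := by
            rw [hU]; exact Finset.mem_union_left _ hK
          rw [Finset.mem_union] at h6
          rcases h6 with h6 | h6
          · exact h6
          · exact absurd (hb K h6) (hn' K hK)
      have e2 : S.image (block (ψ (hh F))) = S'.image (block (ψ (hh F))) := by
        ext K
        constructor
        · intro hK
          have h6 : K ∈ F'.erase (hh F) ∪ S'.image (block (ψ (hh F))) := by
            rw [← hU]; exact Finset.mem_union_right _ hK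
          rw [Finset.mem_union] at h6
          rcases h6 with h6 | h6
          · exact absurd (hb K hK) (hn' K h6)
          · exact h6
        · intro hK
          have h6 : K ∈ F.erase (hh F) ∪ S.image (block (ψ (hh F))) := by
            rw [hU]; exact Finset.mem_union_right _ hK
          rw [Finset.mem_union] at h6
          rcases h6 with h6 | h6
          · exact absurd (hb' K hK) (hn K h6)
          · exact h6
      have e3 : F = F' := by
        rw [← Finset.insert_erase h3, e1, Finset.insert_erase h3']
      have e4 : S = S' := Finset.image_injective (block_injective h4) e2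
      rw [e3, e4]
  rw [Finset.card_product, Finset.card_product, Finset.card_powersetCard, Finset.card_univ,
    Finset.card_univ, Fintype.card_finset, Fintype.card_fun, Fintype.card_fin, Fintype.card_fin,
    Fintype.card_fin] at hmain
  exact hmain.trans (Nat.mul_le_mul_right _ (Nat.choose_le_pow n m))

end Pool.Agent.RKP
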