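import Pool.Agent.RKP.KA

/-!
Members with `k + 2` elements: the sum of the numbers of bad triples.
-/

set_option autoImplicit false

namespace Pool.Agent.RKP

open Finset

variable {n k : ℕ}

section choices

variable {α : Type*} [DecidableEq α]

/-- the choices of at most one element of each of three sets, different from each other -/
def kcOpts (A B C : Finset α) : Finset ((_ : Option α) × (_ : Option α) × Option α) :=
  (insertNone A).sigma (fun o1 => (insertNone (B \ o1.toFinset)).sigma
    (fun o2 => insertNone (C \ (o1.toFinset ∪ o2.toFinset))))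

omit [DecidableEq α] in
theorem kc_card_toFinset (o : Option α) : o.toFinset.card ≤ 1 := by
  cases o <;> simp

theorem kcOpts_card (A B C : Finset α) :
    (A.card + 1) * (B.card + 1) * (C.card + 1) ≤ 6 * (kcOpts A B C).card := by
  have h3 : ∀ o1 o2 : Option α,
      C.card + 1 ≤ 3 * ((C \ (o1.toFinset ∪ o2.toFinset)).card + 1) := by
    intro o1 o2
    have e1 := le_card_sdiff (o1.toFinset ∪ o2.toFinset) C
    have e2 := card_union_le o1.toFinset o2.toFinset
    have e3 := kc_card_toFinset o1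
    have e4 := kc_card_toFinset o2
    omega
  have h2 : ∀ o1 : Option α, B.card + 1 ≤ 2 * ((B \ o1.toFinset).card + 1) := by
    intro o1
    have e1 := le_card_sdiff o1.toFinset B
    have e3 := kc_card_toFinset o1
    omega
  have hin : ∀ o1 : Option α, (B.card + 1) * (C.card + 1) ≤
      6 * ((insertNone (B \ o1.toFinset)).sigma
        (fun o2 => insertNone (C \ (o1.toFinset ∪ o2.toFinset)))).card := by
    intro o1
    rw [card_sigma]
    have e1 : (insertNone (B \ o1.toFinset)).card * (C.card + 1) ≤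
        ∑ o2 ∈ insertNone (B \ o1.toFinset),
          3 * (insertNone (C \ (o1.toFinset ∪ o2.toFinset))).card := by
      rw [← smul_eq_mul]
      refine card_nsmul_le_sum _ _ _ (fun o2 _ => ?_)
      rw [card_insertNone]
      exact h3 o1 o2
    rw [← mul_sum, card_insertNone] at e1
    have e2 := Nat.mul_le_mul_right (C.card + 1) (h2 o1)
    calc (B.card + 1) * (C.card + 1) ≤ 2 * ((B \ o1.toFinset).card + 1) * (C.card + 1) := e2
      _ = 2 * (((B \ o1.toFinset).card + 1) * (C.card + 1)) := by ring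
      _ ≤ 2 * (3 * ∑ o2 ∈ insertNone (B \ o1.toFinset),
          (insertNone (C \ (o1.toFinset ∪ o2.toFinset))).card) := Nat.mul_le_mul_left _ e1
      _ = _ := by ring
  unfold kcOpts
  rw [card_sigma, mul_sum, mul_assoc, ← card_insertNone A, ← smul_eq_mul]
  exact card_nsmul_le_sum _ _ _ (fun o1 _ => hin o1)

theorem mem_kcOpts {A B C : Finset α} {o1 o2 o3 : Option α} :
    (⟨o1, o2, o3⟩ : (_ : Option α) × (_ : Option α) × Option α) ∈ kcOpts A B C ↔
      (∀ w, o1 = some w → w ∈ A) ∧
      (∀ w, o2 = some w → w ∈ B ∧ o1 ≠ some w) ∧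
      (∀ w, o3 = some w → w ∈ C ∧ o1 ≠ some w ∧ o2 ≠ some w) := by
  unfold kcOpts
  simp only [mem_sigma, mem_insertNone, mem_sdiff, mem_union, Option.mem_toFinset, not_or,
    Option.mem_def, ne_eq]

end choices

/-- the new members -/
def kcNew (e : Finset (Fin n)) (i a b c : Fin n) (o1 o2 o3 : Option (Fin n)) :
    Finset (Finset (Fin n)) :=
  (o1.toFinset.image (fun w => insert w (tr e i a b))) ∪
    ((o2.toFinset.image (fun w => insert w (tr e i b c))) ∪
      (o3.toFinset.image (fun w => insert w (tr e i c a))))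

theorem mem_kcNew {e : Finset (Fin n)} {i a b c : Fin n} {o1 o2 o3 : Option (Fin n)}
    {H : Finset (Fin n)} : H ∈ kcNew e i a b c o1 o2 o3 ↔
      (∃ w, o1 = some w ∧ H = insert w (tr e i a b)) ∨
      (∃ w, o2 = some w ∧ H = insert w (tr e i b c)) ∨
      (∃ w, o3 = some w ∧ H = insert w (tr e i c a)) := by
  unfold kcNew
  simp only [mem_union, mem_image, Option.mem_toFinset, Option.mem_def, eq_comm (b := H)]

theorem kc_rot (e : Finset (Fin n)) (i a b c : Fin n) :
    insert c (tr e i a b) = insert a (insert b (insert c (e.erase i))) := by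
  unfold tr
  rw [insert_comm c a, insert_comm c b]

theorem kc_inter {Q : Finset (Fin n)} {x y z w w' : Fin n} (h1 : w ≠ w') (h2 : w ≠ y)
    (h3 : x ≠ w') (h4 : x ≠ y) {H K : Finset (Fin n)} (hH : H = insert w (insert x (insert z Q)))
    (hK : K = insert w' (insert z (insert y Q))) : K ∩ H ⊆ insert z Q := by
  subst hH hK
  intro t ht
  rw [mem_inter] at ht
  obtain ⟨hK, hH⟩ := ht
  rw [mem_insert]
  rcases mem_insert.1 hK with e1 | hK
  · subst e1
    rcases mem_insert.1 hH with e2 | hH
    · exact absurd e2.symm h1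
    rcases mem_insert.1 hH with e2 | hH
    · exact absurd e2.symm h3
    exact mem_insert.1 hH
  rcases mem_insert.1 hK with e1 | hK
  · exact Or.inl e1
  rcases mem_insert.1 hK with e1 | hK
  · subst e1
    rcases mem_insert.1 hH with e2 | hH
    · exact absurd e2.symm h2
    rcases mem_insert.1 hH with e2 | hH
    · exact absurd e2.symm h4
    exact mem_insert.1 hH
  · exact Or.inr hK

theorem kc_inter_card {e : Finset (Fin n)} (he : e.card = k) (hk : 1 ≤ k) {i : Fin n} (hi : i ∈ e)
    {x y z w w' : Fin n} (h1 : w ≠ w') (h2 : w ≠ y) (h3 : x ≠ w') (h4 : x ≠ y)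
    {H K : Finset (Fin n)} (hH : H = insert w (insert x (insert z (e.erase i))))
    (hK : K = insert w' (insert z (insert y (e.erase i)))) : (K ∩ H).card ≤ k := by
  refine (card_le_card (kc_inter h1 h2 h3 h4 hH hK)).trans ?_
  refine (card_insert_le _ _).trans ?_
  rw [card_erase_of_mem hi]
  omega

/-- one new member -/
theorem kc_one {P : Finset (Finset (Fin n))} {e : Finset (Fin n)} {F : Finset (Finset (Fin n))}
    (hk : 1 ≤ k) (he : e.card = k) {i u v w : Fin n} (hi : i ∈ e) (huv : u ≠ v) (hu : u ∉ e)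
    (hv : v ∉ e) {R : Finset (Fin n)} (hR : tr e i u v ⊆ R) (hw : w ∈ gset k P e F i u v R) :
    i ∉ insert w (tr e i u v) ∧ (insert w (tr e i u v)).card = k + 2 ∧ w ∉ R ∧
      w ∉ tr e i u v ∧ Free k P (F.erase R) (insert w (tr e i u v)) := by
  unfold gset at hw
  simp only [mem_filter, mem_univ, true_and] at hw
  obtain ⟨hwR, hwe, hfree⟩ := hw
  have hwt : w ∉ tr e i u v := fun h => hwR (hR h)
  refine ⟨?_, ?_, hwR, hwt, hfree⟩
  · unfold tr
    simp only [mem_insert, mem_erase, not_or]
    refine ⟨?_, ?_, ?_, fun h => h.1 rfl⟩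
    · rintro rfl
      exact hwe hi
    · rintro rfl
      exact hu hi
    · rintro rfl
      exact hv hi
  · rw [card_insert_of_notMem hwt, tr_card he hk hi huv hu hv]

theorem kc_mem_FT {P : Finset (Finset (Fin n))} {e : Finset (Fin n)} {t : ℕ}
    {F : Finset (Finset (Fin n))} (hF : F ∈ FT k P e t) (hk : 1 ≤ k) (hn : k + 3 ≤ n)
    (he : e.card = k) {i : Fin n} (hi : i ∈ e) {a b c : Fin n} (hab : a ≠ b) (hbc : b ≠ c)
    (hca : c ≠ a) (ha : a ∉ e) (hb : b ∉ e) (hc : c ∉ e) {R : Finset (Fin n)}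
    (hR : R = insert c (tr e i a b)) {o1 o2 o3 : Option (Fin n)}
    (ho : (⟨o1, o2, o3⟩ : (_ : Option (Fin n)) × (_ : Option (Fin n)) × Option (Fin n)) ∈
      kcOpts (gset k P e F i a b R) (gset k P e F i b c R) (gset k P e F i c a R)) :
    (F \ {R}) ∪ kcNew e i a b c o1 o2 o3 ∈ FT k P e t ∧
      Disjoint (F \ {R}) (kcNew e i a b c o1 o2 o3) := by
  obtain ⟨q1, q2, q3⟩ := mem_kcOpts.1 ho
  have hRabc : R = insert a (insert b (insert c (e.erase i))) := by
    rw [hR, kc_rot]
  have haR : a ∈ R := by rw [hRabc]; exact mem_insert_self _ _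
  have hbR : b ∈ R := by rw [hRabc]; exact mem_insert_of_mem (mem_insert_self _ _)
  have hcR : c ∈ R := by
    rw [hRabc]; exact mem_insert_of_mem (mem_insert_of_mem (mem_insert_self _ _))
  have hQR : e.erase i ⊆ R := by
    rw [hRabc]
    exact fun x hx => mem_insert_of_mem (mem_insert_of_mem (mem_insert_of_mem hx))
  have htr : ∀ u v, u ∈ R → v ∈ R → tr e i u v ⊆ R := fun u v hu hv =>
    insert_subset hu (insert_subset hv hQR)
  have hiR : i ∉ R := by
    rw [hRabc]
    simp only [mem_insert, mem_erase, not_or]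
    refine ⟨?_, ?_, ?_, fun h => h.1 rfl⟩
    · rintro rfl
      exact ha hi
    · rintro rfl
      exact hb hi
    · rintro rfl
      exact hc hi
  have k1 : ∀ w, o1 = some w → _ := fun w hw =>
    kc_one hk he hi hab ha hb (htr a b haR hbR) (q1 w hw)
  have k2 : ∀ w, o2 = some w → _ := fun w hw =>
    kc_one hk he hi hbc hb hc (htr b c hbR hcR) (q2 w hw).1
  have k3 : ∀ w, o3 = some w → _ := fun w hw =>
    kc_one hk he hi hca hc ha (htr c a hcR haR) (q3 w hw).1
  have hone : ∀ H ∈ kcNew e i a b c o1 o2 o3, i ∉ H ∧ H.card = k + 2 ∧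
      Free k P (F.erase R) H := by
    intro H hH
    rcases mem_kcNew.1 hH with ⟨w, hw, rfl⟩ | ⟨w, hw, rfl⟩ | ⟨w, hw, rfl⟩
    · exact ⟨(k1 w hw).1, (k1 w hw).2.1, (k1 w hw).2.2.2.2⟩
    · exact ⟨(k2 w hw).1, (k2 w hw).2.1, (k2 w hw).2.2.2.2⟩
    · exact ⟨(k3 w hw).1, (k3 w hw).2.1, (k3 w hw).2.2.2.2⟩
  have h12 : ∀ w w', o1 = some w → o2 = some w' →
      (insert w' (tr e i b c) ∩ insert w (tr e i a b)).card ≤ k := by
    intro w w' hw hw'
    have g1 := (k1 w hw).2.2.1
    have g2 := (k2 w' hw').2.2.1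
    refine kc_inter_card he hk hi (x := a) (y := c) (z := b) (w := w) (w' := w') ?_ ?_ ?_ hca.symm
      rfl rfl
    · rintro rfl
      exact (q2 w hw').2 hw
    · rintro rfl
      exact g1 hcR
    · rintro rfl
      exact g2 haR
  have h23 : ∀ w w', o2 = some w → o3 = some w' →
      (insert w' (tr e i c a) ∩ insert w (tr e i b c)).card ≤ k := by
    intro w w' hw hw'
    have g1 := (k2 w hw).2.2.1
    have g2 := (k3 w' hw').2.2.1
    refine kc_inter_card he hk hi (x := b) (y := a) (z := c) (w := w) (w' := w') ?_ ?_ ?_ hab.symm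
      rfl rfl
    · rintro rfl
      exact (q3 w hw').2.2 hw
    · rintro rfl
      exact g1 haR
    · rintro rfl
      exact g2 hbR
  have h31 : ∀ w w', o3 = some w → o1 = some w' →
      (insert w' (tr e i a b) ∩ insert w (tr e i c a)).card ≤ k := by
    intro w w' hw hw'
    have g1 := (k3 w hw).2.2.1
    have g2 := (k1 w' hw').2.2.1
    refine kc_inter_card he hk hi (x := c) (y := b) (z := a) (w := w) (w' := w') ?_ ?_ ?_ hbc.symm
      rfl rfl
    · rintro rfl
      exact (q3 w hw).2.1 hw'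
    · rintro rfl
      exact g1 hbR
    · rintro rfl
      exact g2 hcR
  have hpair : ∀ H ∈ kcNew e i a b c o1 o2 o3, ∀ K ∈ kcNew e i a b c o1 o2 o3, K ≠ H →
      (K ∩ H).card ≤ k := by
    intro H hH K hK hne
    rcases mem_kcNew.1 hH with ⟨w, hw, rfl⟩ | ⟨w, hw, rfl⟩ | ⟨w, hw, rfl⟩ <;>
      rcases mem_kcNew.1 hK with ⟨w', hw', rfl⟩ | ⟨w', hw', rfl⟩ | ⟨w', hw', rfl⟩
    · rw [hw, Option.some.injEq] at hw'
      subst hw'
      exact absurd rfl hne
    · exact h12 w w' hw hw'
    · rw [inter_comm]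
      exact h31 w' w hw' hw
    · rw [inter_comm]
      exact h12 w' w hw' hw
    · rw [hw, Option.some.injEq] at hw'
      subst hw'
      exact absurd rfl hne
    · exact h23 w w' hw hw'
    · exact h31 w w' hw hw'
    · rw [inter_comm]
      exact h23 w' w hw' hw
    · rw [hw, Option.some.injEq] at hw'
      subst hw'
      exact absurd rfl hne
  refine ⟨replace_FT hF ?_ ?_, ?_⟩
  · intro H hH hes
    rw [mem_singleton] at hH
    subst hH
    exact hiR (hes hi)
  · intro H hH
    obtain ⟨g1, g2, g3, g4⟩ := hone H hH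
    refine ⟨fun hes => g1 (hes hi), g2.ge, by omega, g3, ?_, fun K hK hne => hpair H hH K hK hne⟩
    intro K hK _
    rw [mem_sdiff, mem_singleton] at hK
    exact g4 K (mem_erase.2 ⟨hK.2, hK.1⟩)
  · rw [disjoint_left]
    intro H hH hH'
    obtain ⟨g1, g2, g3, g4⟩ := hone H hH'
    rw [mem_sdiff, mem_singleton] at hH
    have g5 := g4 H (mem_erase.2 ⟨hH.2, hH.1⟩)
    rw [inter_self] at g5
    omega

/-- a member of a family determines the chosen point -/
theorem kc_unique {P : Finset (Finset (Fin n))} {e : Finset (Fin n)} {t : ℕ}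
    {F : Finset (Finset (Fin n))} (hF : F ∈ FT k P e t) {T : Finset (Fin n)} (hT : T.card = k + 1)
    {w w' : Fin n} (h1 : insert w T ∈ F) (h2 : insert w' T ∈ F) (hw : w ∉ T) : w = w' := by
  have hfam := (mem_FT.1 hF).1
  have e1 := eq_of_facet hfam h1 h2 (subset_insert _ _) (subset_insert _ _) (by omega)
  have e2 : w ∈ insert w' T := by rw [← e1]; exact mem_insert_self _ _
  rcases mem_insert.1 e2 with h | h
  · exact h
  · exact absurd h hw

theorem sum_bad3 (P : Finset (Finset (Fin n))) (e : Finset (Fin n)) (t g : ℕ) (hk : 1 ≤ k)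
    (hn : k + 3 ≤ n) (he : e.card = k) {i : Fin n} (hi : i ∈ e) :
    g * ∑ F ∈ FT k P e t, (bad3 k P e F i g).card ≤ 48 * n ^ 3 * (FT k P e t).card := by
  classical
  let RR : Fin n × Fin n × Fin n → Finset (Fin n) := fun p => insert p.2.2 (tr e i p.1 p.2.1)
  let OO : Finset (Finset (Fin n)) → Fin n × Fin n × Fin n →
      Finset ((_ : Option (Fin n)) × (_ : Option (Fin n)) × Option (Fin n)) := fun F p =>
    kcOpts (gset k P e F i p.1 p.2.1 (RR p)) (gset k P e F i p.2.1 p.2.2 (RR p))
      (gset k P e F i p.2.2 p.1 (RR p))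
  let S := (FT k P e t).sigma (fun F => (bad3 k P e F i g).sigma (fun p => OO F p))
  have hS : S.card ≤ (FT k P e t).card * (n ^ 3 * 8) := by
    have hT : ((FT k P e t) ×ˢ ((univ : Finset (Fin n × Fin n × Fin n)) ×ˢ
        (univ : Finset (Bool × Bool × Bool)))).card = (FT k P e t).card * (n ^ 3 * 8) := by
      rw [card_product, card_product, card_univ, card_univ]
      simp only [Fintype.card_prod, Fintype.card_fin, Fintype.card_bool]
      ring
    rw [← hT]
    refine card_le_card_of_injOn (fun s => ((s.1 \ {RR s.2.1}) ∪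
      kcNew e i s.2.1.1 s.2.1.2.1 s.2.1.2.2 s.2.2.1 s.2.2.2.1 s.2.2.2.2,
      (s.2.1, (s.2.2.1.isSome, s.2.2.2.1.isSome, s.2.2.2.2.isSome)))) ?_ ?_
    · rintro ⟨F, ⟨a, b, c⟩, o1, o2, o3⟩ hs
      simp only [S, coe_sigma, Set.mem_sigma_iff, mem_coe] at hs
      obtain ⟨hF, hb3, ho⟩ := hs
      unfold bad3 at hb3
      simp only [mem_filter, mem_univ, true_and] at hb3
      obtain ⟨hab, hbc, hca, ha, hb, hc, hRF, -⟩ := hb3
      have h1 := (kc_mem_FT hF hk hn he hi hab hbc hca ha hb hc rfl ho).1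
      simp only [mem_coe, mem_product, mem_univ, and_true]
      exact h1
    · rintro ⟨F, ⟨a, b, c⟩, o1, o2, o3⟩ hs ⟨F', ⟨a', b', c'⟩, o1', o2', o3'⟩ hs' heq
      simp only [S, coe_sigma, Set.mem_sigma_iff, mem_coe] at hs hs'
      obtain ⟨hF, hb3, ho⟩ := hs
      obtain ⟨hF', hb3', ho'⟩ := hs'
      unfold bad3 at hb3 hb3'
      simp only [mem_filter, mem_univ, true_and] at hb3 hb3'
      simp only [Prod.mk.injEq] at heq
      obtain ⟨heqF, ⟨rfl, rfl, rfl⟩, f1, f2, f3⟩ := heq
      obtain ⟨hab, hbc, hca, ha, hb, hc, hRF, -⟩ := hb3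
      obtain ⟨-, -, -, -, -, -, hRF', -⟩ := hb3'
      obtain ⟨h1, h2⟩ := kc_mem_FT hF hk hn he hi hab hbc hca ha hb hc rfl ho
      obtain ⟨h1', h2'⟩ := kc_mem_FT hF' hk hn he hi hab hbc hca ha hb hc rfl ho'
      obtain ⟨q1, q2, q3⟩ := mem_kcOpts.1 ho
      obtain ⟨q1', q2', q3'⟩ := mem_kcOpts.1 ho'
      have hopt : ∀ (u v : Fin n) (o o' : Option (Fin n)), u ≠ v → u ∉ e → v ∉ e →
          o.isSome = o'.isSome →
          (∀ w, o = some w → w ∉ tr e i u v ∧
            insert w (tr e i u v) ∈ (F \ {RR (a, b, c)}) ∪ kcNew e i a b c o1 o2 o3) →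
          (∀ w, o' = some w →
            insert w (tr e i u v) ∈ (F \ {RR (a, b, c)}) ∪ kcNew e i a b c o1 o2 o3) →
          o = o' := by
        intro u v o o' huv hu hv hoo hw hw'
        rcases o with _ | w
        · rcases o' with _ | w'
          · rfl
          · simp at hoo
        · rcases o' with _ | w'
          · simp at hoo
          · obtain ⟨g1, g2⟩ := hw w rfl
            have g3 := hw' w' rfl
            rw [kc_unique h1 (tr_card he hk hi huv hu hv) g2 g3 g1]
      have hRabc : RR (a, b, c) = insert a (insert b (insert c (e.erase i))) :=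
        kc_rot e i a b c
      have haR : a ∈ RR (a, b, c) := by rw [hRabc]; exact mem_insert_self _ _
      have hbR : b ∈ RR (a, b, c) := by rw [hRabc]; exact mem_insert_of_mem (mem_insert_self _ _)
      have hcR : c ∈ RR (a, b, c) := by
        rw [hRabc]; exact mem_insert_of_mem (mem_insert_of_mem (mem_insert_self _ _))
      have hQR : e.erase i ⊆ RR (a, b, c) := by
        rw [hRabc]
        exact fun x hx => mem_insert_of_mem (mem_insert_of_mem (mem_insert_of_mem hx))
      have htr : ∀ u v, u ∈ RR (a, b, c) → v ∈ RR (a, b, c) → tr e i u v ⊆ RR (a, b, c) :=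
        fun u v hu hv => insert_subset hu (insert_subset hv hQR)
      have e1 : o1 = o1' := by
        refine hopt a b o1 o1' hab ha hb f1 ?_ ?_
        · intro w hw
          refine ⟨(kc_one hk he hi hab ha hb (htr a b haR hbR) (q1 w hw)).2.2.2.1, ?_⟩
          exact mem_union_right _ (mem_kcNew.2 (Or.inl ⟨w, hw, rfl⟩))
        · intro w hw
          rw [heqF]
          exact mem_union_right _ (mem_kcNew.2 (Or.inl ⟨w, hw, rfl⟩))
      have e2 : o2 = o2' := by
        refine hopt b c o2 o2' hbc hb hc f2 ?_ ?_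
        · intro w hw
          refine ⟨(kc_one hk he hi hbc hb hc (htr b c hbR hcR) (q2 w hw).1).2.2.2.1, ?_⟩
          exact mem_union_right _ (mem_kcNew.2 (Or.inr (Or.inl ⟨w, hw, rfl⟩)))
        · intro w hw
          rw [heqF]
          exact mem_union_right _ (mem_kcNew.2 (Or.inr (Or.inl ⟨w, hw, rfl⟩)))
      have e3 : o3 = o3' := by
        refine hopt c a o3 o3' hca hc ha f3 ?_ ?_
        · intro w hw
          refine ⟨(kc_one hk he hi hca hc ha (htr c a hcR haR) (q3 w hw).1).2.2.2.1, ?_⟩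
          exact mem_union_right _ (mem_kcNew.2 (Or.inr (Or.inr ⟨w, hw, rfl⟩)))
        · intro w hw
          rw [heqF]
          exact mem_union_right _ (mem_kcNew.2 (Or.inr (Or.inr ⟨w, hw, rfl⟩)))
      subst e1 e2 e3
      have e4 : F \ {RR (a, b, c)} = F' \ {RR (a, b, c)} := by
        have g1 : ((F \ {RR (a, b, c)}) ∪ kcNew e i a b c o1 o2 o3) \ kcNew e i a b c o1 o2 o3 =
            F \ {RR (a, b, c)} := by
          rw [union_sdiff_right]
          exact sdiff_eq_self_of_disjoint h2
        have g2 : ((F' \ {RR (a, b, c)}) ∪ kcNew e i a b c o1 o2 o3) \ kcNew e i a b c o1 o2 o3 =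
            F' \ {RR (a, b, c)} := by
          rw [union_sdiff_right]
          exact sdiff_eq_self_of_disjoint h2'
        rw [← g1, heqF, g2]
      have e5 : F = F' := by
        have g1 : insert (RR (a, b, c)) (F \ {RR (a, b, c)}) = F := by
          rw [sdiff_singleton_eq_erase]
          exact insert_erase hRF
        have g2 : insert (RR (a, b, c)) (F' \ {RR (a, b, c)}) = F' := by
          rw [sdiff_singleton_eq_erase]
          exact insert_erase hRF'
        rw [← g1, e4, g2]
      subst e5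
      rfl
  have hlow : g * ∑ F ∈ FT k P e t, (bad3 k P e F i g).card ≤ 6 * S.card := by
    rw [card_sigma, mul_sum, mul_sum]
    refine sum_le_sum (fun F _ => ?_)
    rw [card_sigma, mul_sum, mul_comm, ← smul_eq_mul]
    refine card_nsmul_le_sum _ _ _ (fun p hp => ?_)
    unfold bad3 at hp
    simp only [mem_filter, mem_univ, true_and] at hp
    exact hp.2.2.2.2.2.2.2.trans (kcOpts_card _ _ _)
  calc g * ∑ F ∈ FT k P e t, (bad3 k P e F i g).card ≤ 6 * S.card := hlow
    _ ≤ 6 * ((FT k P e t).card * (n ^ 3 * 8)) := Nat.mul_le_mul_left _ hS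
    _ = 48 * n ^ 3 * (FT k P e t).card := by ring

end Pool.Agent.RKP
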