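import Pool.Agent.RKP.KA

/-!
MP_039b14_co, ranks four to seven: larger members.
-/

set_option autoImplicit false

namespace Pool.Agent.RKP

open Finset

variable {n k : ℕ}

namespace KDx

/-- two choices have only `Q` in common -/
def Cp (Q : Finset (Fin n)) (o o' : Option (Finset (Fin n))) : Prop :=
  ∀ M ∈ o, ∀ M' ∈ o', M ∩ M' ⊆ Q

theorem cp_none_left (Q : Finset (Fin n)) (o : Option (Finset (Fin n))) : Cp Q none o := by
  intro M hM; simp at hM

theorem cp_none_right (Q : Finset (Fin n)) (o : Option (Finset (Fin n))) : Cp Q o none := by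
  intro M _ M' hM'; simp at hM'

open Classical in
/-- few members meet `M₁` outside of `Q` -/
theorem excl {F X : Finset (Finset (Fin n))} (hF : IsFam k F) {Q M₁ : Finset (Fin n)} {b : Fin n}
    {h : ℕ} (hQ : Q.card + 1 = k) (hb : b ∉ Q) (hM : M₁.card ≤ h) (hbM : b ∉ M₁)
    (hX : X ⊆ F) (hXb : ∀ M ∈ X, insert b Q ⊆ M) :
    (X.filter (fun M => ¬ (M₁ ∩ M ⊆ Q))).card ≤ h := by
  refine le_trans ?_ hM
  refine Finset.card_le_card_of_forall_subsingleton (fun M z => z ∈ M ∧ z ∉ Q) ?_ ?_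
  · intro M hMf
    obtain ⟨hMX, hn⟩ := Finset.mem_filter.mp hMf
    rw [Finset.not_subset] at hn
    obtain ⟨z, hz, hzQ⟩ := hn
    obtain ⟨hz1, hz2⟩ := Finset.mem_inter.mp hz
    exact ⟨z, hz1, hz2, hzQ⟩
  · intro z hz M hM1 M' hM2
    obtain ⟨hM1f, hzM, hzQ⟩ := hM1
    obtain ⟨hM2f, hzM', _⟩ := hM2
    have hMX := (Finset.mem_filter.mp hM1f).1
    have hMX' := (Finset.mem_filter.mp hM2f).1
    have hzb : z ≠ b := fun hh => hbM (hh ▸ hz)
    have hc : (insert z (insert b Q)).card = k + 1 := by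
      rw [Finset.card_insert_of_notMem, Finset.card_insert_of_notMem hb, hQ]
      simp only [Finset.mem_insert, not_or]
      exact ⟨hzb, hzQ⟩
    exact eq_of_facet (X := insert z (insert b Q)) hF (hX hMX) (hX hMX')
      (Finset.insert_subset hzM (hXb M hMX)) (Finset.insert_subset hzM' (hXb M' hMX'))
      (by omega)

/-- number of the choices -/
theorem choices (X : Finset (Finset (Fin n))) (pr : Option (Finset (Fin n)) → Prop)
    [DecidablePred pr] (h0 : pr none) {b : ℕ} (hb : (X.filter (fun M => ¬ pr (some M))).card ≤ b) :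
    X.card + 1 ≤ (b + 1) * ((insertNone X).filter pr).card := by
  have h1 : (X.filter (fun M => pr (some M))).card + (X.filter (fun M => ¬ pr (some M))).card =
      X.card := Finset.card_filter_add_card_filter_not _
  have h2 : insertNone (X.filter (fun M => pr (some M))) ⊆ (insertNone X).filter pr := by
    intro o ho
    cases o with
    | none => simp [h0]
    | some M =>
      rw [Finset.some_mem_insertNone] at ho
      obtain ⟨ha, hc⟩ := Finset.mem_filter.mp ho
      rw [Finset.mem_filter, Finset.some_mem_insertNone]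
      exact ⟨ha, hc⟩
  have h3 := Finset.card_le_card h2
  rw [Finset.card_insertNone] at h3
  set A := (X.filter (fun M => pr (some M))).card
  set B := ((insertNone X).filter pr).card
  have h4 : X.card ≤ A + b := by omega
  calc X.card + 1 ≤ A + b + 1 := by omega
    _ ≤ (b + 1) * (A + 1) := by nlinarith [Nat.zero_le (b * A)]
    _ ≤ (b + 1) * B := Nat.mul_le_mul_left _ h3

/-- triples of choices -/
abbrev Opt3 (n : ℕ) : Type :=
  Σ _ : Option (Finset (Fin n)), Σ _ : Option (Finset (Fin n)), Option (Finset (Fin n))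

open Classical in
/-- the compatible triples of choices -/
noncomputable def opts (Q : Finset (Fin n)) (X₁ X₂ X₃ : Finset (Finset (Fin n))) :
    Finset (Opt3 n) :=
  (insertNone X₁).sigma fun o₁ => ((insertNone X₂).filter fun o₂ => Cp Q o₁ o₂).sigma fun o₂ =>
    (insertNone X₃).filter fun o₃ => Cp Q o₁ o₃ ∧ Cp Q o₂ o₃

theorem mem_opts {Q : Finset (Fin n)} {X₁ X₂ X₃ : Finset (Finset (Fin n))}
    {o₁ o₂ o₃ : Option (Finset (Fin n))} :
    (⟨o₁, ⟨o₂, o₃⟩⟩ : Opt3 n) ∈ opts Q X₁ X₂ X₃ ↔ o₁ ∈ insertNone X₁ ∧ o₂ ∈ insertNone X₂ ∧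
      o₃ ∈ insertNone X₃ ∧ Cp Q o₁ o₂ ∧ Cp Q o₁ o₃ ∧ Cp Q o₂ o₃ := by
  simp only [opts, Finset.mem_sigma, Finset.mem_filter]
  tauto

/-- many triples of choices -/
theorem opts_card {F : Finset (Finset (Fin n))} (hF : IsFam k F) {Q R : Finset (Fin n)}
    {a b c : Fin n} {h : ℕ} (hh : 1 ≤ h) (hQ : Q.card + 1 = k) (ha : a ∉ Q)
    (hb : b ∉ Q)
    (hc : c ∉ Q) (hab : a ≠ b) (hac : a ≠ c) (hbc : b ≠ c) (hR : R ∈ F) (hQR : Q ⊆ R)
    (haR : a ∈ R) (hbR : b ∈ R) (hcR : c ∈ R) (hF' : ∀ H ∈ F, H.card ≤ h)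
    {X₁ X₂ X₃ : Finset (Finset (Fin n))}
    (h1 : ∀ M ∈ X₁, M ∈ F ∧ M ≠ R ∧ insert a Q ⊆ M)
    (h2 : ∀ M ∈ X₂, M ∈ F ∧ M ≠ R ∧ insert b Q ⊆ M)
    (h3 : ∀ M ∈ X₃, M ∈ F ∧ M ≠ R ∧ insert c Q ⊆ M) :
    (X₁.card + 1) * (X₂.card + 1) * (X₃.card + 1) ≤ 6 * h ^ 2 * (opts Q X₁ X₂ X₃).card := by
  classical
  -- a point of `R` is not on a member through another point of `R`
  have key : ∀ x y : Fin n, x ∉ Q → y ∉ Q → x ≠ y → x ∈ R → y ∈ R → ∀ M ∈ F, M ≠ R →
      insert x Q ⊆ M → y ∉ M := by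
    intro x y hx hy hxy hxR hyR M hM hMR hxM hyM
    apply hMR
    refine eq_of_facet (X := insert y (insert x Q)) hF hM hR (Finset.insert_subset hyM hxM)
      (Finset.insert_subset hyR (Finset.insert_subset hxR hQR)) ?_
    rw [Finset.card_insert_of_notMem, Finset.card_insert_of_notMem hx, hQ]
    · omega
    · simp only [Finset.mem_insert, not_or]
      exact ⟨hxy.symm, hy⟩
  -- the exclusions
  have ex2 : ∀ o ∈ insertNone X₁, (X₂.filter (fun M => ¬ Cp Q o (some M))).card ≤ h := by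
    intro o ho
    cases o with
    | none => simp [cp_none_left]
    | some M₁ =>
      rw [Finset.some_mem_insertNone] at ho
      obtain ⟨e1, e2, e3⟩ := h1 M₁ ho
      refine le_trans (Finset.card_le_card ?_) (excl (b := b) hF hQ hb (hF' M₁ e1)
        (key a b ha hb hab haR hbR M₁ e1 e2 e3) (X := X₂) (fun M hM => (h2 M hM).1)
        (fun M hM => (h2 M hM).2.2))
      intro M hM
      obtain ⟨hM1, hM2⟩ := Finset.mem_filter.mp hM
      refine Finset.mem_filter.mpr ⟨hM1, fun hs => hM2 ?_⟩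
      intro N hN N' hN'
      simp only [Option.mem_def, Option.some.injEq] at hN hN'
      subst hN hN'
      exact hs
  have ex3 : ∀ o ∈ insertNone X₁, ∀ o' ∈ insertNone X₂,
      (X₃.filter (fun M => ¬ (Cp Q o (some M) ∧ Cp Q o' (some M)))).card ≤ 2 * h := by
    intro o ho o' ho'
    have a1 : (X₃.filter (fun M => ¬ Cp Q o (some M))).card ≤ h := by
      cases o with
      | none => simp [cp_none_left]
      | some M₁ =>
        rw [Finset.some_mem_insertNone] at ho
        obtain ⟨e1, e2, e3⟩ := h1 M₁ ho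
        refine le_trans (Finset.card_le_card ?_) (excl (b := c) hF hQ hc (hF' M₁ e1)
          (key a c ha hc hac haR hcR M₁ e1 e2 e3) (X := X₃) (fun M hM => (h3 M hM).1)
          (fun M hM => (h3 M hM).2.2))
        intro M hM
        obtain ⟨hM1, hM2⟩ := Finset.mem_filter.mp hM
        refine Finset.mem_filter.mpr ⟨hM1, fun hs => hM2 ?_⟩
        intro N hN N' hN'
        simp only [Option.mem_def, Option.some.injEq] at hN hN'
        subst hN hN'
        exact hs
    have a2 : (X₃.filter (fun M => ¬ Cp Q o' (some M))).card ≤ h := by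
      cases o' with
      | none => simp [cp_none_left]
      | some M₁ =>
        rw [Finset.some_mem_insertNone] at ho'
        obtain ⟨e1, e2, e3⟩ := h2 M₁ ho'
        refine le_trans (Finset.card_le_card ?_) (excl (b := c) hF hQ hc (hF' M₁ e1)
          (key b c hb hc hbc hbR hcR M₁ e1 e2 e3) (X := X₃) (fun M hM => (h3 M hM).1)
          (fun M hM => (h3 M hM).2.2))
        intro M hM
        obtain ⟨hM1, hM2⟩ := Finset.mem_filter.mp hM
        refine Finset.mem_filter.mpr ⟨hM1, fun hs => hM2 ?_⟩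
        intro N hN N' hN'
        simp only [Option.mem_def, Option.some.injEq] at hN hN'
        subst hN hN'
        exact hs
    have a3 : X₃.filter (fun M => ¬ (Cp Q o (some M) ∧ Cp Q o' (some M))) ⊆
        X₃.filter (fun M => ¬ Cp Q o (some M)) ∪ X₃.filter (fun M => ¬ Cp Q o' (some M)) := by
      intro M hM
      rw [Finset.mem_filter] at hM
      rw [Finset.mem_union, Finset.mem_filter, Finset.mem_filter]
      tauto
    have := le_trans (Finset.card_le_card a3) (Finset.card_union_le _ _)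
    omega
  -- the third choice
  have s3 : ∀ o ∈ insertNone X₁, ∀ o' ∈ insertNone X₂, X₃.card + 1 ≤
      (2 * h + 1) * ((insertNone X₃).filter fun o₃ => Cp Q o o₃ ∧ Cp Q o' o₃).card := by
    intro o ho o' ho'
    exact choices X₃ (fun o₃ => Cp Q o o₃ ∧ Cp Q o' o₃)
      ⟨cp_none_right _ _, cp_none_right _ _⟩ (ex3 o ho o' ho')
  have s2 : ∀ o ∈ insertNone X₁, X₂.card + 1 ≤
      (h + 1) * ((insertNone X₂).filter fun o₂ => Cp Q o o₂).card := by
    intro o ho
    exact choices X₂ (fun o₂ => Cp Q o o₂) (cp_none_right _ _) (ex2 o ho)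
  have s1 : ∀ o ∈ insertNone X₁, (X₂.card + 1) * (X₃.card + 1) ≤ 6 * h ^ 2 *
      (((insertNone X₂).filter fun o₂ => Cp Q o o₂).sigma fun o₂ =>
        (insertNone X₃).filter fun o₃ => Cp Q o o₃ ∧ Cp Q o₂ o₃).card := by
    intro o ho
    rw [Finset.card_sigma]
    set B := (insertNone X₂).filter fun o₂ => Cp Q o o₂ with hB
    have t1 : B.card * (X₃.card + 1) ≤
        (2 * h + 1) * ∑ o₂ ∈ B, ((insertNone X₃).filter fun o₃ => Cp Q o o₃ ∧ Cp Q o₂ o₃).card := by
      rw [Finset.mul_sum]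
      calc B.card * (X₃.card + 1) = ∑ _o₂ ∈ B, (X₃.card + 1) := by simp
        _ ≤ _ := Finset.sum_le_sum fun o₂ ho₂ => s3 o ho o₂ (Finset.mem_filter.mp ho₂).1
    have t2 := s2 o ho
    set S := ∑ o₂ ∈ B, ((insertNone X₃).filter fun o₃ => Cp Q o o₃ ∧ Cp Q o₂ o₃).card
    calc (X₂.card + 1) * (X₃.card + 1) ≤ ((h + 1) * B.card) * (X₃.card + 1) :=
          Nat.mul_le_mul_right _ t2
      _ = (h + 1) * (B.card * (X₃.card + 1)) := by ring
      _ ≤ (h + 1) * ((2 * h + 1) * S) := Nat.mul_le_mul_left _ t1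
      _ = ((h + 1) * (2 * h + 1)) * S := by ring
      _ ≤ (6 * h ^ 2) * S := by
          apply Nat.mul_le_mul_right
          nlinarith
  rw [opts, Finset.card_sigma, Finset.mul_sum]
  calc (X₁.card + 1) * (X₂.card + 1) * (X₃.card + 1)
      = ∑ _o ∈ insertNone X₁, (X₂.card + 1) * (X₃.card + 1) := by
        rw [Finset.sum_const, Finset.card_insertNone, smul_eq_mul, mul_assoc]
    _ ≤ _ := Finset.sum_le_sum fun o ho => s1 o ho

/-- the chosen members -/
def Os (o₁ o₂ o₃ : Option (Finset (Fin n))) : Finset (Finset (Fin n)) :=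
  o₁.toFinset ∪ o₂.toFinset ∪ o₃.toFinset

/-- the members which are removed -/
def Ds (R : Finset (Fin n)) (o₁ o₂ o₃ : Option (Finset (Fin n))) : Finset (Finset (Fin n)) :=
  insert R (Os o₁ o₂ o₃)

/-- the members which are added -/
def Is (R : Finset (Fin n)) (u : Fin n) (o₁ o₂ o₃ : Option (Finset (Fin n))) :
    Finset (Finset (Fin n)) :=
  insert (R.erase u) ((Os o₁ o₂ o₃).image (insert u))

/-- the new family -/
def Gs (F : Finset (Finset (Fin n))) (R : Finset (Fin n)) (u : Fin n)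
    (o₁ o₂ o₃ : Option (Finset (Fin n))) : Finset (Finset (Fin n)) :=
  (F \ Ds R o₁ o₂ o₃) ∪ Is R u o₁ o₂ o₃

/-- the situation -/
structure Sit (k : ℕ) (P : Finset (Finset (Fin n))) (e : Finset (Fin n)) (t : ℕ)
    (F : Finset (Finset (Fin n))) (i u a b c : Fin n) (R : Finset (Fin n))
    (o₁ o₂ o₃ : Option (Finset (Fin n))) : Prop where
  hF : F ∈ FT k P e t
  hQ : (e.erase i).card + 1 = k
  hi : i ∈ e
  hR : R ∈ F
  hRc : k + 3 ≤ R.card
  iR : i ∉ R
  QR : e.erase i ⊆ R
  uR : u ∈ R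
  aR : a ∈ R
  bR : b ∈ R
  cR : c ∈ R
  ue : u ∉ e
  ae : a ∉ e
  be : b ∉ e
  ce : c ∉ e
  ua : u ≠ a
  ub : u ≠ b
  uc : u ≠ c
  ab : a ≠ b
  ho : ∀ M ∈ Os o₁ o₂ o₃, M ∈ F ∧ M ≠ R ∧ e.erase i ⊆ M ∧ i ∉ M ∧ (insert u M).card < n ∧
    Free k P ((F.erase R).erase M) (insert u M)
  ho1 : ∀ M ∈ o₁, a ∈ M
  ho2 : ∀ M ∈ o₂, b ∈ M
  ho3 : ∀ M ∈ o₃, c ∈ M
  cp : ∀ M ∈ Os o₁ o₂ o₃, ∀ M' ∈ Os o₁ o₂ o₃, M ≠ M' → M ∩ M' ⊆ e.erase i

section

variable {P : Finset (Finset (Fin n))} {e : Finset (Fin n)} {t : ℕ} {F : Finset (Finset (Fin n))}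
  {i u a b c : Fin n} {R : Finset (Fin n)} {o₁ o₂ o₃ : Option (Finset (Fin n))}

theorem Sit.fam (h : Sit k P e t F i u a b c R o₁ o₂ o₃) : IsFam k F := (mem_FT.mp h.hF).1

theorem Sit.pt (h : Sit k P e t F i u a b c R o₁ o₂ o₃) {M : Finset (Fin n)}
    (hM : M ∈ Os o₁ o₂ o₃) : ∃ x, x ∈ M ∧ x ∈ R ∧ x ∉ e ∧ u ≠ x := by
  rw [Os, Finset.mem_union, Finset.mem_union, Option.mem_toFinset, Option.mem_toFinset,
    Option.mem_toFinset] at hM
  rcases hM with (hM | hM) | hM
  · exact ⟨a, h.ho1 M hM, h.aR, h.ae, h.ua⟩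
  · exact ⟨b, h.ho2 M hM, h.bR, h.be, h.ub⟩
  · exact ⟨c, h.ho3 M hM, h.cR, h.ce, h.uc⟩

theorem card_two_more (hQ : (e.erase i).card + 1 = k) {x y : Fin n} (hx : x ∉ e) (hy : y ∉ e)
    (hxy : x ≠ y) : (insert x (insert y (e.erase i))).card = k + 1 := by
  have hx' : x ∉ e.erase i := fun hh => hx (Finset.mem_of_mem_erase hh)
  have hy' : y ∉ e.erase i := fun hh => hy (Finset.mem_of_mem_erase hh)
  rw [Finset.card_insert_of_notMem, Finset.card_insert_of_notMem hy', hQ]
  simp only [Finset.mem_insert, not_or]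
  exact ⟨hxy, hx'⟩

theorem Sit.unot (h : Sit k P e t F i u a b c R o₁ o₂ o₃) {M : Finset (Fin n)}
    (hM : M ∈ Os o₁ o₂ o₃) : u ∉ M := by
  intro huM
  obtain ⟨x, hxM, hxR, hxe, hux⟩ := h.pt hM
  obtain ⟨h1, h2, h3, -⟩ := h.ho M hM
  apply h2
  refine eq_of_facet (X := insert u (insert x (e.erase i))) h.fam h1 h.hR
    (Finset.insert_subset huM (Finset.insert_subset hxM h3))
    (Finset.insert_subset h.uR (Finset.insert_subset hxR h.QR)) ?_
  rw [card_two_more h.hQ h.ue hxe hux]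
  omega

theorem Sit.mem (h : Sit k P e t F i u a b c R o₁ o₂ o₃) : Gs F R u o₁ o₂ o₃ ∈ FT k P e t := by
  have hfam := h.fam
  obtain ⟨-, hP, -, -⟩ := mem_FT.mp h.hF
  have hRu : R.erase u ∉ Os o₁ o₂ o₃ := by
    intro hh
    obtain ⟨h1, h2, -⟩ := h.ho _ hh
    exact h2 (hfam.2 |> fun hf => by
      by_contra hne
      have h3 := hf _ h1 _ h.hR hne
      have h4 : R.erase u ∩ R = R.erase u := Finset.inter_eq_left.mpr (Finset.erase_subset _ _)
      rw [h4, Finset.card_erase_of_mem h.uR] at h3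
      have := h.hRc
      omega)
  apply replace_FT h.hF
  · intro H hH he
    rw [Ds, Finset.mem_insert] at hH
    rcases hH with rfl | hH
    · exact h.iR (he h.hi)
    · exact (h.ho H hH).2.2.2.1 (he h.hi)
  · intro H hH
    rw [Is, Finset.mem_insert] at hH
    rcases hH with rfl | hH
    · refine ⟨fun he => h.iR (Finset.mem_of_mem_erase (he h.hi)), ?_, ?_, ?_, ?_, ?_⟩
      · rw [Finset.card_erase_of_mem h.uR]
        have := h.hRc
        omega
      · exact lt_of_le_of_lt (Finset.card_le_card (Finset.erase_subset _ _)) (hfam.1 R h.hR).2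
      · exact fun f hf hs => hP f hf ⟨R, h.hR, hs.trans (Finset.erase_subset _ _)⟩
      · intro K hK _
        obtain ⟨hK1, hK2⟩ := Finset.mem_sdiff.mp hK
        have hKR : K ≠ R := by
          rintro rfl
          exact hK2 (Finset.mem_insert_self _ _)
        exact le_trans (Finset.card_le_card
          (Finset.inter_subset_inter_left (Finset.erase_subset _ _))) (hfam.2 K hK1 R h.hR hKR)
      · intro K hK hne
        rw [Is, Finset.mem_insert] at hK
        rcases hK with rfl | hK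
        · exact absurd rfl hne
        · obtain ⟨M, hM, rfl⟩ := Finset.mem_image.mp hK
          obtain ⟨h1, h2, -⟩ := h.ho M hM
          refine le_trans (Finset.card_le_card ?_) (hfam.2 M h1 R h.hR h2)
          intro x hx
          obtain ⟨hx1, hx2⟩ := Finset.mem_inter.mp hx
          obtain ⟨hx3, hx4⟩ := Finset.mem_erase.mp hx2
          rcases Finset.mem_insert.mp hx1 with rfl | hx1
          · exact absurd rfl hx3
          · exact Finset.mem_inter.mpr ⟨hx1, hx4⟩
    · obtain ⟨M, hM, rfl⟩ := Finset.mem_image.mp hH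
      obtain ⟨h1, h2, h3, h4, h5, h6, h7⟩ := h.ho M hM
      refine ⟨fun he => ?_, ?_, h5, h6, ?_, ?_⟩
      · rcases Finset.mem_insert.mp (he h.hi) with hh | hh
        · exact h.ue (hh ▸ h.hi)
        · exact h4 hh
      · exact le_trans (hfam.1 M h1).1 (Finset.card_le_card (Finset.subset_insert _ _))
      · intro K hK _
        obtain ⟨hK1, hK2⟩ := Finset.mem_sdiff.mp hK
        refine h7 K (Finset.mem_erase.mpr ⟨?_, Finset.mem_erase.mpr ⟨?_, hK1⟩⟩)
        · rintro rfl
          exact hK2 (Finset.mem_insert_of_mem hM)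
        · rintro rfl
          exact hK2 (Finset.mem_insert_self _ _)
      · intro K hK hne
        rw [Is, Finset.mem_insert] at hK
        rcases hK with rfl | hK
        · refine le_trans (Finset.card_le_card ?_) (hfam.2 M h1 R h.hR h2)
          intro x hx
          obtain ⟨hx1, hx2⟩ := Finset.mem_inter.mp hx
          obtain ⟨hx3, hx4⟩ := Finset.mem_erase.mp hx1
          rcases Finset.mem_insert.mp hx2 with rfl | hx2
          · exact absurd rfl hx3
          · exact Finset.mem_inter.mpr ⟨hx2, hx4⟩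
        · obtain ⟨M', hM', rfl⟩ := Finset.mem_image.mp hK
          have hne' : M' ≠ M := by
            rintro rfl
            exact hne rfl
          have hs : insert u M' ∩ insert u M ⊆ insert u (e.erase i) := by
            intro x hx
            obtain ⟨hx1, hx2⟩ := Finset.mem_inter.mp hx
            rcases Finset.mem_insert.mp hx1 with rfl | hx1
            · exact Finset.mem_insert_self _ _
            rcases Finset.mem_insert.mp hx2 with rfl | hx2
            · exact Finset.mem_insert_self _ _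
            exact Finset.mem_insert_of_mem (h.cp M' hM' M hM hne'
              (Finset.mem_inter.mpr ⟨hx1, hx2⟩))
          refine le_trans (Finset.card_le_card hs) (le_trans (Finset.card_insert_le _ _) ?_)
          rw [h.hQ]

theorem Sit.mbR (h : Sit k P e t F i u a b c R o₁ o₂ o₃) :
    mb (Gs F R u o₁ o₂ o₃) (insert a (insert b (e.erase i))) = R.erase u := by
  refine mb_eq (mem_FT.mp h.mem).1 ?_ ?_ ?_
  · exact Finset.mem_union_right _ (Finset.mem_insert_self _ _)
  · refine Finset.insert_subset (Finset.mem_erase.mpr ⟨h.ua.symm, h.aR⟩) (Finset.insert_subset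
      (Finset.mem_erase.mpr ⟨h.ub.symm, h.bR⟩) fun x hx => Finset.mem_erase.mpr ⟨?_, h.QR hx⟩)
    rintro rfl
    exact h.ue (Finset.mem_of_mem_erase hx)
  · rw [card_two_more h.hQ h.ae h.be h.ab]
    omega

theorem Sit.mbM (h : Sit k P e t F i u a b c R o₁ o₂ o₃) {M : Finset (Fin n)}
    (hM : M ∈ Os o₁ o₂ o₃) {x : Fin n} (hx : x ∈ M) (hxe : x ∉ e) (hux : u ≠ x) :
    (mb (Gs F R u o₁ o₂ o₃) (insert u (insert x (e.erase i)))).erase u = M := by
  have h1 : mb (Gs F R u o₁ o₂ o₃) (insert u (insert x (e.erase i))) = insert u M := by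
    refine mb_eq (mem_FT.mp h.mem).1 ?_ ?_ ?_
    · exact Finset.mem_union_right _ (Finset.mem_insert_of_mem (Finset.mem_image_of_mem _ hM))
    · exact Finset.insert_subset_insert _ (Finset.insert_subset hx (h.ho M hM).2.2.1)
    · rw [card_two_more h.hQ h.ue hxe hux]
      omega
  rw [h1, Finset.erase_insert (h.unot hM)]

/-- the member through a set, as a choice -/
noncomputable def rec' (e : Finset (Fin n)) (i u : Fin n) (G : Finset (Finset (Fin n)))
    (x : Fin n) (s : Bool) : Option (Finset (Fin n)) :=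
  if s then some ((mb G (insert u (insert x (e.erase i)))).erase u) else none

theorem Sit.rec1 (h : Sit k P e t F i u a b c R o₁ o₂ o₃) :
    rec' e i u (Gs F R u o₁ o₂ o₃) a o₁.isSome = o₁ := by
  cases hh : o₁ with
  | none => simp [rec']
  | some M =>
    have hM : M ∈ Os o₁ o₂ o₃ := by
      rw [Os, Finset.mem_union, Finset.mem_union, Option.mem_toFinset]
      exact Or.inl (Or.inl (by simp [hh]))
    have := h.mbM hM (h.ho1 M (by simp [hh])) h.ae h.ua
    rw [hh] at this
    simp [rec', this]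

theorem Sit.rec2 (h : Sit k P e t F i u a b c R o₁ o₂ o₃) :
    rec' e i u (Gs F R u o₁ o₂ o₃) b o₂.isSome = o₂ := by
  cases hh : o₂ with
  | none => simp [rec']
  | some M =>
    have hM : M ∈ Os o₁ o₂ o₃ := by
      rw [Os, Finset.mem_union, Finset.mem_union, Option.mem_toFinset, Option.mem_toFinset]
      exact Or.inl (Or.inr (by simp [hh]))
    have := h.mbM hM (h.ho2 M (by simp [hh])) h.be h.ub
    rw [hh] at this
    simp [rec', this]

theorem Sit.rec3 (h : Sit k P e t F i u a b c R o₁ o₂ o₃) :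
    rec' e i u (Gs F R u o₁ o₂ o₃) c o₃.isSome = o₃ := by
  cases hh : o₃ with
  | none => simp [rec']
  | some M =>
    have hM : M ∈ Os o₁ o₂ o₃ := by
      rw [Os, Finset.mem_union, Finset.mem_union, Option.mem_toFinset, Option.mem_toFinset,
        Option.mem_toFinset]
      exact Or.inr (by simp [hh])
    have := h.mbM hM (h.ho3 M (by simp [hh])) h.ce h.uc
    rw [hh] at this
    simp [rec', this]

theorem Sit.back (h : Sit k P e t F i u a b c R o₁ o₂ o₃) :
    (Gs F R u o₁ o₂ o₃ \ Is R u o₁ o₂ o₃) ∪ Ds R o₁ o₂ o₃ = F := by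
  have hfam := h.fam
  have hdis : ∀ K ∈ Is R u o₁ o₂ o₃, K ∉ F := by
    intro K hK hKF
    rw [Is, Finset.mem_insert] at hK
    rcases hK with rfl | hK
    · have hne : R.erase u ≠ R := fun hh => by
        have := hh ▸ h.uR
        exact (Finset.mem_erase.mp this).1 rfl
      have h3 := hfam.2 _ hKF _ h.hR hne
      have h4 : R.erase u ∩ R = R.erase u := Finset.inter_eq_left.mpr (Finset.erase_subset _ _)
      rw [h4, Finset.card_erase_of_mem h.uR] at h3
      have := h.hRc
      omega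
    · obtain ⟨M, hM, rfl⟩ := Finset.mem_image.mp hK
      obtain ⟨h1, -⟩ := h.ho M hM
      have hne : insert u M ≠ M := fun hh => h.unot hM (hh ▸ Finset.mem_insert_self u M)
      have h3 := hfam.2 _ hKF _ h1 hne
      have h4 : insert u M ∩ M = M := Finset.inter_eq_right.mpr (Finset.subset_insert _ _)
      rw [h4] at h3
      have := (hfam.1 M h1).1
      omega
  have hDF : Ds R o₁ o₂ o₃ ⊆ F := by
    intro K hK
    rw [Ds, Finset.mem_insert] at hK
    rcases hK with rfl | hK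
    · exact h.hR
    · exact (h.ho K hK).1
  ext K
  rw [Gs, Finset.mem_union, Finset.mem_sdiff, Finset.mem_union, Finset.mem_sdiff]
  constructor
  · rintro (⟨(⟨h1, -⟩ | h1), h2⟩ | h1)
    · exact h1
    · exact absurd h1 h2
    · exact hDF h1
  · intro hK
    by_cases hD : K ∈ Ds R o₁ o₂ o₃
    · exact Or.inr hD
    · exact Or.inl ⟨Or.inl ⟨hK, hD⟩, fun hI => hdis K hI hK⟩

/-- the map of the switching -/
noncomputable def phi (e : Finset (Fin n)) (i : Fin n)
    (z : Σ _ : Finset (Finset (Fin n)), Σ _ : Fin n × Fin n × Fin n × Fin n, Opt3 n) :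
    Σ _ : Finset (Finset (Fin n)), Σ _ : Fin n × Fin n × Fin n, Fin n × Bool × Bool × Bool :=
  ⟨Gs z.1 (mb z.1 (tr e i z.2.1.1 z.2.1.2.1)) z.2.1.1 z.2.2.1 z.2.2.2.1 z.2.2.2.2,
    ⟨(z.2.1.1, z.2.1.2.1, z.2.1.2.2.1),
      (z.2.1.2.2.2, z.2.2.1.isSome, z.2.2.2.1.isSome, z.2.2.2.2.isSome)⟩⟩

/-- its inverse -/
noncomputable def psi (e : Finset (Fin n)) (i : Fin n)
    (y : Σ _ : Finset (Finset (Fin n)), Σ _ : Fin n × Fin n × Fin n, Fin n × Bool × Bool × Bool) :
    Σ _ : Finset (Finset (Fin n)), Σ _ : Fin n × Fin n × Fin n × Fin n, Opt3 n :=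
  ⟨(y.1 \ Is (insert y.2.1.1 (mb y.1 (insert y.2.1.2.1 (insert y.2.1.2.2 (e.erase i))))) y.2.1.1
      (rec' e i y.2.1.1 y.1 y.2.1.2.1 y.2.2.2.1) (rec' e i y.2.1.1 y.1 y.2.1.2.2 y.2.2.2.2.1)
      (rec' e i y.2.1.1 y.1 y.2.2.1 y.2.2.2.2.2)) ∪
    Ds (insert y.2.1.1 (mb y.1 (insert y.2.1.2.1 (insert y.2.1.2.2 (e.erase i)))))
      (rec' e i y.2.1.1 y.1 y.2.1.2.1 y.2.2.2.1) (rec' e i y.2.1.1 y.1 y.2.1.2.2 y.2.2.2.2.1)
      (rec' e i y.2.1.1 y.1 y.2.2.1 y.2.2.2.2.2),
    ⟨(y.2.1.1, y.2.1.2.1, y.2.1.2.2, y.2.2.1),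
      ⟨rec' e i y.2.1.1 y.1 y.2.1.2.1 y.2.2.2.1,
        ⟨rec' e i y.2.1.1 y.1 y.2.1.2.2 y.2.2.2.2.1,
          rec' e i y.2.1.1 y.1 y.2.2.1 y.2.2.2.2.2⟩⟩⟩⟩

theorem psi_phi {o₁ o₂ o₃ : Option (Finset (Fin n))}
    (h : Sit k P e t F i u a b c (mb F (tr e i u a)) o₁ o₂ o₃) :
    psi e i (phi e i ⟨F, ⟨(u, a, b, c), ⟨o₁, ⟨o₂, o₃⟩⟩⟩⟩) =
      ⟨F, ⟨(u, a, b, c), ⟨o₁, ⟨o₂, o₃⟩⟩⟩⟩ := by
  have e1 : insert u (mb (Gs F (mb F (tr e i u a)) u o₁ o₂ o₃)
      (insert a (insert b (e.erase i)))) = mb F (tr e i u a) := by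
    rw [h.mbR, Finset.insert_erase h.uR]
  simp only [psi, phi]
  rw [e1, h.rec1, h.rec2, h.rec3, h.back]

/-- the set itself, if it is small -/
def small (h : ℕ) (S : Finset (Fin n)) : Finset (Fin n) := if S.card ≤ h then S else ∅

theorem small_card (h : ℕ) (S : Finset (Fin n)) : (small h S).card ≤ h := by
  rw [small]
  split_ifs with hc
  · exact hc
  · simp

theorem mem_small {h : ℕ} {S : Finset (Fin n)} {x : Fin n} (hx : x ∈ S) (hS : S.card ≤ h) :
    x ∈ small h S := by
  rw [small, if_pos hS]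
  exact hx

/-- the targets -/
noncomputable def tgt (k : ℕ) (P : Finset (Finset (Fin n))) (e : Finset (Fin n)) (t : ℕ)
    (i : Fin n) (h : ℕ) :
    Finset (Σ _ : Finset (Finset (Fin n)), Σ _ : Fin n × Fin n × Fin n,
      Fin n × Bool × Bool × Bool) :=
  (FT k P e t).sigma fun G => (univ : Finset (Fin n × Fin n × Fin n)).sigma fun q =>
    small h (mb G (insert q.2.1 (insert q.2.2 (e.erase i)))) ×ˢ
      (univ : Finset (Bool × Bool × Bool))

theorem tgt_card (k : ℕ) (P : Finset (Finset (Fin n))) (e : Finset (Fin n)) (t : ℕ)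
    (i : Fin n) (h : ℕ) : (tgt k P e t i h).card ≤ 8 * h * n ^ 3 * (FT k P e t).card := by
  classical
  rw [tgt, Finset.card_sigma]
  calc _ ≤ ∑ _G ∈ FT k P e t, 8 * h * n ^ 3 := by
        refine Finset.sum_le_sum fun G _ => ?_
        rw [Finset.card_sigma]
        calc _ ≤ ∑ _q : Fin n × Fin n × Fin n, 8 * h := by
              refine Finset.sum_le_sum fun q _ => ?_
              rw [Finset.card_product]
              have h8 : (univ : Finset (Bool × Bool × Bool)).card = 8 := by decide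
              rw [h8]
              have := small_card h (mb G (insert q.2.1 (insert q.2.2 (e.erase i))))
              omega
          _ = 8 * h * n ^ 3 := by
              rw [Finset.sum_const, Finset.card_univ, Fintype.card_prod, Fintype.card_prod,
                Fintype.card_fin, smul_eq_mul]
              ring
    _ = 8 * h * n ^ 3 * (FT k P e t).card := by
        rw [Finset.sum_const, smul_eq_mul]
        ring

end

end KDx

theorem sum_bad4 (P : Finset (Finset (Fin n))) (e : Finset (Fin n)) (t g h : ℕ) (hk : 1 ≤ k)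
    (hh : 1 ≤ h) (he : e.card = k) {i : Fin n} (hi : i ∈ e) :
    g * ∑ F ∈ (FT k P e t).filter (fun F => ∀ H ∈ F, H.card ≤ h), (bad4 k P e F i g).card ≤
      48 * h ^ 3 * n ^ 3 * (FT k P e t).card := by
  classical
  have hQ : (e.erase i).card + 1 = k := by
    rw [Finset.card_erase_of_mem hi, he]
    omega
  -- the choices for a quadruple
  let O : Finset (Finset (Fin n)) → Fin n × Fin n × Fin n × Fin n → Finset (KDx.Opt3 n) :=
    fun F p => KDx.opts (e.erase i) (xset k P e F i p.1 p.2.1 (mb F (tr e i p.1 p.2.1)))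
      (xset k P e F i p.1 p.2.2.1 (mb F (tr e i p.1 p.2.1)))
      (xset k P e F i p.1 p.2.2.2 (mb F (tr e i p.1 p.2.1)))
  let Z : Finset (Σ _ : Finset (Finset (Fin n)), Σ _ : Fin n × Fin n × Fin n × Fin n,
      KDx.Opt3 n) :=
    ((FT k P e t).filter (fun F => ∀ H ∈ F, H.card ≤ h)).sigma fun F =>
      (bad4 k P e F i g).sigma fun p => O F p
  -- the member through the four points
  have hmem : ∀ F ∈ FT k P e t, ∀ u a b c : Fin n, (u, a, b, c) ∈ bad4 k P e F i g →
      mb F (tr e i u a) ∈ F ∧ k + 3 ≤ (mb F (tr e i u a)).card ∧ i ∉ mb F (tr e i u a) ∧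
        e.erase i ⊆ mb F (tr e i u a) ∧ u ∈ mb F (tr e i u a) ∧ a ∈ mb F (tr e i u a) ∧
        b ∈ mb F (tr e i u a) ∧ c ∈ mb F (tr e i u a) ∧
        g ≤ ((xset k P e F i u a (mb F (tr e i u a))).card + 1) *
          ((xset k P e F i u b (mb F (tr e i u a))).card + 1) *
          ((xset k P e F i u c (mb F (tr e i u a))).card + 1) := by
    intro F hF u a b c hp
    rw [bad4, Finset.mem_filter] at hp
    obtain ⟨-, hua, hub, huc, hab, hac, hbc, hu, ha, hb, hc, R, hR, hRc, hiR, hQR, huR, haR,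
      hbR, hcR, hg⟩ := hp
    simp only at hua hub huc hab hac hbc hu ha hb hc huR haR hbR hcR hg
    have hmb : mb F (tr e i u a) = R := by
      refine mb_eq (mem_FT.mp hF).1 hR ?_ ?_
      · exact Finset.insert_subset huR (Finset.insert_subset haR hQR)
      · rw [tr, KDx.card_two_more hQ hu ha hua]
        omega
    rw [hmb]
    exact ⟨hR, hRc, hiR, hQR, huR, haR, hbR, hcR, hg⟩
  have hlow : g * ∑ F ∈ (FT k P e t).filter (fun F => ∀ H ∈ F, H.card ≤ h),
      (bad4 k P e F i g).card ≤ 6 * h ^ 2 * Z.card := by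
    have hZ : Z.card = ∑ F ∈ (FT k P e t).filter (fun F => ∀ H ∈ F, H.card ≤ h),
        ∑ p ∈ bad4 k P e F i g, (O F p).card := by
      rw [Finset.card_sigma]
      exact Finset.sum_congr rfl fun F _ => Finset.card_sigma _ _
    rw [hZ, Finset.mul_sum, Finset.mul_sum]
    refine Finset.sum_le_sum fun F hF => ?_
    obtain ⟨hF1, hF2⟩ := Finset.mem_filter.mp hF
    rw [Finset.mul_sum]
    calc g * (bad4 k P e F i g).card = ∑ _p ∈ bad4 k P e F i g, g := by
          rw [Finset.sum_const, smul_eq_mul, mul_comm]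
      _ ≤ _ := by
          refine Finset.sum_le_sum fun p hp => ?_
          obtain ⟨u, a, b, c⟩ := p
          obtain ⟨hR, hRc, hiR, hQR, huR, haR, hbR, hcR, hg⟩ := hmem F hF1 u a b c hp
          rw [bad4, Finset.mem_filter] at hp
          obtain ⟨-, hua, hub, huc, hab, hac, hbc, hu, ha, hb, hc, -⟩ := hp
          simp only at hua hub huc hab hac hbc hu ha hb hc
          have hx : ∀ x, ∀ M ∈ xset k P e F i u x (mb F (tr e i u a)),
              M ∈ F ∧ M ≠ mb F (tr e i u a) ∧ insert x (e.erase i) ⊆ M := by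
            intro x M hM
            rw [xset, Finset.mem_filter] at hM
            exact ⟨hM.1, hM.2.1, hM.2.2.1⟩
          have hq : ∀ x, x ∉ e → x ∉ e.erase i := fun x hx hh => hx (Finset.mem_of_mem_erase hh)
          exact le_trans hg (KDx.opts_card (mem_FT.mp hF1).1 hh hQ (hq a ha) (hq b hb) (hq c hc)
            hab hac hbc hR hQR haR hbR hcR hF2 (hx a) (hx b) (hx c))
  have hup : Z.card ≤ 8 * h * n ^ 3 * (FT k P e t).card := by
    refine le_trans ?_ (KDx.tgt_card k P e t i h)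
    have hsit : ∀ F u a b c o₁ o₂ o₃, (⟨F, ⟨(u, a, b, c), ⟨o₁, ⟨o₂, o₃⟩⟩⟩⟩ :
        Σ _ : Finset (Finset (Fin n)), Σ _ : Fin n × Fin n × Fin n × Fin n, KDx.Opt3 n) ∈ Z →
        KDx.Sit k P e t F i u a b c (mb F (tr e i u a)) o₁ o₂ o₃ ∧ (∀ H ∈ F, H.card ≤ h) := by
      intro F u a b c o₁ o₂ o₃ hz
      obtain ⟨hz1, hz2⟩ := Finset.mem_sigma.mp hz
      obtain ⟨hp, hz3⟩ := Finset.mem_sigma.mp hz2
      simp only at hz1 hp hz3
      obtain ⟨hF1, hF2⟩ := Finset.mem_filter.mp hz1
      obtain ⟨hR, hRc, hiR, hQR, huR, haR, hbR, hcR, hg⟩ := hmem F hF1 u a b c hp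
      rw [bad4, Finset.mem_filter] at hp
      obtain ⟨-, hua, hub, huc, hab, hac, hbc, hu, ha, hb, hc, -⟩ := hp
      simp only at hua hub huc hab hac hbc hu ha hb hc
      obtain ⟨ho1, ho2, ho3, c12, c13, c23⟩ := KDx.mem_opts.mp hz3
      simp only at ho1 ho2 ho3
      have hx : ∀ x, ∀ M, M ∈ xset k P e F i u x (mb F (tr e i u a)) →
          (M ∈ F ∧ M ≠ mb F (tr e i u a) ∧ e.erase i ⊆ M ∧ i ∉ M ∧ (insert u M).card < n ∧
            Free k P ((F.erase (mb F (tr e i u a))).erase M) (insert u M)) ∧ x ∈ M := by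
        intro x M hM
        rw [xset, Finset.mem_filter] at hM
        obtain ⟨x1, x2, x3, x4, x5, x6⟩ := hM
        exact ⟨⟨x1, x2, (Finset.insert_subset_iff.mp x3).2, x4, x5, x6⟩,
          (Finset.insert_subset_iff.mp x3).1⟩
      have k1 : ∀ M ∈ o₁, M ∈ xset k P e F i u a (mb F (tr e i u a)) := fun M hM =>
        Finset.mem_insertNone.mp ho1 M hM
      have k2 : ∀ M ∈ o₂, M ∈ xset k P e F i u b (mb F (tr e i u a)) := fun M hM =>
        Finset.mem_insertNone.mp ho2 M hM
      have k3 : ∀ M ∈ o₃, M ∈ xset k P e F i u c (mb F (tr e i u a)) := fun M hM =>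
        Finset.mem_insertNone.mp ho3 M hM
      refine ⟨⟨hF1, hQ, hi, hR, hRc, hiR, hQR, huR, haR, hbR, hcR, hu, ha, hb, hc, hua, hub,
        huc, hab, ?_, fun M hM => (hx a M (k1 M hM)).2, fun M hM => (hx b M (k2 M hM)).2,
        fun M hM => (hx c M (k3 M hM)).2, ?_⟩, hF2⟩
      · intro M hM
        rw [KDx.Os, Finset.mem_union, Finset.mem_union, Option.mem_toFinset, Option.mem_toFinset,
          Option.mem_toFinset] at hM
        rcases hM with (hM | hM) | hM
        · exact (hx a M (k1 M hM)).1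
        · exact (hx b M (k2 M hM)).1
        · exact (hx c M (k3 M hM)).1
      · intro M hM M' hM' hne
        rw [KDx.Os, Finset.mem_union, Finset.mem_union, Option.mem_toFinset, Option.mem_toFinset,
          Option.mem_toFinset] at hM hM'
        have sub : ∀ (o : Option (Finset (Fin n))) {M M' : Finset (Fin n)}, M ∈ o → M' ∈ o →
            M = M' := by
          intro o M M' h1 h2
          exact Option.mem_unique h1 h2
        rcases hM with (hM | hM) | hM <;> rcases hM' with (hM' | hM') | hM'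
        · exact absurd (sub _ hM hM') hne
        · exact c12 M hM M' hM'
        · exact c13 M hM M' hM'
        · rw [Finset.inter_comm]; exact c12 M' hM' M hM
        · exact absurd (sub _ hM hM') hne
        · exact c23 M hM M' hM'
        · rw [Finset.inter_comm]; exact c13 M' hM' M hM
        · rw [Finset.inter_comm]; exact c23 M' hM' M hM
        · exact absurd (sub _ hM hM') hne
    refine Finset.card_le_card_of_injOn (KDx.phi e i) ?_ ?_
    · rintro ⟨F, ⟨⟨u, a, b, c⟩, ⟨o₁, ⟨o₂, o₃⟩⟩⟩⟩ hz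
      obtain ⟨hs, hF2⟩ := hsit F u a b c o₁ o₂ o₃ hz
      rw [Finset.mem_coe, KDx.tgt, Finset.mem_sigma, Finset.mem_sigma]
      refine ⟨hs.mem, Finset.mem_univ _, ?_⟩
      refine Finset.mem_product.mpr ⟨KDx.mem_small ?_ ?_, Finset.mem_univ _⟩
      · simp only [KDx.phi]
        rw [hs.mbR]
        exact Finset.mem_erase.mpr ⟨hs.uc.symm, hs.cR⟩
      · simp only [KDx.phi]
        rw [hs.mbR]
        exact le_trans (Finset.card_le_card (Finset.erase_subset _ _)) (hF2 _ hs.hR)
    · refine Set.LeftInvOn.injOn (f₁' := KDx.psi e i) ?_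
      rintro ⟨F, ⟨⟨u, a, b, c⟩, ⟨o₁, ⟨o₂, o₃⟩⟩⟩⟩ hz
      obtain ⟨hs, -⟩ := hsit F u a b c o₁ o₂ o₃ hz
      exact KDx.psi_phi hs
  calc _ ≤ 6 * h ^ 2 * Z.card := hlow
    _ ≤ 6 * h ^ 2 * (8 * h * n ^ 3 * (FT k P e t).card) := Nat.mul_le_mul_left _ hup
    _ = 48 * h ^ 3 * n ^ 3 * (FT k P e t).card := by ring

end Pool.Agent.RKP
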