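import Pool.Agent.RKP.KA

/-!
MP_039b14_co, ranks four to seven: a new member through `e`.
-/

set_option autoImplicit false

namespace Pool.Agent.RKP

open Finset

namespace KE78

variable {n k : ℕ}

/-- the pair `(u, v)` may be joined to `e` in `F` (the price is not looked at) -/
structure Gd (k : ℕ) (P : Finset (Finset (Fin n))) (e : Finset (Fin n)) (t : ℕ)
    (F : Finset (Finset (Fin n))) (u v : Fin n) : Prop where
  hF : F ∈ FT k P e t
  he : e.card = k
  huv : u ≠ v
  hu : u ∉ e
  hv : v ∉ e
  hcu : ¬ Cov F (insert u e)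
  hcv : ¬ Cov F (insert v e)
  hP : ∀ f ∈ P, ¬ f ⊆ insert u (insert v e)

open Classical in
/-- the member which contains `tr e i u v` -/
noncomputable def rr (e : Finset (Fin n)) (F : Finset (Finset (Fin n))) (u v i : Fin n) :
    Finset (Fin n) :=
  if i ∈ e ∧ Cov F (tr e i u v) then mb F (tr e i u v) else ∅

open Classical in
/-- the status of `i` -/
noncomputable def stt (k : ℕ) (e : Finset (Fin n)) (F : Finset (Finset (Fin n)))
    (u v i : Fin n) : Fin 3 :=
  if i ∈ e ∧ Cov F (tr e i u v) then (if (mb F (tr e i u v)).card = k + 2 then 1 else 2) else 0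

/-- the family before the new member is put in -/
noncomputable def f1 (k : ℕ) (e : Finset (Fin n)) (F : Finset (Finset (Fin n))) (u v : Fin n) :
    Finset (Finset (Fin n)) :=
  (F \ e.image (rr e F u v)) ∪
    (e.filter (fun i => stt k e F u v i = 2)).image (fun i => (rr e F u v i).erase u)

variable {P : Finset (Finset (Fin n))} {e : Finset (Fin n)} {t : ℕ}
  {F : Finset (Finset (Fin n))} {u v i j : Fin n}

theorem stt_zero (h : stt k e F u v i = 0) : rr e F u v i = ∅ := by
  unfold stt at h
  unfold rr
  split_ifs at h ⊢ with h1 h2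
  · exact absurd h (by decide)
  · exact absurd h (by decide)
  · rfl

theorem stt_ne {h : stt k e F u v i ≠ 0} : i ∈ e ∧ Cov F (tr e i u v) ∧
    rr e F u v i = mb F (tr e i u v) := by
  unfold stt at h
  unfold rr
  split_ifs at h ⊢ with h1 h2
  · exact ⟨h1.1, h1.2, rfl⟩
  · exact ⟨h1.1, h1.2, rfl⟩
  · exact absurd rfl h

theorem mem_tr (hj : j ∈ e) (hji : j ≠ i) : j ∈ tr e i u v := by
  unfold tr
  exact mem_insert_of_mem (mem_insert_of_mem (mem_erase.2 ⟨hji, hj⟩))

theorem u_mem_tr : u ∈ tr e i u v := by
  unfold tr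
  exact mem_insert_self _ _

theorem v_mem_tr : v ∈ tr e i u v := by
  unfold tr
  exact mem_insert_of_mem (mem_insert_self _ _)

theorem stt_mem (G : Gd k P e t F u v) (h : stt k e F u v i ≠ 0) :
    rr e F u v i ∈ F ∧ tr e i u v ⊆ rr e F u v i ∧ i ∉ rr e F u v i := by
  obtain ⟨h1, h2, h3⟩ := stt_ne (h := h)
  obtain ⟨h4, h5⟩ := mb_mem h2
  rw [h3]
  refine ⟨h4, h5, fun h6 => G.hcu ⟨_, h4, ?_⟩⟩
  intro x hx
  rcases mem_insert.1 hx with h7 | h7
  · rw [h7]
    exact h5 u_mem_tr
  · by_cases h8 : x = i
    · rw [h8]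
      exact h6
    · exact h5 (mem_tr h7 h8)

theorem stt_one (h : stt k e F u v i = 1) : (rr e F u v i).card = k + 2 := by
  unfold stt at h
  unfold rr
  split_ifs at h ⊢ with h1 h2
  · exact h2
  · exact absurd h (by decide)
  · exact absurd h (by decide)

theorem stt_two (G : Gd k P e t F u v) (h : stt k e F u v i = 2) :
    k + 3 ≤ (rr e F u v i).card := by
  have h0 : stt k e F u v i ≠ 0 := by
    rw [h]
    decide
  have h1 := (stt_mem G h0).1
  have h2 : (rr e F u v i).card ≠ k + 2 := by
    unfold stt at h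
    unfold rr
    split_ifs at h ⊢ with h1 h2
    · exact absurd h (by decide)
    · exact h2
    · exact absurd h (by decide)
  have h3 := ((mem_FT.1 G.hF).1.1 _ h1).1
  omega

theorem rr_ne (G : Gd k P e t F u v) (hi : stt k e F u v i ≠ 0) (hj : stt k e F u v j ≠ 0)
    (hij : i ≠ j) : rr e F u v i ≠ rr e F u v j := by
  intro h
  have h1 := (stt_mem G hi).2.1 (mem_tr (stt_ne (h := hj)).1 hij.symm)
  rw [h] at h1
  exact (stt_mem G hj).2.2 h1

theorem mem_f1 {K : Finset (Fin n)} : K ∈ f1 k e F u v ↔
    (K ∈ F ∧ ∀ i ∈ e, rr e F u v i ≠ K) ∨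
      ∃ i ∈ e, stt k e F u v i = 2 ∧ (rr e F u v i).erase u = K := by
  unfold f1
  rw [mem_union, mem_sdiff, mem_image, mem_image]
  constructor
  · rintro (⟨h1, h2⟩ | ⟨i, h1, h2⟩)
    · exact Or.inl ⟨h1, fun i hi h => h2 ⟨i, hi, h⟩⟩
    · rw [mem_filter] at h1
      exact Or.inr ⟨i, h1.1, h1.2, h2⟩
  · rintro (⟨h1, h2⟩ | ⟨i, h1, h2, h3⟩)
    · exact Or.inl ⟨h1, fun ⟨i, hi, h⟩ => h2 i hi h⟩
    · exact Or.inr ⟨i, mem_filter.2 ⟨h1, h2⟩, h3⟩

theorem two_ne (h : stt k e F u v i = 2) : stt k e F u v i ≠ 0 := by
  rw [h]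
  decide

theorem one_ne (h : stt k e F u v i = 1) : stt k e F u v i ≠ 0 := by
  rw [h]
  decide

/-- every member of the new family is contained in a member of the old one -/
theorem f1_sup (G : Gd k P e t F u v) {K : Finset (Fin n)} (hK : K ∈ f1 k e F u v) :
    ∃ K' ∈ F, K ⊆ K' := by
  rcases mem_f1.1 hK with h | ⟨i, h1, h2, h3⟩
  · exact ⟨K, h.1, Subset.refl _⟩
  · exact ⟨_, (stt_mem G (two_ne h2)).1, h3 ▸ erase_subset _ _⟩

theorem card_inter_le_of_subset {A A' B B' : Finset (Fin n)} (hA : A ⊆ A') (hB : B ⊆ B') {m : ℕ}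
    (h : (A' ∩ B').card ≤ m) : (A ∩ B).card ≤ m :=
  le_trans (card_le_card (inter_subset_inter hA hB)) h

/-- two members of the new family -/
theorem f1_pair (G : Gd k P e t F u v) {H K : Finset (Fin n)} (hH : H ∈ f1 k e F u v)
    (hK : K ∈ f1 k e F u v) (hne : H ≠ K) : (H ∩ K).card ≤ k := by
  have hp := (mem_FT.1 G.hF).1.2
  rcases mem_f1.1 hH with ⟨h1, h2⟩ | ⟨i, h1, h2, h3⟩ <;>
    rcases mem_f1.1 hK with ⟨k1, k2⟩ | ⟨j, k1, k2, k3⟩
  · exact hp H h1 K k1 hne
  · rw [← k3]
    exact card_inter_le_of_subset (Subset.refl _) (erase_subset _ _)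
      (hp H h1 _ (stt_mem G (two_ne k2)).1 (fun h => h2 j k1 h.symm))
  · rw [← h3]
    exact card_inter_le_of_subset (erase_subset _ _) (Subset.refl _)
      (hp _ (stt_mem G (two_ne h2)).1 K k1 (k2 i h1))
  · have hij : i ≠ j := by
      intro h
      rw [h, k3] at h3
      exact hne h3.symm
    rw [← h3, ← k3]
    exact card_inter_le_of_subset (erase_subset _ _) (erase_subset _ _)
      (hp _ (stt_mem G (two_ne h2)).1 _ (stt_mem G (two_ne k2)).1
        (rr_ne G (two_ne h2) (two_ne k2) hij))

theorem exists_erase_sub {B K : Finset (Fin n)} (h : B.card ≤ (K ∩ B).card + 1)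
    (hB : B.Nonempty) : ∃ b ∈ B, B.erase b ⊆ K := by
  by_cases h1 : B ⊆ K
  · obtain ⟨b, hb⟩ := hB
    exact ⟨b, hb, (erase_subset _ _).trans h1⟩
  · rw [not_subset] at h1
    obtain ⟨b, hb, hbK⟩ := h1
    have h2 : K ∩ B ⊆ B.erase b := by
      intro x hx
      rw [mem_inter] at hx
      exact mem_erase.2 ⟨fun h => hbK (h ▸ hx.1), hx.2⟩
    have h3 : K ∩ B = B.erase b :=
      eq_of_subset_of_card_le h2 (by rw [card_erase_of_mem hb]; omega)
    exact ⟨b, hb, h3 ▸ inter_subset_left⟩

theorem card_B (G : Gd k P e t F u v) : (insert u (insert v e)).card = k + 2 := by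
  rw [card_insert_of_notMem, card_insert_of_notMem G.hv, G.he]
  rw [mem_insert, not_or]
  exact ⟨G.huv, G.hu⟩

theorem sup_of_tr (G : Gd k P e t F u v) (hi : i ∈ e) {K : Finset (Fin n)} (hK : K ∈ F)
    (h : tr e i u v ⊆ K) (hk : 1 ≤ k) : stt k e F u v i ≠ 0 ∧ rr e F u v i = K := by
  have h1 : Cov F (tr e i u v) := ⟨K, hK, h⟩
  have h2 : mb F (tr e i u v) = K := by
    refine mb_eq (mem_FT.1 G.hF).1 hK h ?_
    rw [tr_card G.he hk hi G.huv G.hu G.hv]
    omega
  constructor
  · unfold stt
    rw [if_pos ⟨hi, h1⟩]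
    split_ifs
    · decide
    · decide
  · unfold rr
    rw [if_pos ⟨hi, h1⟩]
    exact h2

/-- the new member and a member of the new family -/
theorem f1_B (G : Gd k P e t F u v) (hk : 1 ≤ k) {K : Finset (Fin n)}
    (hK : K ∈ f1 k e F u v) : (K ∩ insert u (insert v e)).card ≤ k := by
  by_contra hc
  obtain ⟨b, hb, hbK⟩ := exists_erase_sub (B := insert u (insert v e)) (K := K)
    (by rw [card_B G]; omega) ⟨u, mem_insert_self _ _⟩
  obtain ⟨K', hK', hKK'⟩ := f1_sup G hK
  rcases mem_insert.1 hb with h1 | h1
  · refine G.hcv ⟨K', hK', ?_⟩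
    intro x hx
    refine hKK' (hbK (mem_erase.2 ⟨?_, mem_insert_of_mem hx⟩))
    rw [h1]
    intro h
    rw [h] at hx
    rcases mem_insert.1 hx with h2 | h2
    · exact G.huv h2
    · exact G.hu h2
  · rcases mem_insert.1 h1 with h2 | h2
    · refine G.hcu ⟨K', hK', ?_⟩
      intro x hx
      refine hKK' (hbK (mem_erase.2 ⟨?_, ?_⟩))
      · rw [h2]
        intro h
        rw [h] at hx
        rcases mem_insert.1 hx with h3 | h3
        · exact G.huv h3.symm
        · exact G.hv h3
      · rcases mem_insert.1 hx with h3 | h3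
        · rw [h3]
          exact mem_insert_self _ _
        · exact mem_insert_of_mem (mem_insert_of_mem h3)
    · have htr : tr e b u v ⊆ K := by
        intro x hx
        unfold tr at hx
        refine hbK (mem_erase.2 ?_)
        rcases mem_insert.1 hx with h3 | h3
        · rw [h3]
          exact ⟨fun h => G.hu (h ▸ h2), mem_insert_self _ _⟩
        · rcases mem_insert.1 h3 with h4 | h4
          · rw [h4]
            exact ⟨fun h => G.hv (h ▸ h2), mem_insert_of_mem (mem_insert_self _ _)⟩
          · rw [mem_erase] at h4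
            exact ⟨h4.1, mem_insert_of_mem (mem_insert_of_mem h4.2)⟩
      rcases mem_f1.1 hK with ⟨h3, h4⟩ | ⟨i, h3, h4, h5⟩
      · exact h4 b h2 (sup_of_tr G h2 h3 htr hk).2
      · have h6 := htr u_mem_tr
        rw [← h5] at h6
        exact (mem_erase.1 h6).1 rfl

theorem B_notMem_F (G : Gd k P e t F u v) : insert u (insert v e) ∉ F := by
  intro h
  refine G.hcu ⟨_, h, ?_⟩
  intro x hx
  rcases mem_insert.1 hx with h3 | h3
  · rw [h3]
    exact mem_insert_self _ _
  · exact mem_insert_of_mem (mem_insert_of_mem h3)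

theorem B_notMem (G : Gd k P e t F u v) : insert u (insert v e) ∉ f1 k e F u v := by
  intro h
  rcases mem_f1.1 h with ⟨h3, h4⟩ | ⟨i, h3, h4, h5⟩
  · exact B_notMem_F G h3
  · have h6 : u ∈ insert u (insert v e) := mem_insert_self _ _
    rw [← h5] at h6
    exact (mem_erase.1 h6).1 rfl

theorem e_sub_rr (G : Gd k P e t F u v) (h : stt k e F u v i ≠ 0) : ¬ e ⊆ rr e F u v i :=
  fun h1 => (stt_mem G h).2.2 (h1 (stt_ne (h := h)).1)

/-- the new family -/
theorem f1_FT (G : Gd k P e t F u v) (hk : 1 ≤ k) (hn : k + 3 ≤ n) :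
    insert (insert u (insert v e)) (f1 k e F u v) ∈ FT k P e (t + 1) := by
  obtain ⟨hfam, hav, hsz, hct⟩ := mem_FT.1 G.hF
  refine mem_FT.2 ⟨⟨?_, ?_⟩, ?_, ?_, ?_⟩
  · intro H hH
    rcases mem_insert.1 hH with h | h
    · rw [h, card_B G]
      exact ⟨le_refl _, by omega⟩
    · rcases mem_f1.1 h with ⟨h3, h4⟩ | ⟨i, h3, h4, h5⟩
      · exact hfam.1 H h3
      · have h6 := stt_two G h4
        have h7 := stt_mem G (two_ne h4)
        have h8 := (hfam.1 _ h7.1).2
        rw [← h5, card_erase_of_mem (h7.2.1 u_mem_tr)]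
        omega
  · intro H hH K hK hne
    rcases mem_insert.1 hH with h | h <;> rcases mem_insert.1 hK with h' | h'
    · exact absurd (h.trans h'.symm) hne
    · rw [h, inter_comm]
      exact f1_B G hk h'
    · rw [h']
      exact f1_B G hk h
    · exact f1_pair G h h' hne
  · rintro f hf ⟨H, hH, hfH⟩
    rcases mem_insert.1 hH with h | h
    · exact G.hP f hf (h ▸ hfH)
    · obtain ⟨K', hK', hKK'⟩ := f1_sup G h
      exact hav f hf ⟨K', hK', hfH.trans hKK'⟩
  · intro H hH heH
    rcases mem_insert.1 hH with h | h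
    · rw [h, card_B G]
    · rcases mem_f1.1 h with ⟨h3, h4⟩ | ⟨i, h3, h4, h5⟩
      · exact hsz H h3 heH
      · exact absurd (heH.trans (h5 ▸ erase_subset _ _)) (e_sub_rr G (two_ne h4))
  · have h1 : (insert (insert u (insert v e)) (f1 k e F u v)).filter (fun H => e ⊆ H) =
        insert (insert u (insert v e)) (F.filter (fun H => e ⊆ H)) := by
      ext H
      rw [mem_filter, mem_insert, mem_insert, mem_filter]
      constructor
      · rintro ⟨h | h, h'⟩
        · exact Or.inl h
        · rcases mem_f1.1 h with ⟨h3, h4⟩ | ⟨i, h3, h4, h5⟩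
          · exact Or.inr ⟨h3, h'⟩
          · exact absurd (h'.trans (h5 ▸ erase_subset _ _)) (e_sub_rr G (two_ne h4))
      · rintro (h | ⟨h, h'⟩)
        · refine ⟨Or.inl h, ?_⟩
          rw [h]
          exact fun x hx => mem_insert_of_mem (mem_insert_of_mem hx)
        · refine ⟨Or.inr (mem_f1.2 (Or.inl ⟨h, fun i hi hr => ?_⟩)), h'⟩
          have h2 : stt k e F u v i ≠ 0 := by
            intro h0
            rw [stt_zero h0] at hr
            have := (hfam.1 H h).1
            rw [← hr, card_empty] at this
            omega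
          exact e_sub_rr G h2 (hr ▸ h')
    rw [h1, card_insert_of_notMem, hct]
    intro h2
    exact B_notMem_F G (mem_filter.1 h2).1

/-- the old family can be recovered -/
noncomputable def dec (e : Finset (Fin n)) (u : Fin n) (F₁ : Finset (Finset (Fin n)))
    (s : Fin n → Fin 3) (r : Fin n → Finset (Fin n)) : Finset (Finset (Fin n)) :=
  (F₁ \ (e.filter (fun i => s i = 2)).image (fun i => (r i).erase u)) ∪
    (e.filter (fun i => s i ≠ 0)).image r

theorem dec_eq (G : Gd k P e t F u v) :
    dec e u (f1 k e F u v) (stt k e F u v) (rr e F u v) = F := by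
  have hfam := (mem_FT.1 G.hF).1
  ext K
  unfold dec
  rw [mem_union, mem_sdiff, mem_image, mem_image]
  constructor
  · rintro (⟨h1, h2⟩ | ⟨i, h1, h2⟩)
    · rcases mem_f1.1 h1 with ⟨h3, h4⟩ | ⟨i, h3, h4, h5⟩
      · exact h3
      · exact absurd ⟨i, mem_filter.2 ⟨h3, h4⟩, h5⟩ h2
    · rw [mem_filter] at h1
      rw [← h2]
      exact (stt_mem G h1.2).1
  · intro hK
    by_cases h : ∃ i ∈ e, stt k e F u v i ≠ 0 ∧ rr e F u v i = K
    · obtain ⟨i, h1, h2, h3⟩ := h
      exact Or.inr ⟨i, mem_filter.2 ⟨h1, h2⟩, h3⟩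
    · left
      refine ⟨mem_f1.2 (Or.inl ⟨hK, fun i hi hr => ?_⟩), ?_⟩
      · by_cases h0 : stt k e F u v i = 0
        · rw [stt_zero h0] at hr
          have := (hfam.1 K hK).1
          rw [← hr, card_empty] at this
          omega
        · exact h ⟨i, hi, h0, hr⟩
      · rintro ⟨i, h1, h2⟩
        rw [mem_filter] at h1
        have h3 := stt_mem G (two_ne h1.2)
        have h4 : rr e F u v i = K := by
          refine eq_of_facet hfam h3.1 hK (X := K) (h2 ▸ erase_subset _ _) (Subset.refl _) ?_
          have := (hfam.1 K hK).1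
          omega
        have h5 := h3.2.1 u_mem_tr
        rw [h4, ← h2] at h5
        exact (mem_erase.1 h5).1 rfl

open Classical in
/-- the possible members `R` for `i`, seen from the new family -/
noncomputable def dd (k : ℕ) (P : Finset (Finset (Fin n))) (e : Finset (Fin n)) (u v : Fin n)
    (F₁ : Finset (Finset (Fin n))) (s : Fin n → Fin 3) (i : Fin n) : Finset (Finset (Fin n)) :=
  if s i = 0 then {∅} else
    (if s i = 1 then
      (univ.filter (fun w => w ∉ e ∧ w ≠ u ∧ w ≠ v ∧ Free k P F₁ (insert w (tr e i u v)))).image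
        (fun w => insert w (tr e i u v))
    else
      (F₁.filter (fun M => insert v (e.erase i) ⊆ M ∧ i ∉ M ∧ u ∉ M ∧ (insert u M).card < n ∧
        Free k P (F₁.erase M) (insert u M))).image (fun M => insert u M))

/-- a member of the new family and a destroyed or changed member of the old family -/
theorem f1_rr (G : Gd k P e t F u v) (h : stt k e F u v i ≠ 0) {K : Finset (Fin n)}
    (hK : K ∈ f1 k e F u v) (hne : ∀ _ : stt k e F u v i = 2, (rr e F u v i).erase u ≠ K) :
    (K ∩ rr e F u v i).card ≤ k := by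
  have hp := (mem_FT.1 G.hF).1.2
  have hi := (stt_ne (h := h)).1
  rcases mem_f1.1 hK with ⟨h3, h4⟩ | ⟨j, h3, h4, h5⟩
  · exact hp K h3 _ (stt_mem G h).1 (fun h' => h4 i hi h'.symm)
  · have hij : j ≠ i := by
      intro h6
      rw [h6] at h4 h5
      exact hne h4 h5
    rw [← h5]
    exact card_inter_le_of_subset (erase_subset _ _) (Subset.refl _)
      (hp _ (stt_mem G (two_ne h4)).1 _ (stt_mem G h).1 (rr_ne G (two_ne h4) h hij))

theorem rr_avoid (G : Gd k P e t F u v) (h : stt k e F u v i ≠ 0) : ∀ f ∈ P,
    ¬ f ⊆ rr e F u v i :=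
  fun f hf h1 => (mem_FT.1 G.hF).2.1 f hf ⟨_, (stt_mem G h).1, h1⟩

theorem rr_mem (G : Gd k P e t F u v) (hk : 1 ≤ k) (hi : i ∈ e) :
    rr e F u v i ∈ dd k P e u v (f1 k e F u v) (stt k e F u v) i := by
  classical
  unfold dd
  by_cases h0 : stt k e F u v i = 0
  · rw [if_pos h0, stt_zero h0]
    exact mem_singleton_self _
  · rw [if_neg h0]
    obtain ⟨h1, h2, h3⟩ := stt_mem G h0
    have htc := tr_card G.he hk hi G.huv G.hu G.hv
    by_cases h4 : stt k e F u v i = 1
    · rw [if_pos h4, mem_image]
      have h5 := stt_one h4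
      have h6 : (rr e F u v i \ tr e i u v).card = 1 := by
        rw [card_sdiff_of_subset h2]
        omega
      obtain ⟨w, hw⟩ := card_eq_one.1 h6
      have hw1 : w ∈ rr e F u v i \ tr e i u v := by
        rw [hw]
        exact mem_singleton_self _
      rw [mem_sdiff] at hw1
      have h7 : insert w (tr e i u v) = rr e F u v i := by
        rw [insert_eq, ← hw, sdiff_union_of_subset h2]
      refine ⟨w, ?_, h7⟩
      rw [mem_filter]
      refine ⟨mem_univ _, ?_, ?_, ?_, ?_⟩
      · intro h8
        by_cases h9 : w = i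
        · exact h3 (h9 ▸ hw1.1)
        · exact hw1.2 (mem_tr h8 h9)
      · intro h8
        rw [h8] at hw1
        exact hw1.2 u_mem_tr
      · intro h8
        rw [h8] at hw1
        exact hw1.2 v_mem_tr
      · rw [h7]
        refine ⟨rr_avoid G h0, fun K hK => f1_rr G h0 hK (fun h => ?_)⟩
        rw [h4] at h
        exact absurd h (by decide)
    · rw [if_neg h4, mem_image]
      have h5 : stt k e F u v i = 2 := by
        have hlt := (stt k e F u v i).isLt
        have h6 : (stt k e F u v i).val ≠ 0 := fun h => h0 (Fin.ext h)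
        have h7 : (stt k e F u v i).val ≠ 1 := fun h => h4 (Fin.ext h)
        apply Fin.ext
        show (stt k e F u v i).val = 2
        omega
      have h6 := h2 u_mem_tr
      refine ⟨(rr e F u v i).erase u, ?_, insert_erase h6⟩
      rw [mem_filter, insert_erase h6]
      refine ⟨mem_f1.2 (Or.inr ⟨i, hi, h5, rfl⟩), ?_, ?_, ?_, ?_, ?_, ?_⟩
      · intro x hx
        rw [mem_erase]
        rcases mem_insert.1 hx with h7 | h7
        · rw [h7]
          exact ⟨G.huv.symm, h2 v_mem_tr⟩
        · rw [mem_erase] at h7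
          exact ⟨fun h => G.hu (h ▸ h7.2), h2 (mem_tr h7.2 h7.1)⟩
      · exact fun h => h3 (mem_of_mem_erase h)
      · exact fun h => (mem_erase.1 h).1 rfl
      · exact ((mem_FT.1 G.hF).1.1 _ h1).2
      · exact rr_avoid G h0
      · intro K hK
        rw [mem_erase] at hK
        exact f1_rr G h0 hK.2 (fun _ h => hK.1 h.symm)

/-- the number of the possible members -/
theorem card_dd (G : Gd k P e t F u v) (hk : 2 ≤ k) (hi : i ∈ e) {h : ℕ}
    (hh : ∀ H ∈ F, H.card ≤ h) :
    (dd k P e u v (f1 k e F u v) (stt k e F u v) i).card ≤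
      cst k P e F i u v * (1 + k * h) := by
  classical
  have hfam := (mem_FT.1 G.hF).1
  have hk1 : 1 ≤ k := by omega
  -- the other destroyed or changed members
  have hU : ((e.erase i).biUnion (fun j => rr e F u v j)).card ≤ (k - 1) * h := by
    refine le_trans card_biUnion_le ?_
    refine le_trans (sum_le_card_nsmul _ _ h (fun j hj => ?_)) ?_
    · by_cases h0 : stt k e F u v j = 0
      · rw [stt_zero h0, card_empty]
        exact Nat.zero_le _
      · exact hh _ (stt_mem G h0).1
    · rw [card_erase_of_mem hi, G.he, smul_eq_mul]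
  have hfin : ∀ c : ℕ, c + 1 + (k - 1) * h ≤ (c + 1) * (1 + k * h) := by
    intro c
    have h1 : (k - 1) * h ≤ k * h := Nat.mul_le_mul_right _ (by omega)
    have h2 : (c + 1) * (1 + k * h) = c + 1 + (c + 1) * (k * h) := by ring
    rw [h2]
    have h3 : k * h ≤ (c + 1) * (k * h) := Nat.le_mul_of_pos_left _ (by omega)
    omega
  by_cases h0 : stt k e F u v i = 0
  · have h1 : 1 ≤ cst k P e F i u v := by
      unfold cst
      split_ifs <;> omega
    have h2 : 1 ≤ 1 + k * h := by omega
    unfold dd
    rw [if_pos h0, card_singleton]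
    exact Nat.mul_pos h1 h2
  · obtain ⟨h1, h2, h3⟩ := stt_mem G h0
    obtain ⟨h4, h5, h6⟩ := stt_ne (h := h0)
    have htc := tr_card G.he hk1 hi G.huv G.hu G.hv
    by_cases h7 : stt k e F u v i = 1
    · have h8 := stt_one h7
      have hc : cst k P e F i u v = (gset k P e F i u v (rr e F u v i)).card + 1 := by
        unfold cst
        rw [← h6, if_pos ⟨h5, h3⟩, if_pos h8]
      unfold dd
      rw [if_neg h0, if_pos h7, hc]
      refine le_trans card_image_le (le_trans ?_ (hfin _))
      have hsub : (univ.filter (fun w => w ∉ e ∧ w ≠ u ∧ w ≠ v ∧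
          Free k P (f1 k e F u v) (insert w (tr e i u v)))) ⊆
          (gset k P e F i u v (rr e F u v i) ∪ (rr e F u v i \ tr e i u v)) ∪
            (e.erase i).biUnion (fun j => rr e F u v j) := by
        intro w hw
        rw [mem_filter] at hw
        obtain ⟨-, w1, w2, w3, w4, w5⟩ := hw
        rw [mem_union, mem_union]
        have hwt : w ∉ tr e i u v := by
          intro h9
          unfold tr at h9
          rcases mem_insert.1 h9 with h10 | h10
          · exact w2 h10
          · rcases mem_insert.1 h10 with h11 | h11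
            · exact w3 h11
            · exact w1 (mem_of_mem_erase h11)
        by_cases h9 : w ∈ rr e F u v i
        · exact Or.inl (Or.inr (mem_sdiff.2 ⟨h9, hwt⟩))
        · by_cases h10 : w ∈ gset k P e F i u v (rr e F u v i)
          · exact Or.inl (Or.inl h10)
          · right
            unfold gset at h10
            rw [mem_filter] at h10
            have h11 : ∃ K ∈ F, K ≠ rr e F u v i ∧ k < (K ∩ insert w (tr e i u v)).card := by
              by_contra hno
              refine h10 ⟨mem_univ _, h9, w1, w4, fun K hK => ?_⟩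
              rw [mem_erase] at hK
              by_contra hlt
              exact hno ⟨K, hK.2, hK.1, by omega⟩
            obtain ⟨K, k1, k2, k3⟩ := h11
            have h12 : K ∉ f1 k e F u v := fun h => by
              have := w5 K h
              omega
            have h13 : ∃ j ∈ e, rr e F u v j = K := by
              by_contra hno
              exact h12 (mem_f1.2 (Or.inl ⟨k1, fun j hj h => hno ⟨j, hj, h⟩⟩))
            obtain ⟨j, j1, j2⟩ := h13
            have hji : j ≠ i := by
              intro h
              rw [h] at j2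
              exact k2 j2.symm
            have hj0 : stt k e F u v j ≠ 0 := by
              intro h
              rw [stt_zero h] at j2
              have := (hfam.1 K k1).1
              rw [← j2, card_empty] at this
              omega
            obtain ⟨b, b1, b2⟩ := exists_erase_sub (B := insert w (tr e i u v)) (K := K)
              (by rw [card_insert_of_notMem hwt, htc]; omega) ⟨w, mem_insert_self _ _⟩
            have hjK : j ∉ K := by
              rw [← j2]
              exact (stt_mem G hj0).2.2
            have hjb : j = b := by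
              by_contra hne
              exact hjK (b2 (mem_erase.2 ⟨hne, mem_insert_of_mem (mem_tr j1 hji)⟩))
            refine mem_biUnion.2 ⟨j, mem_erase.2 ⟨hji, j1⟩, ?_⟩
            rw [j2]
            refine b2 (mem_erase.2 ⟨?_, mem_insert_self _ _⟩)
            intro h
            rw [h, ← hjb] at w1
            exact w1 j1
      refine le_trans (card_le_card hsub) (le_trans (card_union_le _ _) ?_)
      refine Nat.add_le_add (le_trans (card_union_le _ _) (Nat.add_le_add (le_refl _) ?_)) hU
      rw [card_sdiff_of_subset h2]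
      omega
    · have h8 : stt k e F u v i = 2 := by
        have hlt := (stt k e F u v i).isLt
        have h6 : (stt k e F u v i).val ≠ 0 := fun h => h0 (Fin.ext h)
        have h7 : (stt k e F u v i).val ≠ 1 := fun h => h7 (Fin.ext h)
        apply Fin.ext
        show (stt k e F u v i).val = 2
        omega
      have h9 := stt_two G h8
      have hc : cst k P e F i u v = (xset k P e F i u v (rr e F u v i)).card + 1 := by
        unfold cst
        rw [← h6, if_pos ⟨h5, h3⟩, if_neg (by omega)]
      unfold dd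
      rw [if_neg h0, if_neg h7, hc]
      refine le_trans card_image_le (le_trans ?_ (hfin _))
      have hsub : ((f1 k e F u v).filter (fun M => insert v (e.erase i) ⊆ M ∧ i ∉ M ∧ u ∉ M ∧
          (insert u M).card < n ∧ Free k P ((f1 k e F u v).erase M) (insert u M))) ⊆
          (xset k P e F i u v (rr e F u v i) ∪ {(rr e F u v i).erase u}) ∪
            ((e.erase i).biUnion (fun j => rr e F u v j)).image
              (fun z => mb F (insert z (insert v (e.erase i)))) := by
        intro M hM
        rw [mem_filter] at hM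
        obtain ⟨m0, m1, m2, m3, m4, m5, m6⟩ := hM
        rw [mem_union, mem_union, mem_singleton]
        by_cases hM' : M = (rr e F u v i).erase u
        · exact Or.inl (Or.inr hM')
        · have hMF : M ∈ F ∧ ∀ j ∈ e, rr e F u v j ≠ M := by
            rcases mem_f1.1 m0 with h | ⟨j, j1, j2, j3⟩
            · exact h
            · exfalso
              have hji : j ≠ i := by
                intro h
                rw [h] at j3
                exact hM' j3.symm
              have h10 : j ∈ M := m1 (mem_insert_of_mem (mem_erase.2 ⟨hji, j1⟩))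
              rw [← j3] at h10
              exact (stt_mem G (two_ne j2)).2.2 (mem_of_mem_erase h10)
          by_cases h10 : M ∈ xset k P e F i u v (rr e F u v i)
          · exact Or.inl (Or.inl h10)
          · right
            unfold xset at h10
            rw [mem_filter] at h10
            have h11 : ∃ K ∈ F, K ≠ rr e F u v i ∧ K ≠ M ∧ k < (K ∩ insert u M).card := by
              by_contra hno
              refine h10 ⟨hMF.1, fun h => hMF.2 i hi h.symm, m1, m2, m4, m5, fun K hK => ?_⟩
              rw [mem_erase, mem_erase] at hK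
              by_contra hlt
              exact hno ⟨K, hK.2.2, hK.2.1, hK.1, by omega⟩
            obtain ⟨K, k1, k2, k3, k4⟩ := h11
            have h13 : ∃ j ∈ e, rr e F u v j = K := by
              by_contra hno
              have h12 : K ∈ f1 k e F u v :=
                mem_f1.2 (Or.inl ⟨k1, fun j hj h => hno ⟨j, hj, h⟩⟩)
              have := m6 K (mem_erase.2 ⟨k3, h12⟩)
              omega
            obtain ⟨j, j1, j2⟩ := h13
            have hji : j ≠ i := by
              intro h
              rw [h] at j2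
              exact k2 j2.symm
            have hj0 : stt k e F u v j ≠ 0 := by
              intro h
              rw [stt_zero h] at j2
              have := (hfam.1 K k1).1
              rw [← j2, card_empty] at this
              omega
            obtain ⟨q1, q2, q3⟩ := stt_mem G hj0
            rw [j2] at q1 q2 q3
            have hKM : (K ∩ M).card ≤ k := hfam.2 K k1 M hMF.1 k3
            -- the common points of `K` and `M`
            have hle : (K ∩ insert u M).card ≤ (K ∩ M).card + 1 := by
              have : K ∩ insert u M ⊆ insert u (K ∩ M) := by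
                intro x hx
                rw [mem_inter, mem_insert] at hx
                rw [mem_insert, mem_inter]
                tauto
              exact le_trans (card_le_card this) (card_insert_le _ _)
            have hKM' : (K ∩ M).card = k := by omega
            have hA : (insert v ((e.erase i).erase j)).card < (K ∩ M).card := by
              have hje : j ∈ e.erase i := mem_erase.2 ⟨hji, j1⟩
              have := card_insert_le v ((e.erase i).erase j)
              rw [card_erase_of_mem hje, card_erase_of_mem hi, G.he] at this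
              omega
            obtain ⟨z, z1, z2⟩ := exists_mem_notMem_of_card_lt_card hA
            rw [mem_inter] at z1
            rw [mem_insert, mem_erase, mem_erase, not_or] at z2
            have hzj : z ≠ j := fun h => q3 (h ▸ z1.1)
            have hzi : z ≠ i := fun h => m2 (h ▸ z1.2)
            have hze : z ∉ e := fun h => z2.2 ⟨hzj, hzi, h⟩
            refine mem_image.2 ⟨z, mem_biUnion.2 ⟨j, mem_erase.2 ⟨hji, j1⟩, ?_⟩, ?_⟩
            · rw [j2]
              exact z1.1
            · refine mb_eq hfam hMF.1 ?_ ?_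
              · intro x hx
                rcases mem_insert.1 hx with h | h
                · rw [h]
                  exact z1.2
                · exact m1 h
              · have hv' : v ∉ e.erase i := fun h => G.hv (mem_of_mem_erase h)
                have hz' : z ∉ insert v (e.erase i) := by
                  rw [mem_insert, not_or]
                  exact ⟨z2.1, fun h => hze (mem_of_mem_erase h)⟩
                rw [card_insert_of_notMem hz', card_insert_of_notMem hv', card_erase_of_mem hi,
                  G.he]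
                omega
      refine le_trans (card_le_card hsub) (le_trans (card_union_le _ _) ?_)
      refine Nat.add_le_add (le_trans (card_union_le _ _) (Nat.add_le_add (le_refl _) ?_))
        (le_trans card_image_le hU)
      rw [card_singleton]

theorem gd_of {k : ℕ} {P : Finset (Finset (Fin n))} {e : Finset (Fin n)} {t X Y : ℕ}
    {F : Finset (Finset (Fin n))} {p : Fin n × Fin n} (he : e.card = k) (hF : F ∈ FT k P e t)
    (hp : p ∈ good k P e F X Y) : Gd k P e t F p.1 p.2 := by
  classical
  unfold good at hp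
  rw [mem_filter] at hp
  obtain ⟨h0, h1, h2, h3, -⟩ := hp
  unfold pts at h0
  rw [mem_filter] at h0
  exact ⟨hF, he, h0.2.1, h0.2.2.1, h0.2.2.2, h1, h2, h3⟩

theorem card_pairs {k : ℕ} {P : Finset (Finset (Fin n))} {e : Finset (Fin n)} {t : ℕ}
    (he : e.card = k) {F : Finset (Finset (Fin n))} (hF : F ∈ FT k P e t) :
    ((pts e).filter (fun p : Fin n × Fin n => insert p.1 (insert p.2 e) ∈ F)).card ≤ 2 * t := by
  classical
  obtain ⟨hfam, hav, hsz, hct⟩ := mem_FT.1 hF
  have h1 : ∀ p ∈ (pts e).filter (fun p : Fin n × Fin n => insert p.1 (insert p.2 e) ∈ F),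
      insert p.1 (insert p.2 e) ∈ F.filter (fun H => e ⊆ H) := by
    intro p hp
    rw [mem_filter] at hp ⊢
    exact ⟨hp.2, fun x hx => mem_insert_of_mem (mem_insert_of_mem hx)⟩
  refine le_trans (card_le_mul_card_image_of_maps_to h1 2 ?_) (by rw [hct])
  intro H hH
  rw [mem_filter] at hH
  have h2 : (H \ e).card = 2 := by
    rw [card_sdiff_of_subset hH.2, hsz H hH.1 hH.2, he]
    omega
  have h3 : (((pts e).filter (fun p : Fin n × Fin n => insert p.1 (insert p.2 e) ∈ F)).filter
      (fun p => insert p.1 (insert p.2 e) = H)) ⊆ (H \ e).offDiag := by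
    intro p hp
    rw [mem_filter, mem_filter] at hp
    obtain ⟨⟨h4, -⟩, h5⟩ := hp
    unfold pts at h4
    rw [mem_filter] at h4
    rw [mem_offDiag, mem_sdiff, mem_sdiff, ← h5]
    exact ⟨⟨mem_insert_self _ _, h4.2.2.1⟩,
      ⟨mem_insert_of_mem (mem_insert_self _ _), h4.2.2.2⟩, h4.2.1⟩
  refine le_trans (card_le_card h3) ?_
  rw [offDiag_card, h2]

end KE78

open KE78 in
theorem sum_good {n k : ℕ} (P : Finset (Finset (Fin n))) (e : Finset (Fin n)) (t h X Y : ℕ)
    (hk : 2 ≤ k) (hn : k + 3 ≤ n) (he : e.card = k) :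
    X * ∑ F ∈ (FT k P e t).filter (fun F => ∀ H ∈ F, H.card ≤ h), (good k P e F X Y).card ≤
      2 * (t + 1) * 3 ^ k * (1 + k * h) ^ k * Y * (FT k P e (t + 1)).card := by
  classical
  set S := (FT k P e t).filter (fun F => ∀ H ∈ F, H.card ≤ h) with hS
  set A := S.sigma (fun F => good k P e F X Y) with hA
  set St : Finset (Fin n → Fin 3) :=
    Fintype.piFinset (fun i : Fin n => if i ∈ e then univ else {0}) with hSt
  set T := ((FT k P e (t + 1)).sigma (fun F =>
    (pts e).filter (fun p : Fin n × Fin n => insert p.1 (insert p.2 e) ∈ F))) ×ˢ St with hT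
  have hStc : St.card = 3 ^ k := by
    rw [hSt, Fintype.card_piFinset]
    have h1 : ∀ i ∈ (univ : Finset (Fin n)),
        (if i ∈ e then (univ : Finset (Fin 3)) else {0}).card = if i ∈ e then 3 else 1 := by
      intro i _
      split_ifs <;> simp
    rw [prod_congr rfl h1, prod_ite_mem, univ_inter, prod_const, he]
  have hTc : T.card ≤ (FT k P e (t + 1)).card * (2 * (t + 1)) * 3 ^ k := by
    rw [hT, card_product, hStc, card_sigma]
    refine Nat.mul_le_mul_right _ ?_
    refine le_trans (sum_le_card_nsmul _ _ (2 * (t + 1)) (fun F hF => card_pairs he hF)) ?_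
    rw [smul_eq_mul]
  set f : (Σ _ : Finset (Finset (Fin n)), Fin n × Fin n) →
      (Σ _ : Finset (Finset (Fin n)), Fin n × Fin n) × (Fin n → Fin 3) :=
    fun a => (⟨insert (insert a.2.1 (insert a.2.2 e)) (f1 k e a.1 a.2.1 a.2.2), a.2⟩,
      stt k e a.1 a.2.1 a.2.2) with hf
  have hAS : ∀ a ∈ A, Gd k P e t a.1 a.2.1 a.2.2 ∧ (∀ H ∈ a.1, H.card ≤ h) ∧
      (∏ i ∈ e, cst k P e a.1 i a.2.1 a.2.2) * X ≤ Y := by
    intro a ha
    rw [hA, mem_sigma, hS, mem_filter] at ha
    refine ⟨gd_of he ha.1.1 ha.2, ha.1.2, ?_⟩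
    have h1 := ha.2
    unfold good at h1
    rw [mem_filter] at h1
    exact h1.2.2.2.2
  have hmaps : ∀ a ∈ A, f a ∈ T := by
    intro a ha
    have hG := (hAS a ha).1
    rw [hT, mem_product, mem_sigma]
    refine ⟨⟨f1_FT hG (by omega) hn, ?_⟩, ?_⟩
    · rw [mem_filter]
      refine ⟨?_, mem_insert_self _ _⟩
      unfold pts
      rw [mem_filter]
      exact ⟨mem_univ _, hG.huv, hG.hu, hG.hv⟩
    · rw [hSt, Fintype.mem_piFinset]
      intro i
      by_cases hi : i ∈ e
      · rw [if_pos hi]
        exact mem_univ _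
      · rw [if_neg hi, mem_singleton]
        show stt k e a.1 a.2.1 a.2.2 i = 0
        unfold stt
        rw [if_neg (fun h => hi h.1)]
  have hfib : ∀ b ∈ T, X * (A.filter (fun a => f a = b)).card ≤ (1 + k * h) ^ k * Y := by
    rintro ⟨⟨F₂, p⟩, s⟩ -
    rcases (A.filter (fun a => f a = (⟨F₂, p⟩, s))).eq_empty_or_nonempty with h0 | ⟨a₀, h0⟩
    · rw [h0, card_empty, Nat.mul_zero]
      exact Nat.zero_le _
    · have key : ∀ a ∈ A.filter (fun a => f a = (⟨F₂, p⟩, s)),
          Gd k P e t a.1 p.1 p.2 ∧ (∀ H ∈ a.1, H.card ≤ h) ∧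
          (∏ i ∈ e, cst k P e a.1 i p.1 p.2) * X ≤ Y ∧ a.2 = p ∧
          f1 k e a.1 p.1 p.2 = F₂.erase (insert p.1 (insert p.2 e)) ∧
          stt k e a.1 p.1 p.2 = s := by
        rintro ⟨F, q⟩ ha
        rw [mem_filter] at ha
        obtain ⟨h1, h2, h3⟩ := hAS _ ha.1
        have h4 := ha.2
        rw [hf] at h4
        simp only [Prod.mk.injEq, Sigma.mk.injEq, heq_eq_eq] at h4
        obtain ⟨⟨h5, h6⟩, h7⟩ := h4
        subst h6
        refine ⟨h1, h2, h3, rfl, ?_, h7⟩
        rw [← h5, erase_insert (B_notMem h1)]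
      set D : Fin n → Finset (Finset (Fin n)) := fun i =>
        if i ∈ e then dd k P e p.1 p.2 (F₂.erase (insert p.1 (insert p.2 e))) s i else {∅} with hD
      have h1 : (A.filter (fun a => f a = (⟨F₂, p⟩, s))).card ≤ (Fintype.piFinset D).card := by
        refine card_le_card_of_injOn (fun a => rr e a.1 p.1 p.2) ?_ ?_
        · intro a ha
          rw [mem_coe] at ha
          obtain ⟨g1, g2, g3, g4, g5, g6⟩ := key a ha
          rw [mem_coe, Fintype.mem_piFinset]
          intro i
          rw [hD]
          by_cases hi : i ∈ e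
          · simp only [if_pos hi]
            rw [← g5, ← g6]
            exact rr_mem g1 (by omega) hi
          · simp only [if_neg hi]
            unfold rr
            rw [if_neg (fun h => hi h.1)]
            exact mem_singleton_self _
        · intro a ha a' ha' haa
          rw [mem_coe] at ha ha'
          obtain ⟨g1, g2, g3, g4, g5, g6⟩ := key a ha
          obtain ⟨g1', g2', g3', g4', g5', g6'⟩ := key a' ha'
          have h2 := dec_eq g1
          have h2' := dec_eq g1'
          simp only at haa
          rw [g5, g6, haa] at h2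
          rw [g5', g6'] at h2'
          have h3 : a.1 = a'.1 := h2.symm.trans h2'
          have h4 : a.2 = a'.2 := g4.trans g4'.symm
          exact Sigma.ext h3 (heq_of_eq h4)
      obtain ⟨g1, g2, g3, g4, g5, g6⟩ := key a₀ h0
      have h2 : (Fintype.piFinset D).card ≤
          (∏ i ∈ e, cst k P e a₀.1 i p.1 p.2) * (1 + k * h) ^ k := by
        rw [Fintype.card_piFinset]
        have h3 : ∀ i ∈ (univ : Finset (Fin n)), (D i).card = if i ∈ e then
            (dd k P e p.1 p.2 (F₂.erase (insert p.1 (insert p.2 e))) s i).card else 1 := by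
          intro i _
          rw [hD]
          by_cases hi : i ∈ e
          · simp only [if_pos hi]
          · simp only [if_neg hi, card_singleton]
        rw [prod_congr rfl h3, prod_ite_mem, univ_inter]
        have h4 : ((1 + k * h) ^ k : ℕ) = ∏ _i ∈ e, (1 + k * h) := by rw [prod_const, he]
        rw [h4, ← prod_mul_distrib]
        refine prod_le_prod' (fun i hi => ?_)
        rw [← g5, ← g6]
        exact card_dd g1 hk hi g2
      calc X * (A.filter (fun a => f a = (⟨F₂, p⟩, s))).card
          ≤ X * ((∏ i ∈ e, cst k P e a₀.1 i p.1 p.2) * (1 + k * h) ^ k) :=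
            Nat.mul_le_mul_left _ (h1.trans h2)
        _ = (1 + k * h) ^ k * ((∏ i ∈ e, cst k P e a₀.1 i p.1 p.2) * X) := by ring
        _ ≤ (1 + k * h) ^ k * Y := Nat.mul_le_mul_left _ g3
  have hAc : ∑ F ∈ S, (good k P e F X Y).card = A.card := by
    rw [hA, card_sigma]
  rw [hAc, card_eq_sum_card_fiberwise (s := A) (t := T) (f := f) hmaps, mul_sum]
  refine le_trans (sum_le_card_nsmul T _ ((1 + k * h) ^ k * Y) hfib) ?_
  rw [smul_eq_mul]
  calc T.card * ((1 + k * h) ^ k * Y)
      ≤ ((FT k P e (t + 1)).card * (2 * (t + 1)) * 3 ^ k) * ((1 + k * h) ^ k * Y) :=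
        Nat.mul_le_mul_right _ hTc
    _ = 2 * (t + 1) * 3 ^ k * (1 + k * h) ^ k * Y * (FT k P e (t + 1)).card := by ring

end Pool.Agent.RKP
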