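import Pool.Agent.RKP.Defs

/-!
The sum of the logarithms of the prices of all pairs of points.
-/

set_option autoImplicit false

namespace Pool.Agent.RKP

open Finset

variable {n k : ℕ}

namespace KF

private lemma mbR {F : Finset (Finset (Fin n))} (hF : IsFam k F) {R X : Finset (Fin n)}
    (hR : R ∈ F) (hX : X ⊆ R) (hk : k < X.card) : mb F X = R := by
  have hc : Cov F X := ⟨R, hR, hX⟩
  rw [mb, dif_pos hc]
  by_contra hne
  have h1 := hF.2 _ hc.choose_spec.1 _ hR hne
  have h2 : X ⊆ hc.choose ∩ R := subset_inter hc.choose_spec.2 hX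
  have h3 := card_le_card h2
  omega

private lemma mbM {F : Finset (Finset (Fin n))} {X : Finset (Fin n)} (h : Cov F X) :
    mb F X ∈ F ∧ X ⊆ mb F X := by
  rw [mb, dif_pos h]
  exact h.choose_spec

private lemma trC {e : Finset (Fin n)} {i u v : Fin n} (he : e.card = k) (hi : i ∈ e)
    (huv : u ≠ v) (hu : u ∉ e) (hv : v ∉ e) : (tr e i u v).card = k + 1 := by
  have h1 : v ∉ e.erase i := fun h => hv (mem_of_mem_erase h)
  have h2 : u ∉ insert v (e.erase i) := by
    rw [mem_insert, not_or]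
    exact ⟨huv, fun h => hu (mem_of_mem_erase h)⟩
  rw [tr, card_insert_of_notMem h2, card_insert_of_notMem h1, card_erase_of_mem hi, he]
  have : 0 < e.card := card_pos.2 ⟨i, hi⟩
  omega

/-- three numbers at a time -/
private lemma three {α : Type} (S : Finset α) (l : α → ℝ) (L : ℝ)
    (h3 : 3 ≤ S.card) (h : ∀ a ∈ S, ∀ b ∈ S, ∀ c ∈ S, a ≠ b → b ≠ c → c ≠ a → l a + l b + l c ≤ L) :
    ∑ a ∈ S, l a ≤ (1 / 3 : ℝ) * L * S.card := by
  classical
  induction hm : S.card using Nat.strong_induction_on generalizing S with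
  | _ m ih =>
    rcases Nat.lt_or_ge 3 m with hlt | hge
    · -- remove a minimum
      obtain ⟨c, hc, hmin⟩ := S.exists_min_image l (card_pos.1 (by omega))
      have h1 : 2 ≤ (S.erase c).card := by rw [card_erase_of_mem hc]; omega
      obtain ⟨a, ha, b, hb, hab⟩ := one_lt_card.1 (by omega : 1 < (S.erase c).card)
      have ha' := mem_erase.1 ha
      have hb' := mem_erase.1 hb
      have h2 := h a ha'.2 b hb'.2 c hc hab hb'.1 (Ne.symm ha'.1)
      have h3' := hmin a ha'.2
      have h4 := hmin b hb'.2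
      have h5 := ih (m - 1) (by omega) (S.erase c) (by rw [card_erase_of_mem hc]; omega)
        (fun x hx y hy z hz => h x (mem_of_mem_erase hx) y (mem_of_mem_erase hy) z (mem_of_mem_erase hz))
        (by rw [card_erase_of_mem hc, hm])
      rw [← add_sum_erase S l hc]
      have h6 : ((m - 1 : ℕ) : ℝ) = m - 1 := by push_cast [Nat.cast_sub (by omega : 1 ≤ m)]; ring
      rw [h6] at h5
      nlinarith only [h5, h2, h3', h4]
    · obtain ⟨a, b, c, hab, hac, hbc, rfl⟩ := card_eq_three.1 (by omega : S.card = 3)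
      have h2 := h a (by simp) b (by simp) c (by simp) hab hbc (Ne.symm hac)
      rw [sum_insert (by simp [hab, hac]), sum_insert (by simp [hbc]), sum_singleton]
      have : (m : ℝ) = 3 := by exact_mod_cast (by omega : m = 3)
      rw [this]
      linarith only [h2]

private lemma cst_pos (P : Finset (Finset (Fin n))) (e : Finset (Fin n)) (F : Finset (Finset (Fin n)))
    (i u v : Fin n) : 1 ≤ cst k P e F i u v := by
  rw [cst]; split_ifs <;> omega

private lemma gset_le {P : Finset (Finset (Fin n))} {e : Finset (Fin n)} {F : Finset (Finset (Fin n))}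
    {i u v : Fin n} (hi : i ∈ e) (R : Finset (Fin n)) : (gset k P e F i u v R).card + 1 ≤ n := by
  have h1 : gset k P e F i u v R ⊆ univ.erase i := by
    intro w hw
    simp only [gset, mem_filter] at hw
    exact mem_erase.2 ⟨fun h => hw.2.2.1 (h ▸ hi), mem_univ _⟩
  have h2 := card_le_card h1
  rw [card_erase_of_mem (mem_univ _), card_univ, Fintype.card_fin] at h2
  have : 0 < n := Fin.pos i
  omega

private lemma xset_le {P : Finset (Finset (Fin n))} {e : Finset (Fin n)} {F : Finset (Finset (Fin n))}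
    (hF : IsFam k F) {i u v : Fin n} (he : e.card = k) (hi : i ∈ e) (hv : v ∉ e) (R : Finset (Fin n)) :
    (xset k P e F i u v R).card + 1 ≤ n := by
  classical
  have hvQ : v ∉ e.erase i := fun h => hv (mem_of_mem_erase h)
  have hQ : (insert v (e.erase i)).card = k := by
    rw [card_insert_of_notMem hvQ, card_erase_of_mem hi, he]
    have : 0 < e.card := card_pos.2 ⟨i, hi⟩
    omega
  have hne : ∀ M ∈ xset k P e F i u v R, ∃ z, z ∈ M ∧ z ∉ insert v (e.erase i) := by
    intro M hM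
    simp only [xset, mem_filter] at hM
    have h1 := (hF.1 M hM.1).1
    by_contra hcon
    push Not at hcon
    have : M ⊆ insert v (e.erase i) := fun z hz => hcon z hz
    have := card_le_card this
    omega
  have : Nonempty (Fin n) := ⟨i⟩
  choose! f hf1 hf2 using hne
  have h1 : (xset k P e F i u v R).card ≤ (univ.erase i : Finset (Fin n)).card := by
    refine card_le_card_of_injOn f (fun M hM => ?_) ?_
    · have hM' := mem_filter.1 (mem_coe.1 hM)
      exact mem_coe.2 (mem_erase.2 ⟨fun h => hM'.2.2.2.1 (h ▸ hf1 M hM), mem_univ _⟩)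
    · intro M hM M' hM' hff
      by_contra hMM
      have hm := mem_filter.1 (mem_coe.1 hM)
      have hm' := mem_filter.1 (mem_coe.1 hM')
      have h2 := hF.2 M hm.1 M' hm'.1 hMM
      have h3 : insert (f M) (insert v (e.erase i)) ⊆ M ∩ M' := by
        refine insert_subset (mem_inter.2 ⟨hf1 M hM, ?_⟩) (subset_inter hm.2.2.1 hm'.2.2.1)
        have := hf1 M' hM'
        rwa [← hff] at this
      have h4 := card_le_card h3
      rw [card_insert_of_notMem (hf2 M hM), hQ] at h4
      omega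
  rw [card_erase_of_mem (mem_univ _), card_univ, Fintype.card_fin] at h1
  have : 0 < n := Fin.pos i
  omega

private lemma cst_le {P : Finset (Finset (Fin n))} {e : Finset (Fin n)} {F : Finset (Finset (Fin n))}
    (hF : IsFam k F) {i u v : Fin n} (he : e.card = k) (hi : i ∈ e) (hv : v ∉ e) :
    cst k P e F i u v ≤ n := by
  have hn : 0 < n := Fin.pos i
  rw [cst]
  split_ifs
  · exact gset_le hi _
  · exact xset_le hF he hi hv _
  · omega

open Classical in
/-- the ordered members with `k + 2` elements -/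
private noncomputable def T3 (e : Finset (Fin n)) (F : Finset (Finset (Fin n))) (i : Fin n) :
    Finset (Fin n × Fin n × Fin n) :=
  univ.filter (fun p => p.1 ≠ p.2.1 ∧ p.2.1 ≠ p.2.2 ∧ p.2.2 ≠ p.1 ∧ p.1 ∉ e ∧ p.2.1 ∉ e ∧
    p.2.2 ∉ e ∧ insert p.2.2 (tr e i p.1 p.2.1) ∈ F)

private lemma rot_eq (e : Finset (Fin n)) (i a b c : Fin n) :
    insert a (tr e i b c) = insert c (tr e i a b) := by
  simp only [tr]
  ext x; simp only [mem_insert]; tauto

private lemma mem_T3 {e : Finset (Fin n)} {F : Finset (Finset (Fin n))} {i : Fin n} {p : Fin n × Fin n × Fin n} :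
    p ∈ T3 e F i ↔ p.1 ≠ p.2.1 ∧ p.2.1 ≠ p.2.2 ∧ p.2.2 ≠ p.1 ∧ p.1 ∉ e ∧ p.2.1 ∉ e ∧
    p.2.2 ∉ e ∧ insert p.2.2 (tr e i p.1 p.2.1) ∈ F := by
  simp [T3]

private lemma rot_mem {e : Finset (Fin n)} {F : Finset (Finset (Fin n))} {i : Fin n} {a b c : Fin n}
    (h : (a, b, c) ∈ T3 e F i) : (b, c, a) ∈ T3 e F i := by
  rw [mem_T3] at h ⊢
  obtain ⟨h1, h2, h3, h4, h5, h6, h7⟩ := h
  refine ⟨h2, h3, h1, h5, h6, h4, ?_⟩
  simp only at h7 ⊢
  rw [rot_eq]; exact h7

private lemma sum_rot {e : Finset (Fin n)} {F : Finset (Finset (Fin n))} {i : Fin n}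
    (f : Fin n → Fin n → ℝ) :
    ∑ p ∈ T3 e F i, f p.1 p.2.1 = ∑ p ∈ T3 e F i, f p.2.1 p.2.2 := by
  refine sum_nbij' (fun p => (p.2.2, p.1, p.2.1)) (fun p => (p.2.1, p.2.2, p.1)) ?_ ?_ ?_ ?_ ?_
  · rintro ⟨a, b, c⟩ h
    exact rot_mem (rot_mem h)
  · rintro ⟨a, b, c⟩ h
    exact rot_mem h
  · intro p _; rfl
  · intro p _; rfl
  · intro p _; rfl

/-- the price for a pair on a member with `k + 2` elements -/
private lemma cst_T3 {P : Finset (Finset (Fin n))} {e : Finset (Fin n)} {F : Finset (Finset (Fin n))}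
    (hF : IsFam k F) {i : Fin n} (he : e.card = k) (hi : i ∈ e) {a b c : Fin n} (h : (a, b, c) ∈ T3 e F i) :
    Cov F (tr e i a b) ∧ i ∉ mb F (tr e i a b) ∧ mb F (tr e i a b) = insert c (tr e i a b) ∧
    (mb F (tr e i a b)).card = k + 2 ∧
    cst k P e F i a b = (gset k P e F i a b (insert c (tr e i a b))).card + 1 := by
  rw [mem_T3] at h
  obtain ⟨h1, h2, h3, h4, h5, h6, h7⟩ := h
  simp only at h1 h2 h3 h4 h5 h6 h7
  have hc := trC he hi h1 h4 h5
  have hmb : mb F (tr e i a b) = insert c (tr e i a b) :=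
    mbR hF h7 (subset_insert _ _) (by omega)
  have hcov : Cov F (tr e i a b) := ⟨_, h7, subset_insert _ _⟩
  have hcn : c ∉ tr e i a b := by
    simp only [tr, mem_insert, not_or]
    exact ⟨h3, Ne.symm h2, fun h => h6 (mem_of_mem_erase h)⟩
  have hin : i ∉ insert c (tr e i a b) := by
    simp only [tr, mem_insert, not_or]
    exact ⟨fun h => h6 (h ▸ hi), fun h => h4 (h ▸ hi), fun h => h5 (h ▸ hi), notMem_erase i e⟩
  have hcard : (insert c (tr e i a b)).card = k + 2 := by rw [card_insert_of_notMem hcn, hc]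
  refine ⟨hcov, by rw [hmb]; exact hin, hmb, by rw [hmb]; exact hcard, ?_⟩
  rw [cst, if_pos ⟨hcov, by rw [hmb]; exact hin⟩, if_pos (by rw [hmb]; exact hcard), hmb]

/-- members with `k + 2` elements -/
private lemma sumA {P : Finset (Finset (Fin n))} {e : Finset (Fin n)} {F : Finset (Finset (Fin n))} {g : ℕ}
    (hF : IsFam k F) {i : Fin n} (he : e.card = k) (hi : i ∈ e) :
    ∑ p ∈ T3 e F i, Real.log (cst k P e F i p.1 p.2.1 : ℝ) ≤
      (1 / 3 : ℝ) * Real.log (g : ℝ) * (T3 e F i).card + Real.log (n : ℝ) * (bad3 k P e F i g).card := by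
  classical
  set f : Fin n → Fin n → ℝ := fun u v => Real.log (cst k P e F i u v : ℝ) with hf
  have hn : 0 < n := Fin.pos i
  have hlogn : 0 ≤ Real.log (n : ℝ) := Real.log_natCast_nonneg n
  have hlogg : 0 ≤ Real.log (g : ℝ) := Real.log_natCast_nonneg g
  have hfn : ∀ u v, v ∉ e → f u v ≤ Real.log (n : ℝ) := by
    intro u v hv
    have h1 := cst_pos (k := k) P e F i u v
    exact Real.log_le_log (by exact_mod_cast h1) (by exact_mod_cast cst_le hF he hi hv)
  have e1 : ∑ p ∈ T3 e F i, f p.1 p.2.1 = ∑ p ∈ T3 e F i, f p.2.1 p.2.2 := sum_rot f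
  have e2 : ∑ p ∈ T3 e F i, f p.1 p.2.1 = ∑ p ∈ T3 e F i, f p.2.2 p.1 := by
    refine sum_nbij' (fun p => (p.2.1, p.2.2, p.1)) (fun p => (p.2.2, p.1, p.2.1)) ?_ ?_ ?_ ?_ ?_
    · rintro ⟨a, b, c⟩ h
      exact rot_mem h
    · rintro ⟨a, b, c⟩ h
      exact rot_mem (rot_mem h)
    · intro p _; rfl
    · intro p _; rfl
    · intro p _; rfl
  have hsub : bad3 k P e F i g ⊆ T3 e F i := by
    rintro p hp
    simp only [bad3, mem_filter] at hp
    rw [mem_T3]
    exact ⟨hp.2.1, hp.2.2.1, hp.2.2.2.1, hp.2.2.2.2.1, hp.2.2.2.2.2.1, hp.2.2.2.2.2.2.1, hp.2.2.2.2.2.2.2.1⟩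
  have hpt : ∀ p ∈ T3 e F i, f p.1 p.2.1 + f p.2.1 p.2.2 + f p.2.2 p.1 ≤
      Real.log (g : ℝ) + if p ∈ bad3 k P e F i g then 3 * Real.log (n : ℝ) else 0 := by
    rintro ⟨a, b, c⟩ hp
    have hp' := mem_T3.1 hp
    simp only at hp' ⊢
    obtain ⟨h1, h2, h3, h4, h5, h6, h7⟩ := hp'
    split_ifs with hb
    · have := hfn a b h5
      have := hfn b c h6
      have := hfn c a h4
      linarith
    · rw [add_zero]
      have c1 := (cst_T3 (P := P) hF he hi hp).2.2.2.2
      have c2 := (cst_T3 (P := P) hF he hi (rot_mem hp)).2.2.2.2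
      have c3 := (cst_T3 (P := P) hF he hi (rot_mem (rot_mem hp))).2.2.2.2
      rw [rot_eq] at c2
      rw [rot_eq, rot_eq] at c3
      have hprod : cst k P e F i a b * cst k P e F i b c * cst k P e F i c a < g := by
        by_contra hcon
        push Not at hcon
        refine hb ?_
        simp only [bad3, mem_filter]
        refine ⟨mem_univ _, h1, h2, h3, h4, h5, h6, h7, ?_⟩
        rw [c1, c2, c3] at hcon
        exact hcon
      have p1 := cst_pos (k := k) P e F i a b
      have p2 := cst_pos (k := k) P e F i b c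
      have p3 := cst_pos (k := k) P e F i c a
      have q1 : (0 : ℝ) < cst k P e F i a b := by exact_mod_cast p1
      have q2 : (0 : ℝ) < cst k P e F i b c := by exact_mod_cast p2
      have q3 : (0 : ℝ) < cst k P e F i c a := by exact_mod_cast p3
      simp only [hf]
      rw [← Real.log_mul q1.ne' q2.ne', ← Real.log_mul (by positivity) q3.ne']
      refine Real.log_le_log (by positivity) ?_
      exact_mod_cast hprod.le
  have hsum := sum_le_sum hpt
  rw [sum_add_distrib, sum_add_distrib, sum_add_distrib, ← e1, ← e2, sum_const, nsmul_eq_mul,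
    sum_ite_mem, inter_eq_right.2 hsub, sum_const, nsmul_eq_mul] at hsum
  simp only [hf] at hsum
  linarith only [hsum]

open Classical in
/-- the pairs on members with `k + 2` elements -/
private noncomputable def pA (k : ℕ) (e : Finset (Fin n)) (F : Finset (Finset (Fin n))) (i : Fin n) :
    Finset (Fin n × Fin n) :=
  (pts e).filter (fun p => (Cov F (tr e i p.1 p.2) ∧ i ∉ mb F (tr e i p.1 p.2)) ∧ (mb F (tr e i p.1 p.2)).card = k + 2)

open Classical in
/-- the pairs on larger members -/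
private noncomputable def pB (k : ℕ) (e : Finset (Fin n)) (F : Finset (Finset (Fin n))) (i : Fin n) :
    Finset (Fin n × Fin n) :=
  (pts e).filter (fun p => (Cov F (tr e i p.1 p.2) ∧ i ∉ mb F (tr e i p.1 p.2)) ∧ (mb F (tr e i p.1 p.2)).card ≠ k + 2)

private lemma bijA {e : Finset (Fin n)} {F : Finset (Finset (Fin n))}
    (hF : IsFam k F) {i : Fin n} (he : e.card = k) (hi : i ∈ e) :
    Set.BijOn (fun p : Fin n × Fin n × Fin n => (p.1, p.2.1)) (T3 e F i) (pA k e F i) := by
  classical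
  refine ⟨?_, ?_, ?_⟩
  · rintro ⟨a, b, c⟩ hp
    have hp := mem_coe.1 hp
    have h := cst_T3 (P := ∅) hF he hi hp
    have hp' := mem_T3.1 hp
    simp only [pA, pts, coe_filter, mem_filter] at *
    exact ⟨⟨mem_univ _, hp'.1, hp'.2.2.2.1, hp'.2.2.2.2.1⟩, ⟨h.1, h.2.1⟩, h.2.2.2.1⟩
  · rintro ⟨a, b, c⟩ hp ⟨a', b', c'⟩ hp' heq
    have hp := mem_coe.1 hp
    have hp' := mem_coe.1 hp'
    simp only [Prod.mk.injEq] at heq
    obtain ⟨rfl, rfl⟩ := heq
    have h := (cst_T3 (P := ∅) hF he hi hp).2.2.1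
    have h' := (cst_T3 (P := ∅) hF he hi hp').2.2.1
    rw [h] at h'
    have hc : c ∈ insert c' (tr e i a b) := h' ▸ mem_insert_self c _
    have hm := mem_T3.1 hp
    simp only at hm
    have hcn : c ∉ tr e i a b := by
      simp only [tr, mem_insert, not_or]
      exact ⟨hm.2.2.1, Ne.symm hm.2.1, fun h => hm.2.2.2.2.2.1 (mem_of_mem_erase h)⟩
    rcases mem_insert.1 hc with h1 | h1
    · rw [h1]
    · exact absurd h1 hcn
  · rintro ⟨a, b⟩ hp
    have hp := mem_coe.1 hp
    simp only [pA, pts, mem_filter] at hp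
    obtain ⟨⟨-, hab, ha, hb⟩, ⟨hcov, him⟩, hcard⟩ := hp
    have hm := mbM hcov
    have htc := trC he hi hab ha hb
    obtain ⟨c, hc⟩ : ∃ c, mb F (tr e i a b) \ tr e i a b = {c} := by
      apply card_eq_one.1
      rw [card_sdiff_of_subset hm.2]; omega
    have hcm : c ∈ mb F (tr e i a b) \ tr e i a b := by rw [hc]; exact mem_singleton_self c
    rw [mem_sdiff] at hcm
    have hins : insert c (tr e i a b) = mb F (tr e i a b) := by
      rw [insert_eq, ← hc, sdiff_union_of_subset hm.2]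
    simp only [tr, mem_insert, not_or] at hcm
    refine ⟨(a, b, c), mem_coe.2 (mem_T3.2 ⟨hab, Ne.symm hcm.2.2.1, hcm.2.1, ha, hb, ?_, ?_⟩), rfl⟩
    · intro hce
      rcases eq_or_ne c i with h | h
      · exact him (h ▸ hcm.1)
      · exact hcm.2.2.2 (mem_erase.2 ⟨h, hce⟩)
    · simp only
      rw [hins]; exact hm.1

private lemma sumA' {P : Finset (Finset (Fin n))} {e : Finset (Fin n)} {F : Finset (Finset (Fin n))} {g : ℕ}
    (hF : IsFam k F) {i : Fin n} (he : e.card = k) (hi : i ∈ e) :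
    ∑ p ∈ pA k e F i, Real.log (cst k P e F i p.1 p.2 : ℝ) ≤
      (1 / 3 : ℝ) * Real.log (g : ℝ) * (pA k e F i).card + Real.log (n : ℝ) * (bad3 k P e F i g).card := by
  have hb := bijA hF he hi
  have h1 : ∑ p ∈ pA k e F i, Real.log (cst k P e F i p.1 p.2 : ℝ) =
      ∑ p ∈ T3 e F i, Real.log (cst k P e F i p.1 p.2.1 : ℝ) :=
    (sum_nbij (fun p : Fin n × Fin n × Fin n => (p.1, p.2.1)) (fun p hp => mem_coe.1 (hb.1 (mem_coe.2 hp)))
      hb.2.1 hb.2.2 (fun p _ => rfl)).symm
  have h2 : (pA k e F i).card = (T3 e F i).card :=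
    (card_nbij (fun p : Fin n × Fin n × Fin n => (p.1, p.2.1)) (fun p hp => mem_coe.1 (hb.1 (mem_coe.2 hp)))
      hb.2.1 hb.2.2).symm
  rw [h1, h2]
  exact sumA hF he hi

/-- the point and the member -/
private noncomputable def ph (e : Finset (Fin n)) (F : Finset (Finset (Fin n))) (i : Fin n)
    (p : Fin n × Fin n) : Fin n × Finset (Fin n) := (p.1, mb F (tr e i p.1 p.2))

private lemma mem_pB {e : Finset (Fin n)} {F : Finset (Finset (Fin n))} {i : Fin n} {p : Fin n × Fin n} :
    p ∈ pB k e F i ↔ (p.1 ≠ p.2 ∧ p.1 ∉ e ∧ p.2 ∉ e) ∧ (Cov F (tr e i p.1 p.2) ∧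
      i ∉ mb F (tr e i p.1 p.2)) ∧ (mb F (tr e i p.1 p.2)).card ≠ k + 2 := by
  simp [pB, pts]

private lemma cstB {P : Finset (Finset (Fin n))} {e : Finset (Fin n)} {F : Finset (Finset (Fin n))}
    {i : Fin n} {p : Fin n × Fin n} (hp : p ∈ pB k e F i) :
    cst k P e F i p.1 p.2 = (xset k P e F i p.1 p.2 (mb F (tr e i p.1 p.2))).card + 1 := by
  have h := mem_pB.1 hp
  rw [cst, if_pos h.2.1, if_neg h.2.2]

private lemma subB {e : Finset (Fin n)} {F : Finset (Finset (Fin n))}
    (hF : IsFam k F) {i : Fin n} {p : Fin n × Fin n} (hp : p ∈ pB k e F i) :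
    mb F (tr e i p.1 p.2) ∈ F ∧ k + 3 ≤ (mb F (tr e i p.1 p.2)).card ∧ i ∉ mb F (tr e i p.1 p.2) ∧
      e.erase i ⊆ mb F (tr e i p.1 p.2) ∧ p.1 ∈ mb F (tr e i p.1 p.2) ∧ p.2 ∈ mb F (tr e i p.1 p.2) := by
  have h := mem_pB.1 hp
  have hm := mbM h.2.1.1
  have h1 := (hF.1 _ hm.1).1
  have h2 := h.2.2
  refine ⟨hm.1, by omega, h.2.1.2, fun x hx => hm.2 ?_, hm.2 ?_, hm.2 ?_⟩
  · simp only [tr, mem_insert]; exact Or.inr (Or.inr hx)
  · simp [tr]
  · simp [tr]

open Classical in
private lemma fibB {P : Finset (Finset (Fin n))} {e : Finset (Fin n)} {F : Finset (Finset (Fin n))} {g h : ℕ}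
    (hF : IsFam k F) {i : Fin n} (he : e.card = k) (hi : i ∈ e) (hh : ∀ H ∈ F, H.card ≤ h)
    {d : Fin n × Finset (Fin n)} (hd : d ∈ (pB k e F i).image (ph e F i)) :
    ∑ p ∈ (pB k e F i).filter (fun p => ph e F i p = d), Real.log (cst k P e F i p.1 p.2 : ℝ) ≤
      (1 / 3 : ℝ) * Real.log (g : ℝ) * ((pB k e F i).filter (fun p => ph e F i p = d)).card +
      if (∃ p ∈ pB k e F i, ∃ p' ∈ pB k e F i, ∃ p'' ∈ pB k e F i, ph e F i p = d ∧ ph e F i p' = d ∧
        ph e F i p'' = d ∧ p ≠ p' ∧ p' ≠ p'' ∧ p'' ≠ p ∧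
        g ≤ cst k P e F i p.1 p.2 * cst k P e F i p'.1 p'.2 * cst k P e F i p''.1 p''.2)
      then (h : ℝ) * Real.log (n : ℝ) else 0 := by
  have hlogn : 0 ≤ Real.log (n : ℝ) := Real.log_natCast_nonneg n
  have hlogg : 0 ≤ Real.log (g : ℝ) := Real.log_natCast_nonneg g
  obtain ⟨⟨u, v₀⟩, hp₀, rfl⟩ := mem_image.1 hd
  have hs := subB hF hp₀
  have hm₀ := mem_pB.1 hp₀
  simp only at hs hm₀
  set R := mb F (tr e i u v₀) with hR
  set S := (pB k e F i).filter (fun p => ph e F i p = ph e F i (u, v₀)) with hS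
  have hph : ph e F i (u, v₀) = (u, R) := rfl
  have hSR : S.card ≤ R.card := by
    refine card_le_card_of_injOn (fun p => p.2) ?_ ?_
    · intro p hp
      have hp := mem_filter.1 (mem_coe.1 hp)
      have h2 := (subB hF hp.1).2.2.2.2.2
      have h3 : mb F (tr e i p.1 p.2) = R := by
        have := hp.2
        rw [hph] at this
        exact congrArg Prod.snd this
      rw [h3] at h2
      exact mem_coe.2 h2
    · intro p hp p' hp' heq
      have hp := (mem_filter.1 (mem_coe.1 hp)).2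
      have hp' := (mem_filter.1 (mem_coe.1 hp')).2
      rw [hph] at hp hp'
      exact Prod.ext ((congrArg Prod.fst hp).trans (congrArg Prod.fst hp').symm) heq
  split_ifs with hbad
  · have h1 : ∀ p ∈ S, Real.log (cst k P e F i p.1 p.2 : ℝ) ≤ Real.log (n : ℝ) := by
      intro p hp
      have hp := (mem_filter.1 hp).1
      have h2 := cst_pos (k := k) P e F i p.1 p.2
      exact Real.log_le_log (by exact_mod_cast h2)
        (by exact_mod_cast cst_le hF he hi (mem_pB.1 hp).1.2.2)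
    have h2 := sum_le_sum h1
    rw [sum_const, nsmul_eq_mul] at h2
    have h3 : (S.card : ℝ) * Real.log (n : ℝ) ≤ (h : ℝ) * Real.log (n : ℝ) :=
      mul_le_mul_of_nonneg_right (by exact_mod_cast hSR.trans (hh R hs.1)) hlogn
    have h4 : 0 ≤ (1 / 3 : ℝ) * Real.log (g : ℝ) * S.card := by positivity
    linarith only [h2, h3, h4]
  · rw [add_zero]
    refine three S (fun p => Real.log (cst k P e F i p.1 p.2 : ℝ)) (Real.log (g : ℝ)) ?_ ?_
    · -- at least three points
      have h1 : ((R \ e.erase i).erase u).card ≤ S.card := by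
        refine card_le_card_of_injOn (fun v => (u, v)) ?_ ?_
        · intro v hv
          have hv := mem_coe.1 hv
          rw [mem_erase, mem_sdiff] at hv
          have hve : v ∉ e := fun hve => hv.2.2 (mem_erase.2 ⟨fun hvi => hs.2.2.1 (hvi ▸ hv.2.1), hve⟩)
          have htc := trC he hi (Ne.symm hv.1) hm₀.1.2.1 hve
          have hsub : tr e i u v ⊆ R := by
            intro x hx
            simp only [tr, mem_insert] at hx
            rcases hx with h | h | h
            · exact h ▸ hs.2.2.2.2.1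
            · exact h ▸ hv.2.1
            · exact hs.2.2.2.1 h
          have hmb : mb F (tr e i u v) = R := mbR hF hs.1 hsub (by omega)
          refine mem_coe.2 (mem_filter.2 ⟨mem_pB.2 ⟨⟨Ne.symm hv.1, hm₀.1.2.1, hve⟩, ⟨⟨R, hs.1, hsub⟩, ?_⟩, ?_⟩, ?_⟩)
          · simp only; rw [hmb]; exact hs.2.2.1
          · simp only; rw [hmb]; omega
          · simp only [ph]; rw [hmb]
        · intro a _ b _ hab
          exact congrArg Prod.snd hab
      have h2 : ((R \ e.erase i).erase u).card = R.card - (k - 1) - 1 := by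
        rw [card_erase_of_mem (mem_sdiff.2 ⟨hs.2.2.2.2.1, fun hx => hm₀.1.2.1 (mem_of_mem_erase hx)⟩),
          card_sdiff_of_subset hs.2.2.2.1, card_erase_of_mem hi, he]
      have h3 : 0 < e.card := card_pos.2 ⟨i, hi⟩
      have h4 := hs.2.1
      omega
    · intro a ha b hb c hc hab hbc hca
      have ha' := mem_filter.1 ha
      have hb' := mem_filter.1 hb
      have hc' := mem_filter.1 hc
      have hlt : cst k P e F i a.1 a.2 * cst k P e F i b.1 b.2 * cst k P e F i c.1 c.2 < g := by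
        by_contra hcon
        push Not at hcon
        exact hbad ⟨a, ha'.1, b, hb'.1, c, hc'.1, ha'.2, hb'.2, hc'.2, hab, hbc, hca, hcon⟩
      have q1 : (0 : ℝ) < cst k P e F i a.1 a.2 := by exact_mod_cast cst_pos (k := k) P e F i a.1 a.2
      have q2 : (0 : ℝ) < cst k P e F i b.1 b.2 := by exact_mod_cast cst_pos (k := k) P e F i b.1 b.2
      have q3 : (0 : ℝ) < cst k P e F i c.1 c.2 := by exact_mod_cast cst_pos (k := k) P e F i c.1 c.2
      rw [← Real.log_mul q1.ne' q2.ne', ← Real.log_mul (by positivity) q3.ne']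
      refine Real.log_le_log (by positivity) ?_
      exact_mod_cast hlt.le

private lemma sumB {P : Finset (Finset (Fin n))} {e : Finset (Fin n)} {F : Finset (Finset (Fin n))} {g h : ℕ}
    (hF : IsFam k F) {i : Fin n} (he : e.card = k) (hi : i ∈ e) (hh : ∀ H ∈ F, H.card ≤ h) :
    ∑ p ∈ pB k e F i, Real.log (cst k P e F i p.1 p.2 : ℝ) ≤
      (1 / 3 : ℝ) * Real.log (g : ℝ) * (pB k e F i).card +
        (h : ℝ) * Real.log (n : ℝ) * (bad4 k P e F i g).card := by
  classical
  have hlogn : 0 ≤ Real.log (n : ℝ) := Real.log_natCast_nonneg n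
  have hmaps : ∀ p ∈ pB k e F i, ph e F i p ∈ (pB k e F i).image (ph e F i) := fun p hp => mem_image_of_mem _ hp
  rw [← sum_fiberwise_of_maps_to hmaps, card_eq_sum_card_fiberwise (fun p hp => hmaps p hp)]
  refine (sum_le_sum fun d hd => fibB (P := P) (g := g) hF he hi hh hd).trans ?_
  rw [sum_add_distrib, ← mul_sum, ← sum_filter, sum_const, nsmul_eq_mul]
  push_cast
  refine add_le_add le_rfl ?_
  rw [mul_comm]
  refine mul_le_mul_of_nonneg_left ?_ (by positivity)
  have hcard : ((pB k e F i).image (ph e F i) |>.filter (fun d => ∃ p ∈ pB k e F i, ∃ p' ∈ pB k e F i,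
      ∃ p'' ∈ pB k e F i, ph e F i p = d ∧ ph e F i p' = d ∧
        ph e F i p'' = d ∧ p ≠ p' ∧ p' ≠ p'' ∧ p'' ≠ p ∧
        g ≤ cst k P e F i p.1 p.2 * cst k P e F i p'.1 p'.2 * cst k P e F i p''.1 p''.2)).card ≤
      (bad4 k P e F i g).card := by
    refine card_le_card_of_surjOn (fun q : Fin n × Fin n × Fin n × Fin n => ph e F i (q.1, q.2.1)) ?_
    rintro d hd
    obtain ⟨-, ⟨u, a⟩, ha, ⟨u', b⟩, hb, ⟨u'', c⟩, hc, hpa, hpb, hpc, hab, hbc, hca, hg⟩ := mem_filter.1 (mem_coe.1 hd)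
    have hu' : u' = u := (congrArg Prod.fst hpb).trans (congrArg Prod.fst hpa).symm
    have hu'' : u'' = u := (congrArg Prod.fst hpc).trans (congrArg Prod.fst hpa).symm
    subst hu' hu''
    have hRb : mb F (tr e i u'' b) = mb F (tr e i u'' a) := (congrArg Prod.snd hpb).trans (congrArg Prod.snd hpa).symm
    have hRc : mb F (tr e i u'' c) = mb F (tr e i u'' a) := (congrArg Prod.snd hpc).trans (congrArg Prod.snd hpa).symm
    have ma := (mem_pB.1 ha).1
    have mb' := (mem_pB.1 hb).1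
    have mc := (mem_pB.1 hc).1
    have sa := subB hF ha
    have sb := subB hF hb
    have sc := subB hF hc
    simp only at ma mb' mc sa sb sc
    rw [hRb] at sb
    rw [hRc] at sc
    refine ⟨(u'', a, b, c), mem_coe.2 ?_, hpa⟩
    simp only [bad4, mem_filter]
    refine ⟨mem_univ _, ma.1, mb'.1, mc.1, fun h => hab (by rw [h]), fun h => hca (by rw [h]),
      fun h => hbc (by rw [h]), ma.2.1, ma.2.2, mb'.2.2, mc.2.2, mb F (tr e i u'' a), sa.1, sa.2.1, sa.2.2.1,
      sa.2.2.2.1, sa.2.2.2.2.1, sa.2.2.2.2.2, sb.2.2.2.2.2, sc.2.2.2.2.2, ?_⟩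
    rw [cstB ha, cstB hb, cstB hc] at hg
    simp only at hg
    rw [hRb, hRc] at hg
    exact hg
  exact_mod_cast hcard

end KF

open KF in
theorem sum_log {P : Finset (Finset (Fin n))} {e : Finset (Fin n)} {t g h : ℕ} (hk : 2 ≤ k)
    (he : e.card = k) {i : Fin n} (hi : i ∈ e) (hg : 1 ≤ g) {F : Finset (Finset (Fin n))}
    (hF : F ∈ FT k P e t) (hh : ∀ H ∈ F, H.card ≤ h) :
    ∑ p ∈ pts e, Real.log (cst k P e F i p.1 p.2 : ℝ) ≤
      (1 / 3 : ℝ) * Real.log (g : ℝ) * (n : ℝ) ^ 2 +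
        Real.log (n : ℝ) * (((bad3 k P e F i g).card : ℝ) + (h : ℝ) * ((bad4 k P e F i g).card : ℝ)) := by
  classical
  have hFam : IsFam k F := by
    have h1 := (mem_filter.1 hF).1
    have h2 := (mem_filter.1 h1).1
    exact (mem_filter.1 h2).2
  have hlogg : 0 ≤ Real.log (g : ℝ) := Real.log_natCast_nonneg g
  have hA := sumA' (P := P) (g := g) hFam he hi
  have hB := sumB (P := P) (g := g) hFam he hi hh
  have hsplit : ∑ p ∈ pts e, Real.log (cst k P e F i p.1 p.2 : ℝ) =
      ∑ p ∈ pA k e F i, Real.log (cst k P e F i p.1 p.2 : ℝ) +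
      ∑ p ∈ pB k e F i, Real.log (cst k P e F i p.1 p.2 : ℝ) := by
    have h0 : ∑ p ∈ (pts e).filter (fun p => ¬ (Cov F (tr e i p.1 p.2) ∧ i ∉ mb F (tr e i p.1 p.2))),
        Real.log (cst k P e F i p.1 p.2 : ℝ) = 0 := by
      refine sum_eq_zero fun p hp => ?_
      rw [cst, if_neg (mem_filter.1 hp).2, Nat.cast_one, Real.log_one]
    rw [← sum_filter_add_sum_filter_not (pts e) (fun p => Cov F (tr e i p.1 p.2) ∧ i ∉ mb F (tr e i p.1 p.2)), h0,
      add_zero, ← sum_filter_add_sum_filter_not ((pts e).filter (fun p => Cov F (tr e i p.1 p.2) ∧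
        i ∉ mb F (tr e i p.1 p.2))) (fun p => (mb F (tr e i p.1 p.2)).card = k + 2), filter_filter, filter_filter]
    rfl
  have hcard : (pA k e F i).card + (pB k e F i).card ≤ n ^ 2 := by
    have hdis : Disjoint (pA k e F i) (pB k e F i) := by
      rw [disjoint_left]
      intro p hp hp'
      exact (mem_filter.1 hp').2.2 (mem_filter.1 hp).2.2
    rw [← card_union_of_disjoint hdis]
    refine (card_le_univ _).trans ?_
    rw [Fintype.card_prod, Fintype.card_fin, sq]
  rw [hsplit]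
  have h2 : (1 / 3 : ℝ) * Real.log (g : ℝ) * ((pA k e F i).card + (pB k e F i).card) ≤
      (1 / 3 : ℝ) * Real.log (g : ℝ) * (n : ℝ) ^ 2 :=
    mul_le_mul_of_nonneg_left (by exact_mod_cast hcard) (by positivity)
  linarith only [hA, hB, h2]

end Pool.Agent.RKP
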