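import Pool.Agent.RKP.KF

/-!
Many good pairs for one family.
-/

set_option autoImplicit false

namespace Pool.Agent.RKP

open Finset

variable {n k : ℕ}

theorem kg_cst_pos (k : ℕ) (P : Finset (Finset (Fin n))) (e : Finset (Fin n))
    (F : Finset (Finset (Fin n))) (i u v : Fin n) : 1 ≤ cst k P e F i u v := by
  unfold cst
  split_ifs <;> omega

theorem kg_pts_card {e : Finset (Fin n)} (he : e.card = k) :
    (pts e).card = (n - k) * (n - k) - (n - k) := by
  classical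
  have h1 : pts e = (eᶜ).offDiag := by
    ext ⟨a, b⟩
    simp only [pts, mem_filter, mem_univ, true_and, mem_offDiag, mem_compl]
    tauto
  have h2 : (eᶜ).card = n - k := by
    rw [card_compl, Fintype.card_fin, he]
  rw [h1, offDiag_card, h2]

open Classical in
theorem kg_cov_card {P : Finset (Finset (Fin n))} {e : Finset (Fin n)} {t : ℕ}
    (he : e.card = k) {F : Finset (Finset (Fin n))} (hF : F ∈ FT k P e t) :
    (univ.filter (fun u => u ∉ e ∧ Cov F (insert u e))).card ≤ 2 * t := by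
  have h1 : F ∈ AA k P ∧ (∀ H ∈ F, e ⊆ H → H.card = k + 2) ∧
      (F.filter (fun H => e ⊆ H)).card = t := by
    simpa [FT, mem_filter] using hF
  obtain ⟨-, h2, h3⟩ := h1
  have h4 : (univ.filter (fun u => u ∉ e ∧ Cov F (insert u e))) ⊆
      (F.filter (fun H => e ⊆ H)).biUnion (fun H => H \ e) := by
    intro u hu
    simp only [mem_filter, mem_univ, true_and] at hu
    obtain ⟨hue, H, hH, hs⟩ := hu
    rw [mem_biUnion]
    refine ⟨H, mem_filter.2 ⟨hH, (subset_insert u e).trans hs⟩, ?_⟩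
    exact mem_sdiff.2 ⟨hs (mem_insert_self u e), hue⟩
  refine (card_le_card h4).trans ?_
  refine (card_biUnion_le_card_mul _ _ 2 ?_).trans (by rw [h3, mul_comm])
  intro H hH
  obtain ⟨hH, heH⟩ := mem_filter.1 hH
  rw [card_sdiff_of_subset heH, h2 H hH heH, he]
  omega

theorem many_good {P : Finset (Finset (Fin n))} {e : Finset (Fin n)} {t q : ℕ} (hk : 2 ≤ k)
    (hk5 : k ≤ 5) (he : e.card = k) (hq : 1000 ≤ q) (hqn : q ^ 240 ≤ n) (ht : 1000 * (t + 1) ≤ q)
    (hd : 100 * (inad P e).card ≤ n ^ 2) {F : Finset (Finset (Fin n))} (hF : F ∈ FT k P e t)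
    (hh : ∀ H ∈ F, H.card ≤ q)
    (hb : ∀ i ∈ e, 100 * ((bad3 k P e F i (n * q ^ 6)).card +
      q * (bad4 k P e F i (n * q ^ 6)).card) ≤ n ^ 2) :
    n ^ 2 ≤ 20 * (good k P e F (q ^ 16) (n ^ 2)).card := by
  classical
  -- sizes
  have hq0 : (0 : ℝ) < q := by
    have : 0 < q := by omega
    exact_mod_cast this
  have hqn1 : q * q ≤ n := by
    calc q * q = q ^ 2 := by ring
      _ ≤ q ^ 240 := Nat.pow_le_pow_right (by omega) (by norm_num)
      _ ≤ n := hqn
  have hn1 : 1000 * (1000 * (t + 1)) ≤ n := by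
    calc 1000 * (1000 * (t + 1)) ≤ q * q := Nat.mul_le_mul hq ht
      _ ≤ n := hqn1
  have hn0 : (0 : ℝ) < n := by
    have : 0 < n := by omega
    exact_mod_cast this
  set L := Real.log (n : ℝ) with hL
  have hLpos : 0 < L := Real.log_pos (by
    have : 1 < n := by omega
    exact_mod_cast this)
  have hlq : 240 * Real.log (q : ℝ) ≤ L := by
    have h1 : Real.log ((q : ℝ) ^ 240) ≤ L :=
      Real.log_le_log (by positivity) (by exact_mod_cast hqn)
    rw [Real.log_pow] at h1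
    exact_mod_cast h1
  have hlq0 : 0 ≤ Real.log (q : ℝ) := Real.log_nonneg (by
    have : 1 ≤ q := by omega
    exact_mod_cast this)
  have hlg : Real.log ((n * q ^ 6 : ℕ) : ℝ) = L + 6 * Real.log (q : ℝ) := by
    push_cast
    rw [Real.log_mul hn0.ne' (by positivity), Real.log_pow]
    push_cast
    ring
  -- the sum of the logarithms
  have hsum : ∀ i ∈ e, ∑ p ∈ pts e, Real.log (cst k P e F i p.1 p.2 : ℝ) ≤
      (1.025 / 3 + 1 / 100) * L * (n : ℝ) ^ 2 := by
    intro i hi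
    have h1 := sum_log (g := n * q ^ 6) (h := q) hk he hi (by
      have : 0 < n * q ^ 6 := by
        have h2 : 0 < n := by omega
        have h3 : 0 < q := by omega
        positivity
      omega) hF hh
    have h2 : ((bad3 k P e F i (n * q ^ 6)).card : ℝ) +
        (q : ℝ) * ((bad4 k P e F i (n * q ^ 6)).card : ℝ) ≤ (n : ℝ) ^ 2 / 100 := by
      have h3 : (100 : ℝ) * (((bad3 k P e F i (n * q ^ 6)).card : ℝ) +
        (q : ℝ) * ((bad4 k P e F i (n * q ^ 6)).card : ℝ)) ≤ (n : ℝ) ^ 2 := by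
        exact_mod_cast hb i hi
      linarith
    refine h1.trans ?_
    rw [hlg]
    have h3 : L * (((bad3 k P e F i (n * q ^ 6)).card : ℝ) +
        (q : ℝ) * ((bad4 k P e F i (n * q ^ 6)).card : ℝ)) ≤ L * ((n : ℝ) ^ 2 / 100) :=
      mul_le_mul_of_nonneg_left h2 hLpos.le
    have h4 : (1 / 3 : ℝ) * (L + 6 * Real.log (q : ℝ)) * (n : ℝ) ^ 2 ≤
        (1 / 3 : ℝ) * (1.025 * L) * (n : ℝ) ^ 2 := by
      apply mul_le_mul_of_nonneg_right _ (by positivity)
      linarith
    linarith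
  -- pairs with a large price
  set B := (pts e).filter (fun p => n ^ 2 < (∏ i ∈ e, cst k P e F i p.1 p.2) * q ^ 16) with hB
  have hBcard : (B.card : ℝ) * ((29 / 15 : ℝ) * L) ≤ 5 * ((1.025 / 3 + 1 / 100) * L * (n : ℝ) ^ 2) := by
    have h1 : ∀ p ∈ B, (29 / 15 : ℝ) * L ≤ ∑ i ∈ e, Real.log (cst k P e F i p.1 p.2 : ℝ) := by
      intro p hp
      have h2 : n ^ 2 < (∏ i ∈ e, cst k P e F i p.1 p.2) * q ^ 16 := (mem_filter.1 hp).2
      have h3 : ((n : ℝ) ^ 2) ≤ (∏ i ∈ e, (cst k P e F i p.1 p.2 : ℝ)) * (q : ℝ) ^ 16 := by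
        exact_mod_cast h2.le
      have hprod : (0 : ℝ) < ∏ i ∈ e, (cst k P e F i p.1 p.2 : ℝ) := by
        refine prod_pos fun i _ => ?_
        have := kg_cst_pos k P e F i p.1 p.2
        exact_mod_cast this
      have h4 := Real.log_le_log (by positivity) h3
      rw [Real.log_mul hprod.ne' (by positivity), Real.log_pow, Real.log_pow,
        Real.log_prod (fun i _ => by
          have := kg_cst_pos k P e F i p.1 p.2
          have h5 : (0 : ℝ) < cst k P e F i p.1 p.2 := by exact_mod_cast this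
          exact h5.ne')] at h4
      push_cast at h4
      linarith
    have h2 : (B.card : ℝ) * ((29 / 15 : ℝ) * L) ≤
        ∑ p ∈ B, ∑ i ∈ e, Real.log (cst k P e F i p.1 p.2 : ℝ) := by
      have := card_nsmul_le_sum B (fun p => ∑ i ∈ e, Real.log (cst k P e F i p.1 p.2 : ℝ))
        ((29 / 15 : ℝ) * L) h1
      simpa [nsmul_eq_mul] using this
    have h3 : ∑ p ∈ B, ∑ i ∈ e, Real.log (cst k P e F i p.1 p.2 : ℝ) ≤
        ∑ p ∈ pts e, ∑ i ∈ e, Real.log (cst k P e F i p.1 p.2 : ℝ) := by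
      refine sum_le_sum_of_subset_of_nonneg (filter_subset _ _) fun p _ _ => ?_
      refine sum_nonneg fun i _ => Real.log_nonneg ?_
      exact_mod_cast kg_cst_pos k P e F i p.1 p.2
    have h4 : ∑ p ∈ pts e, ∑ i ∈ e, Real.log (cst k P e F i p.1 p.2 : ℝ) ≤
        (k : ℝ) * ((1.025 / 3 + 1 / 100) * L * (n : ℝ) ^ 2) := by
      rw [sum_comm]
      have := sum_le_card_nsmul e (fun i => ∑ p ∈ pts e, Real.log (cst k P e F i p.1 p.2 : ℝ))
        ((1.025 / 3 + 1 / 100) * L * (n : ℝ) ^ 2) hsum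
      rw [he, nsmul_eq_mul] at this
      exact this
    have h5 : (k : ℝ) * ((1.025 / 3 + 1 / 100) * L * (n : ℝ) ^ 2) ≤
        5 * ((1.025 / 3 + 1 / 100) * L * (n : ℝ) ^ 2) := by
      apply mul_le_mul_of_nonneg_right _ (by positivity)
      exact_mod_cast hk5
    linarith
  have hBcard' : (B.card : ℝ) ≤ 0.91 * (n : ℝ) ^ 2 := by
    have h1 : (B.card : ℝ) * (29 / 15 : ℝ) ≤ 5 * ((1.025 / 3 + 1 / 100) * (n : ℝ) ^ 2) := by
      have h2 : ((B.card : ℝ) * (29 / 15 : ℝ)) * L ≤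
          (5 * ((1.025 / 3 + 1 / 100) * (n : ℝ) ^ 2)) * L := by
        calc ((B.card : ℝ) * (29 / 15 : ℝ)) * L = (B.card : ℝ) * ((29 / 15 : ℝ) * L) := by ring
          _ ≤ _ := hBcard
          _ = _ := by ring
      exact le_of_mul_le_mul_right h2 hLpos
    have h3 : (0 : ℝ) ≤ (n : ℝ) ^ 2 := by positivity
    norm_num at h1 ⊢
    nlinarith
  -- covered pairs
  set U := (univ : Finset (Fin n)).filter (fun u => u ∉ e ∧ Cov F (insert u e)) with hU
  have hUcard : U.card ≤ 2 * t := kg_cov_card he hF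
  -- the covering of the pairs
  have hcov : pts e ⊆ good k P e F (q ^ 16) (n ^ 2) ∪ (B ∪ (inad P e ∪ (U ×ˢ univ ∪ univ ×ˢ U))) := by
    intro p hp
    have hp' : p.1 ≠ p.2 ∧ p.1 ∉ e ∧ p.2 ∉ e := by simpa [pts] using hp
    simp only [mem_union, mem_product, mem_univ, and_true, true_and]
    by_cases h1 : Cov F (insert p.1 e)
    · exact Or.inr (Or.inr (Or.inr (Or.inl (mem_filter.2 ⟨mem_univ _, hp'.2.1, h1⟩))))
    by_cases h2 : Cov F (insert p.2 e)
    · exact Or.inr (Or.inr (Or.inr (Or.inr (mem_filter.2 ⟨mem_univ _, hp'.2.2, h2⟩))))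
    by_cases h3 : ∃ f ∈ P, f ⊆ insert p.1 (insert p.2 e)
    · exact Or.inr (Or.inr (Or.inl (mem_filter.2 ⟨hp, h3⟩)))
    by_cases h4 : n ^ 2 < (∏ i ∈ e, cst k P e F i p.1 p.2) * q ^ 16
    · exact Or.inr (Or.inl (mem_filter.2 ⟨hp, h4⟩))
    · refine Or.inl (mem_filter.2 ⟨hp, h1, h2, ?_, not_lt.1 h4⟩)
      intro f hf hs
      exact h3 ⟨f, hf, hs⟩
  have hcount : (pts e).card ≤ (good k P e F (q ^ 16) (n ^ 2)).card + (B.card +
      ((inad P e).card + (2 * t * n + n * (2 * t)))) := by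
    refine (card_le_card hcov).trans ((card_union_le _ _).trans ?_)
    refine Nat.add_le_add_left ((card_union_le _ _).trans ?_) _
    refine Nat.add_le_add_left ((card_union_le _ _).trans ?_) _
    refine Nat.add_le_add_left ((card_union_le _ _).trans ?_) _
    rw [card_product, card_product, card_univ, Fintype.card_fin]
    exact Nat.add_le_add (Nat.mul_le_mul_right _ hUcard) (Nat.mul_le_mul_left _ hUcard)
  rw [kg_pts_card he] at hcount
  -- conclusion in the reals
  have hnk : ((n - k : ℕ) : ℝ) = (n : ℝ) - k := by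
    rw [Nat.cast_sub]
    omega
  have hc2 : ((n : ℝ) - k) * ((n : ℝ) - k) - ((n : ℝ) - k) ≤
      ((good k P e F (q ^ 16) (n ^ 2)).card : ℝ) + ((B.card : ℝ) +
      (((inad P e).card : ℝ) + (2 * t * n + n * (2 * t)))) := by
    have h1 : (((n - k) * (n - k) - (n - k) : ℕ) : ℝ) ≤
      (((good k P e F (q ^ 16) (n ^ 2)).card + (B.card +
      ((inad P e).card + (2 * t * n + n * (2 * t)))) : ℕ) : ℝ) := by exact_mod_cast hcount
    rw [Nat.cast_sub (Nat.le_mul_self _)] at h1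
    push_cast at h1
    rw [hnk] at h1
    exact h1
  have hdr : (100 : ℝ) * ((inad P e).card : ℝ) ≤ (n : ℝ) ^ 2 := by exact_mod_cast hd
  have hn1r : (1000000 : ℝ) * ((t : ℝ) + 1) ≤ n := by
    have : ((1000 * (1000 * (t + 1)) : ℕ) : ℝ) ≤ (n : ℝ) := by exact_mod_cast hn1
    push_cast at this
    linarith
  have hk5r : (k : ℝ) ≤ 5 := by exact_mod_cast hk5
  have hk0r : (0 : ℝ) ≤ k := by positivity
  have ht0 : (0 : ℝ) ≤ t := by positivity
  have hfin : (n : ℝ) ^ 2 ≤ 20 * ((good k P e F (q ^ 16) (n ^ 2)).card : ℝ) := by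
    have h1 : ((n : ℝ) - k) * ((n : ℝ) - k) - ((n : ℝ) - k) ≥ (n : ℝ) ^ 2 - 11 * n := by
      nlinarith
    have h2 : (4 : ℝ) * t * n + 11 * n ≤ 0.0001 * (n : ℝ) ^ 2 := by
      have h3 : (4 : ℝ) * t + 11 ≤ 0.0001 * n := by linarith
      nlinarith
    nlinarith
  exact_mod_cast hfin

end Pool.Agent.RKP
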