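import Pool.Agent.RKP.KB
import Pool.Agent.RKP.KC
import Pool.Agent.RKP.KD
import Pool.Agent.RKP.KE
import Pool.Agent.RKP.KG

/-!
MP_039b14_co, ranks four to seven, module KH: the step. Families without a member through `e` are
rarer by any power of `n` than the families in `AA k P`.
-/

set_option autoImplicit false

namespace Pool.Agent.RKP

open Finset

variable {n k : ℕ}

theorem AA_insert (P : Finset (Finset (Fin n))) (e : Finset (Fin n)) :
    AA k (insert e P) = FT k P e 0 := by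
  classical
  ext F
  simp only [AA, FT, mem_filter, Finset.card_eq_zero, Finset.filter_eq_empty_iff, mem_insert]
  constructor
  · rintro ⟨h1, h2⟩
    have h3 : ∀ H ∈ F, ¬ e ⊆ H := fun H hH he => h2 e (Or.inl rfl) ⟨H, hH, he⟩
    exact ⟨⟨h1, fun f hf => h2 f (Or.inr hf)⟩, fun H hH he => absurd he (h3 H hH),
      fun H hH => h3 H hH⟩
  · rintro ⟨⟨h1, h2⟩, _, h3⟩
    refine ⟨h1, ?_⟩
    rintro f (rfl | hf)
    · rintro ⟨H, hH, hsub⟩
      exact h3 hH hsub
    · exact h2 f hf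

theorem FT_card_le (P : Finset (Finset (Fin n))) (e : Finset (Fin n)) (t : ℕ) :
    (FT k P e t).card ≤ (AA k P).card := card_le_card (filter_subset _ _)

theorem exists_root (n : ℕ) : ∃ q : ℕ, q ^ 240 ≤ n ∧ n < (q + 1) ^ 240 := by
  induction n with
  | zero => exact ⟨0, by norm_num, by norm_num⟩
  | succ n ih =>
    obtain ⟨q, h1, h2⟩ := ih
    by_cases h : n + 1 < (q + 1) ^ 240
    · exact ⟨q, by omega, h⟩
    · have hlt : (q + 1) ^ 240 < (q + 1 + 1) ^ 240 := Nat.pow_lt_pow_left (by omega) (by norm_num)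
      exact ⟨q + 1, by omega, by omega⟩

/-- the exponent for the giants -/
theorem giant_num {q m : ℕ} (hk : 2 ≤ k) (hk5 : k ≤ 5) (hq : 2 ^ 24 ≤ q) (hn : n < (q + 1) ^ 240)
    (hm : q < m) : 8 * n * n ^ m ≤ 2 ^ ((m / (k + 2)) ^ (k + 1)) := by
  have hm24 : 2 ^ 24 ≤ m := by omega
  have h1 : n ≤ 2 ^ (240 * m) := by
    have h2 : (q + 1) ^ 240 ≤ m ^ 240 := Nat.pow_le_pow_left (by omega) 240
    have h3 : m ^ 240 ≤ (2 ^ m) ^ 240 := Nat.pow_le_pow_left Nat.lt_two_pow_self.le 240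
    rw [← pow_mul, mul_comm m 240] at h3
    omega
  have h4 : 8 * n * n ^ m ≤ 2 ^ (3 + 240 * m * (m + 1)) := by
    calc 8 * n * n ^ m = 2 ^ 3 * n ^ (m + 1) := by ring
      _ ≤ 2 ^ 3 * (2 ^ (240 * m)) ^ (m + 1) :=
          Nat.mul_le_mul_left _ (Nat.pow_le_pow_left h1 _)
      _ = 2 ^ (3 + 240 * m * (m + 1)) := by rw [← pow_mul, ← pow_add]
  refine h4.trans (Nat.pow_le_pow_right (by norm_num) ?_)
  set s := m / (k + 2) with hs
  have hs14 : m ≤ 14 * s := by
    have h5 : m / 7 ≤ s := Nat.div_le_div_left (by omega) (by omega)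
    omega
  have hs1 : 1 ≤ s := by omega
  have h6 : s ^ 3 ≤ s ^ (k + 1) := Nat.pow_le_pow_right hs1 (by omega)
  refine le_trans ?_ h6
  have h7 : 2744 * (3 + 240 * m * (m + 1)) ≤ m ^ 3 := by
    have h8 : 3 + 240 * m * (m + 1) ≤ 480 * (m * m) := by
      have e1 : 240 * m * (m + 1) = 240 * (m * m) + 240 * m := by ring
      have e2 : 2 * m ≤ m * m := Nat.mul_le_mul_right _ (by omega)
      rw [e1]
      omega
    calc 2744 * (3 + 240 * m * (m + 1)) ≤ 2744 * (480 * (m * m)) := Nat.mul_le_mul_left _ h8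
      _ = 1317120 * (m * m) := by ring
      _ ≤ m * (m * m) := Nat.mul_le_mul_right _ (by omega)
      _ = m ^ 3 := by ring
  have h9 : m ^ 3 ≤ 2744 * s ^ 3 := by
    calc m ^ 3 ≤ (14 * s) ^ 3 := Nat.pow_le_pow_left hs14 3
      _ = 2744 * s ^ 3 := by ring
  omega

open Classical in
theorem giants_small (hk : 2 ≤ k) (hk5 : k ≤ 5) (P : Finset (Finset (Fin n)))
    (e : Finset (Fin n)) (t : ℕ) {q : ℕ} (hq : 2 ^ 24 ≤ q) (hn : n < (q + 1) ^ 240) :
    8 * ((FT k P e t).filter (fun F => ∃ H ∈ F, q < H.card)).card ≤ (FT k P e t).card := by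
  rcases Nat.eq_zero_or_pos n with h0 | hn0
  · have : (FT k P e t).filter (fun F => ∃ H ∈ F, q < H.card) = ∅ := by
      rw [filter_eq_empty_iff]
      rintro F - ⟨H, -, hH⟩
      have := card_le_univ H
      rw [Fintype.card_fin] at this
      omega
    rw [this]; simp
  set G := fun m : ℕ => (FT k P e t).filter (fun F => ∃ H ∈ F, H.card = m) with hG
  have h1 : (FT k P e t).filter (fun F => ∃ H ∈ F, q < H.card) ⊆ (Ioc q n).biUnion G := by
    intro F hF
    rw [mem_filter] at hF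
    obtain ⟨hF1, H, hH, hc⟩ := hF
    rw [mem_biUnion]
    have h2 := card_le_univ H
    rw [Fintype.card_fin] at h2
    exact ⟨H.card, mem_Ioc.2 ⟨hc, h2⟩, mem_filter.2 ⟨hF1, H, hH, rfl⟩⟩
  have h2 : ∀ m ∈ Ioc q n, 8 * n * (G m).card ≤ (FT k P e t).card := by
    intro m hm
    have hqm := (mem_Ioc.1 hm).1
    have hm3 : k + 3 ≤ m := (Nat.add_le_add_right hk5 3).trans
      ((le_trans (by norm_num) hq : 5 + 3 ≤ q).trans hqm.le)
    have hg := giants (k := k) P e t m hm3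
    have hnum := giant_num (n := n) hk hk5 hq hn hqm
    have hpos : 0 < n ^ m := pow_pos hn0 m
    have h3 : n ^ m * (8 * n * (G m).card) ≤ n ^ m * (FT k P e t).card := by
      calc n ^ m * (8 * n * (G m).card) = (G m).card * (8 * n * n ^ m) := by ring
        _ ≤ (G m).card * 2 ^ ((m / (k + 2)) ^ (k + 1)) := Nat.mul_le_mul_left _ hnum
        _ ≤ n ^ m * (FT k P e t).card := hg
    exact Nat.le_of_mul_le_mul_left h3 hpos
  have h3 : n * (8 * ((FT k P e t).filter (fun F => ∃ H ∈ F, q < H.card)).card) ≤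
      n * (FT k P e t).card := by
    calc n * (8 * ((FT k P e t).filter (fun F => ∃ H ∈ F, q < H.card)).card)
        ≤ n * (8 * ∑ m ∈ Ioc q n, (G m).card) := by
          apply Nat.mul_le_mul_left
          apply Nat.mul_le_mul_left
          exact (card_le_card h1).trans card_biUnion_le
      _ = ∑ m ∈ Ioc q n, 8 * n * (G m).card := by
          rw [Finset.mul_sum, Finset.mul_sum]
          exact Finset.sum_congr rfl fun m _ => by ring
      _ ≤ ∑ m ∈ Ioc q n, (FT k P e t).card := Finset.sum_le_sum h2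
      _ = (n - q) * (FT k P e t).card := by rw [sum_const, Nat.card_Ioc, smul_eq_mul]
      _ ≤ n * (FT k P e t).card := Nat.mul_le_mul_right _ (Nat.sub_le _ _)
  exact Nat.le_of_mul_le_mul_left h3 hn0

open Classical in
/-- the families with many elements in `bad3` or `bad4` are rare -/
theorem exc_small (hk : 2 ≤ k) (P : Finset (Finset (Fin n))) {e : Finset (Fin n)}
    (he : e.card = k) (t : ℕ) {q : ℕ} (hq : 2 ^ 24 ≤ q) (hn : k + 3 ≤ n) {i : Fin n} (hi : i ∈ e) :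
    40 * ((FT k P e t).filter (fun F => (∀ H ∈ F, H.card ≤ q) ∧
      n ^ 2 < 100 * ((bad3 k P e F i (n * q ^ 6)).card +
        q * (bad4 k P e F i (n * q ^ 6)).card))).card ≤ (FT k P e t).card := by
  have hq1 : 1 ≤ q := by omega
  have hn0 : 0 < n := by omega
  set T := (FT k P e t).card with hT
  set S := (FT k P e t).filter (fun F => ∀ H ∈ F, H.card ≤ q) with hS
  set b3 := fun F => (bad3 k P e F i (n * q ^ 6)).card with hb3
  set b4 := fun F => (bad4 k P e F i (n * q ^ 6)).card with hb4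
  have h3 := sum_bad3 P e t (n * q ^ 6) (by omega) hn he hi
  have h4 := sum_bad4 P e t (n * q ^ 6) q (by omega) hq1 he hi
  have h3' : q ^ 6 * ∑ F ∈ S, b3 F ≤ 48 * n ^ 2 * T := by
    have h5 : ∑ F ∈ S, b3 F ≤ ∑ F ∈ FT k P e t, b3 F :=
      Finset.sum_le_sum_of_subset (filter_subset _ _)
    have h6 : n * (q ^ 6 * ∑ F ∈ FT k P e t, b3 F) ≤ n * (48 * n ^ 2 * T) := by
      calc n * (q ^ 6 * ∑ F ∈ FT k P e t, b3 F) = n * q ^ 6 * ∑ F ∈ FT k P e t, b3 F := by ring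
        _ ≤ 48 * n ^ 3 * T := h3
        _ = n * (48 * n ^ 2 * T) := by ring
    exact (Nat.mul_le_mul_left _ h5).trans (Nat.le_of_mul_le_mul_left h6 hn0)
  have h4' : q ^ 3 * ∑ F ∈ S, b4 F ≤ 48 * n ^ 2 * T := by
    have h6 : (n * q ^ 3) * (q ^ 3 * ∑ F ∈ S, b4 F) ≤ (n * q ^ 3) * (48 * n ^ 2 * T) := by
      calc (n * q ^ 3) * (q ^ 3 * ∑ F ∈ S, b4 F) = n * q ^ 6 * ∑ F ∈ S, b4 F := by ring
        _ ≤ 48 * q ^ 3 * n ^ 3 * T := h4
        _ = (n * q ^ 3) * (48 * n ^ 2 * T) := by ring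
    exact Nat.le_of_mul_le_mul_left h6 (by positivity)
  set B := (FT k P e t).filter (fun F => (∀ H ∈ F, H.card ≤ q) ∧
      n ^ 2 < 100 * (b3 F + q * b4 F)) with hB
  have hBS : B ⊆ S := by
    intro F hF
    rw [hB, mem_filter] at hF
    rw [hS, mem_filter]
    exact ⟨hF.1, hF.2.1⟩
  have h7 : n ^ 2 * B.card ≤ 100 * (∑ F ∈ S, b3 F + q * ∑ F ∈ S, b4 F) := by
    calc n ^ 2 * B.card = ∑ F ∈ B, n ^ 2 := by rw [sum_const, smul_eq_mul, mul_comm]
      _ ≤ ∑ F ∈ B, 100 * (b3 F + q * b4 F) := by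
          refine Finset.sum_le_sum fun F hF => ?_
          rw [hB, mem_filter] at hF
          exact hF.2.2.le
      _ ≤ ∑ F ∈ S, 100 * (b3 F + q * b4 F) := Finset.sum_le_sum_of_subset hBS
      _ = 100 * (∑ F ∈ S, b3 F + q * ∑ F ∈ S, b4 F) := by
          rw [← Finset.mul_sum, Finset.sum_add_distrib, ← Finset.mul_sum]
  set s3 := ∑ F ∈ S, b3 F with hs3
  set s4 := ∑ F ∈ S, b4 F with hs4
  have h8 : q ^ 2 * s3 ≤ 48 * n ^ 2 * T :=
    (Nat.mul_le_mul_right _ (Nat.pow_le_pow_right hq1 (by norm_num))).trans h3'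
  have h9 : q ^ 2 * (q * s4) ≤ 48 * n ^ 2 * T := by
    calc q ^ 2 * (q * s4) = q ^ 3 * s4 := by ring
      _ ≤ _ := h4'
  have h10 : n ^ 2 * (q ^ 2 * B.card) ≤ n ^ 2 * (9600 * T) := by
    calc n ^ 2 * (q ^ 2 * B.card) = q ^ 2 * (n ^ 2 * B.card) := by ring
      _ ≤ q ^ 2 * (100 * (s3 + q * s4)) := Nat.mul_le_mul_left _ h7
      _ = 100 * (q ^ 2 * s3 + q ^ 2 * (q * s4)) := by ring
      _ ≤ 100 * (48 * n ^ 2 * T + 48 * n ^ 2 * T) :=
          Nat.mul_le_mul_left _ (Nat.add_le_add h8 h9)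
      _ = n ^ 2 * (9600 * T) := by ring
  have h11 : q ^ 2 * B.card ≤ 9600 * T := Nat.le_of_mul_le_mul_left h10 (by positivity)
  have h12 : 9600 * 40 ≤ q ^ 2 := by
    calc 9600 * 40 ≤ (2 ^ 24) ^ 2 := by norm_num
      _ ≤ q ^ 2 := Nat.pow_le_pow_left hq 2
  have h13 : 9600 * (40 * B.card) ≤ 9600 * T := by
    calc 9600 * (40 * B.card) = 9600 * 40 * B.card := by ring
      _ ≤ q ^ 2 * B.card := Nat.mul_le_mul_right _ h12
      _ ≤ 9600 * T := h11
  exact Nat.le_of_mul_le_mul_left h13 (by norm_num)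

/-- one more member through `e` -/
theorem one_step (hk : 2 ≤ k) (hk5 : k ≤ 5) (P : Finset (Finset (Fin n))) {e : Finset (Fin n)}
    (he : e.card = k) {t q : ℕ} (hq : 2 ^ 24 ≤ q) (hqn : q ^ 240 ≤ n) (hn : n < (q + 1) ^ 240)
    (ht : 160000000 * (t + 1) ≤ q) (hd : 100 * (inad P e).card ≤ n ^ 2) :
    q ^ 10 * (FT k P e t).card ≤ (FT k P e (t + 1)).card := by
  classical
  have hq1 : 1 ≤ q := by omega
  have hqn' : q ≤ n := le_trans (Nat.le_self_pow (by norm_num) q) hqn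
  have hn8 : k + 3 ≤ n := by omega
  set T := (FT k P e t).card with hT
  set big := (FT k P e t).filter (fun F => ∃ H ∈ F, q < H.card) with hbig
  set B := fun i : Fin n => (FT k P e t).filter (fun F => (∀ H ∈ F, H.card ≤ q) ∧
      n ^ 2 < 100 * ((bad3 k P e F i (n * q ^ 6)).card +
        q * (bad4 k P e F i (n * q ^ 6)).card)) with hB
  set nice := (FT k P e t).filter (fun F => (∀ H ∈ F, H.card ≤ q) ∧
      ∀ i ∈ e, 100 * ((bad3 k P e F i (n * q ^ 6)).card +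
        q * (bad4 k P e F i (n * q ^ 6)).card) ≤ n ^ 2) with hnice
  have h1 : 8 * big.card ≤ T := giants_small hk hk5 P e t hq hn
  have h2 : ∀ i ∈ e, 40 * (B i).card ≤ T := fun i hi => exc_small hk P he t hq hn8 hi
  have h3 : FT k P e t ⊆ big ∪ (e.biUnion B) ∪ nice := by
    intro F hF
    simp only [mem_union, mem_biUnion]
    by_cases h1 : ∃ H ∈ F, q < H.card
    · left; left
      exact mem_filter.2 ⟨hF, h1⟩
    · push Not at h1
      by_cases h2 : ∀ i ∈ e, 100 * ((bad3 k P e F i (n * q ^ 6)).card +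
        q * (bad4 k P e F i (n * q ^ 6)).card) ≤ n ^ 2
      · right
        exact mem_filter.2 ⟨hF, h1, h2⟩
      · push Not at h2
        obtain ⟨i, hi, hlt⟩ := h2
        left; right
        exact ⟨i, hi, mem_filter.2 ⟨hF, h1, hlt⟩⟩
  have h4 : 8 * (e.biUnion B).card ≤ T := by
    have h5 : (e.biUnion B).card ≤ ∑ i ∈ e, (B i).card := card_biUnion_le
    have h6 : 40 * ∑ i ∈ e, (B i).card ≤ 5 * T := by
      rw [Finset.mul_sum]
      calc ∑ i ∈ e, 40 * (B i).card ≤ ∑ i ∈ e, T := Finset.sum_le_sum h2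
        _ = k * T := by rw [sum_const, he, smul_eq_mul]
        _ ≤ 5 * T := Nat.mul_le_mul_right _ hk5
    omega
  have h5 : T ≤ 2 * nice.card := by
    have h6 : T ≤ big.card + (e.biUnion B).card + nice.card :=
      (card_le_card h3).trans ((card_union_le _ _).trans
        (Nat.add_le_add_right (card_union_le _ _) _))
    omega
  have h6 := sum_good P e t q (q ^ 16) (n ^ 2) hk hn8 he
  have h7 : n ^ 2 * nice.card ≤ 20 * ∑ F ∈ (FT k P e t).filter (fun F => ∀ H ∈ F, H.card ≤ q),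
      (good k P e F (q ^ 16) (n ^ 2)).card := by
    rw [Finset.mul_sum]
    calc n ^ 2 * nice.card = ∑ F ∈ nice, n ^ 2 := by rw [sum_const, smul_eq_mul, mul_comm]
      _ ≤ ∑ F ∈ nice, 20 * (good k P e F (q ^ 16) (n ^ 2)).card := by
          refine Finset.sum_le_sum fun F hF => ?_
          rw [hnice, mem_filter] at hF
          exact many_good hk hk5 he (by omega) hqn (by omega) hd hF.1 hF.2.1 hF.2.2
      _ ≤ _ := by
          refine Finset.sum_le_sum_of_subset fun F hF => ?_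
          rw [hnice, mem_filter] at hF
          exact mem_filter.2 ⟨hF.1, hF.2.1⟩
  set sg := ∑ F ∈ (FT k P e t).filter (fun F => ∀ H ∈ F, H.card ≤ q),
      (good k P e F (q ^ 16) (n ^ 2)).card with hsg
  have h8 : 3 ^ k * (1 + k * q) ^ k ≤ 243 * (7776 * q ^ 5) := by
    have h9 : 3 ^ k ≤ 3 ^ 5 := Nat.pow_le_pow_right (by norm_num) hk5
    have h10 : 1 + k * q ≤ 6 * q := by
      have e1 : k * q ≤ 5 * q := Nat.mul_le_mul_right _ hk5
      omega
    have h11 : (1 + k * q) ^ k ≤ (6 * q) ^ 5 :=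
      (Nat.pow_le_pow_left h10 k).trans (Nat.pow_le_pow_right (by omega) hk5)
    calc 3 ^ k * (1 + k * q) ^ k ≤ 3 ^ 5 * (6 * q) ^ 5 := Nat.mul_le_mul h9 h11
      _ = 243 * (7776 * q ^ 5) := by ring
  set T1 := (FT k P e (t + 1)).card with hT1
  have h9 : (n ^ 2 * q ^ 6) * (q ^ 10 * T) ≤ (n ^ 2 * q ^ 6) * T1 := by
    calc (n ^ 2 * q ^ 6) * (q ^ 10 * T) = q ^ 16 * (n ^ 2 * T) := by ring
      _ ≤ q ^ 16 * (n ^ 2 * (2 * nice.card)) :=
          Nat.mul_le_mul_left _ (Nat.mul_le_mul_left _ h5)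
      _ = 2 * q ^ 16 * (n ^ 2 * nice.card) := by ring
      _ ≤ 2 * q ^ 16 * (20 * sg) := Nat.mul_le_mul_left _ h7
      _ = 40 * (q ^ 16 * sg) := by ring
      _ ≤ 40 * (2 * (t + 1) * 3 ^ k * (1 + k * q) ^ k * n ^ 2 * T1) :=
          Nat.mul_le_mul_left _ h6
      _ = (80 * (t + 1)) * (3 ^ k * (1 + k * q) ^ k) * (n ^ 2 * T1) := by ring
      _ ≤ (80 * (t + 1)) * (243 * (7776 * q ^ 5)) * (n ^ 2 * T1) :=
          Nat.mul_le_mul_right _ (Nat.mul_le_mul_left _ h8)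
      _ = (151165440 * (t + 1)) * q ^ 5 * (n ^ 2 * T1) := by ring
      _ ≤ q * q ^ 5 * (n ^ 2 * T1) :=
          Nat.mul_le_mul_right _ (Nat.mul_le_mul_right _ (by omega))
      _ = (n ^ 2 * q ^ 6) * T1 := by ring
  have hn0 : 0 < n := lt_of_lt_of_le (by norm_num) ((hq.trans hqn' : 2 ^ 24 ≤ n))
  exact Nat.le_of_mul_le_mul_left h9 (mul_pos (pow_pos hn0 2) (pow_pos hq1 6))

theorem step (k A : ℕ) (hk : 2 ≤ k) (hk5 : k ≤ 5) : ∃ N : ℕ, ∀ n : ℕ, N ≤ n →
    ∀ (P : Finset (Finset (Fin n))) (e : Finset (Fin n)), e.card = k →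
      100 * (inad P e).card ≤ n ^ 2 →
      n ^ A * (AA k (insert e P)).card ≤ (AA k P).card := by
  obtain ⟨Q, hQ⟩ : ∃ Q, Q = 2 ^ 24 + 160000000 * (25 * A + 1) := ⟨_, rfl⟩
  refine ⟨Q ^ 240, fun n hn P e he hd => ?_⟩
  obtain ⟨q, hq, hnq⟩ := exists_root n
  have hQq : Q ≤ q := by
    by_contra hlt
    have h1 : q + 1 ≤ Q := by omega
    have h2 : (q + 1) ^ 240 ≤ Q ^ 240 := Nat.pow_le_pow_left h1 240
    exact absurd (lt_of_lt_of_le hnq (h2.trans hn)) (lt_irrefl _)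
  have hq24 : 2 ^ 24 ≤ q := by omega
  have hqJ : 160000000 * (25 * A + 1) ≤ q := by omega
  have hrec : ∀ s ≤ 25 * A, q ^ (10 * s) * (FT k P e 0).card ≤ (FT k P e s).card := by
    intro s
    induction s with
    | zero => intro _; simp
    | succ s ih =>
      intro hs
      have h1 := ih (by omega)
      have h2 := one_step hk hk5 P he (t := s) hq24 hq hnq (by omega) hd
      calc q ^ (10 * (s + 1)) * (FT k P e 0).card
          = q ^ 10 * (q ^ (10 * s) * (FT k P e 0).card) := by ring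
        _ ≤ q ^ 10 * (FT k P e s).card := Nat.mul_le_mul_left _ h1
        _ ≤ _ := h2
  have h1 := hrec (25 * A) le_rfl
  rw [AA_insert]
  have h2 : n ^ A ≤ q ^ (10 * (25 * A)) := by
    have h3 : n ≤ q ^ 250 := by
      calc n ≤ (q + 1) ^ 240 := hnq.le
        _ ≤ (2 * q) ^ 240 := Nat.pow_le_pow_left (by omega) 240
        _ = (2 ^ 24) ^ 10 * q ^ 240 := by rw [mul_pow, ← pow_mul]
        _ ≤ q ^ 10 * q ^ 240 := Nat.mul_le_mul_right _ (Nat.pow_le_pow_left hq24 10)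
        _ = q ^ 250 := by rw [← pow_add]
    calc n ^ A ≤ (q ^ 250) ^ A := Nat.pow_le_pow_left h3 A
      _ = q ^ (10 * (25 * A)) := by rw [← pow_mul]; congr 1; ring
  calc n ^ A * (FT k P e 0).card ≤ q ^ (10 * (25 * A)) * (FT k P e 0).card :=
        Nat.mul_le_mul_right _ h2
    _ ≤ (FT k P e (25 * A)).card := h1
    _ ≤ (AA k P).card := FT_card_le P e _

end Pool.Agent.RKP
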