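import Pool.Agent.RKP.Defs
import Pool.Agent.RKP.KH

/-!
# Joint estimate: greedy subsystem of small degrees, induction
-/

set_option autoImplicit false

namespace Pool.Agent.RKP

open Finset

variable {n k : ℕ}

namespace KI

/-- the number of members of `P` which contain `Y` -/
def cnt (P : Finset (Finset (Fin n))) (Y : Finset (Fin n)) : ℕ := (P.filter fun f => Y ⊆ f).card

/-- small degrees -/
def Low (k : ℕ) (P : Finset (Finset (Fin n))) : Prop :=
  ∀ j, 1 ≤ j → j ≤ 2 → ∀ Y : Finset (Fin n), Y.card + j = k → 4000 * cnt P Y ≤ n ^ j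

theorem cnt_mono {P Q : Finset (Finset (Fin n))} (h : Q ⊆ P) (Y : Finset (Fin n)) :
    cnt Q Y ≤ cnt P Y :=
  Finset.card_le_card (Finset.filter_subset_filter _ h)

theorem Low_mono {P Q : Finset (Finset (Fin n))} (h : Q ⊆ P) (hP : Low k P) : Low k Q :=
  fun j h1 h2 Y hY => (Nat.mul_le_mul_left _ (cnt_mono h Y)).trans (hP j h1 h2 Y hY)

theorem mem_AA {P : Finset (Finset (Fin n))} {F : Finset (Finset (Fin n))} :
    F ∈ AA k P ↔ F ∈ fams k n ∧ ∀ e ∈ P, ¬ Cov F e := by
  simp only [AA, Finset.mem_filter]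

theorem AA_anti {P Q : Finset (Finset (Fin n))} (h : Q ⊆ P) : AA k P ⊆ AA k Q := by
  intro F hF
  rw [mem_AA] at hF ⊢
  exact ⟨hF.1, fun e he => hF.2 e (h he)⟩

theorem card_of_mem {P : Finset (Finset (Fin n))} (hP : P ⊆ sts k n) {f : Finset (Fin n)}
    (hf : f ∈ P) : f.card = k :=
  (Finset.mem_powersetCard.1 (hP hf)).2

theorem choose_le (m j : ℕ) : m.choose j ≤ m ^ j := by
  have h1 := Nat.descFactorial_eq_factorial_mul_choose m j
  have h2 := Nat.descFactorial_le_pow m j
  have h3 := Nat.factorial_pos j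
  calc m.choose j = 1 * m.choose j := (one_mul _).symm
    _ ≤ j.factorial * m.choose j := Nat.mul_le_mul_right _ h3
    _ = m.descFactorial j := h1.symm
    _ ≤ m ^ j := h2

theorem cnt_le {P : Finset (Finset (Fin n))} (hP : P ⊆ sts k n) {j : ℕ} {Y : Finset (Fin n)}
    (hY : Y.card + j = k) : cnt P Y ≤ n ^ j := by
  have h : cnt P Y ≤ (Finset.powersetCard j (univ : Finset (Fin n))).card := by
    unfold cnt
    apply Finset.card_le_card_of_injOn (fun f => f \ Y)
    · intro f hf
      rw [Finset.mem_coe, Finset.mem_filter] at hf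
      rw [Finset.mem_coe, Finset.mem_powersetCard]
      refine ⟨Finset.subset_univ _, ?_⟩
      have h1 := Finset.card_sdiff_add_card_eq_card hf.2
      have h2 := card_of_mem hP hf.1
      change (f \ Y).card = j
      omega
    · intro f hf g hg hfg
      rw [Finset.mem_coe, Finset.mem_filter] at hf hg
      change f \ Y = g \ Y at hfg
      rw [← Finset.sdiff_union_of_subset hf.2, ← Finset.sdiff_union_of_subset hg.2, hfg]
  rw [Finset.card_powersetCard, Finset.card_univ, Fintype.card_fin] at h
  exact h.trans (choose_le n j)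

theorem sum_cnt {P : Finset (Finset (Fin n))} (hP : P ⊆ sts k n) (m : ℕ) :
    ∑ Y ∈ Finset.powersetCard m (univ : Finset (Fin n)), cnt P Y = P.card * k.choose m := by
  unfold cnt
  simp only [Finset.card_filter]
  rw [Finset.sum_comm]
  have h : ∀ f ∈ P, ∑ Y ∈ Finset.powersetCard m (univ : Finset (Fin n)),
      (if Y ⊆ f then 1 else 0) = k.choose m := by
    intro f hf
    rw [← Finset.card_filter, ← card_of_mem hP hf, ← Finset.card_powersetCard]
    congr 1
    ext Y
    simp only [Finset.mem_filter, Finset.mem_powersetCard, Finset.subset_univ, true_and]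
    exact and_comm
  rw [Finset.sum_congr rfl h, Finset.sum_const, smul_eq_mul]

theorem sat_card {Q : Finset (Finset (Fin n))} (hQ : Q ⊆ sts k n) {j m : ℕ}
    (hn : 44000 ≤ n ^ j) {Sat : Finset (Finset (Fin n))}
    (hSat : ∀ Y, Y ∈ Sat ↔ Y.card = m ∧ n ^ j < 4000 * (cnt Q Y + 1)) :
    Sat.card * n ^ j ≤ 4400 * (Q.card * k.choose m) := by
  rw [← sum_cnt hQ m, Finset.mul_sum]
  calc Sat.card * n ^ j = ∑ _Y ∈ Sat, n ^ j := by rw [Finset.sum_const, smul_eq_mul]
    _ ≤ ∑ Y ∈ Sat, 4400 * cnt Q Y := Finset.sum_le_sum fun Y hY => by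
        have := ((hSat Y).1 hY).2
        omega
    _ ≤ ∑ Y ∈ Finset.powersetCard m (univ : Finset (Fin n)), 4400 * cnt Q Y := by
        apply Finset.sum_le_sum_of_subset_of_nonneg _ fun _ _ _ => Nat.zero_le _
        intro Y hY
        rw [Finset.mem_powersetCard]
        exact ⟨Finset.subset_univ _, ((hSat Y).1 hY).1⟩

/-- a subsystem of small degrees which is a positive proportion of the whole system -/
theorem greedy (hk : 2 ≤ k) (hk5 : k ≤ 5) (hn : 44000 ≤ n) {P : Finset (Finset (Fin n))}
    (hP : P ⊆ sts k n) : ∃ Q ⊆ P, Low k Q ∧ P.card ≤ 70000 * Q.card := by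
  classical
  obtain ⟨Q, hQ, hmax⟩ := Finset.exists_max_image
    (P.powerset.filter fun Q => Low k Q) Finset.card
    ⟨∅, by
      rw [Finset.mem_filter]
      refine ⟨Finset.empty_mem_powerset _, fun j _ _ Y _ => ?_⟩
      simp [cnt]⟩
  rw [Finset.mem_filter, Finset.mem_powerset] at hQ
  obtain ⟨hQP, hlow⟩ := hQ
  refine ⟨Q, hQP, hlow, ?_⟩
  have hQs : Q ⊆ sts k n := hQP.trans hP
  have hSat : ∀ j : ℕ, ∃ Sat : Finset (Finset (Fin n)), ∀ Y, Y ∈ Sat ↔
      Y.card = k - j ∧ n ^ j < 4000 * (cnt Q Y + 1) := fun j =>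
    ⟨univ.filter fun Y => Y.card = k - j ∧ n ^ j < 4000 * (cnt Q Y + 1), fun Y => by simp⟩
  obtain ⟨S1, hS1⟩ := hSat 1
  obtain ⟨S2, hS2⟩ := hSat 2
  have hn2 : 44000 ≤ n ^ 2 := by nlinarith
  -- every further set contains a saturated one
  have hsub : P \ Q ⊆ (S1.biUnion fun Y => P.filter fun f => Y ⊆ f) ∪
      (S2.biUnion fun Y => P.filter fun f => Y ⊆ f) := by
    intro f hf
    rw [Finset.mem_sdiff] at hf
    have hnot : ¬ Low k (insert f Q) := by
      intro hall
      have hmem : insert f Q ∈ P.powerset.filter fun Q => Low k Q := by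
        rw [Finset.mem_filter, Finset.mem_powerset]
        exact ⟨Finset.insert_subset hf.1 hQP, hall⟩
      have h1 := hmax _ hmem
      rw [Finset.card_insert_of_notMem hf.2] at h1
      omega
    unfold Low at hnot
    push Not at hnot
    obtain ⟨j, hj1, hj2, Y, hY, hlt⟩ := hnot
    have hdz : cnt (insert f Q) Y ≤ cnt Q Y + 1 := by
      unfold cnt
      rw [Finset.filter_insert]
      split_ifs
      · exact Finset.card_insert_le _ _
      · omega
    have hYf : Y ⊆ f := by
      by_contra hYf
      have h1 : cnt (insert f Q) Y = cnt Q Y := by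
        unfold cnt
        rw [Finset.filter_insert, if_neg hYf]
      rw [h1] at hlt
      exact absurd (hlow j hj1 hj2 Y hY) (by omega)
    have hsat : n ^ j < 4000 * (cnt Q Y + 1) := by omega
    have hmemY : f ∈ P.filter fun f => Y ⊆ f := by
      rw [Finset.mem_filter]
      exact ⟨hf.1, hYf⟩
    rw [Finset.mem_union, Finset.mem_biUnion, Finset.mem_biUnion]
    have hj : j = 1 ∨ j = 2 := by omega
    rcases hj with rfl | rfl
    · exact Or.inl ⟨Y, (hS1 Y).2 ⟨by omega, hsat⟩, hmemY⟩
    · exact Or.inr ⟨Y, (hS2 Y).2 ⟨by omega, hsat⟩, hmemY⟩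
  have hb : ∀ (j : ℕ) (S : Finset (Finset (Fin n))), j ≤ k →
      (∀ Y, Y ∈ S ↔ Y.card = k - j ∧ n ^ j < 4000 * (cnt Q Y + 1)) →
      (S.biUnion fun Y => P.filter fun f => Y ⊆ f).card ≤ S.card * n ^ j := by
    intro j S hj hS
    calc (S.biUnion fun Y => P.filter fun f => Y ⊆ f).card
        ≤ ∑ Y ∈ S, (P.filter fun f => Y ⊆ f).card := Finset.card_biUnion_le
      _ ≤ ∑ _Y ∈ S, n ^ j := Finset.sum_le_sum fun Y hY => by
          have h1 := ((hS Y).1 hY).1
          exact cnt_le hP (by omega)
      _ = S.card * n ^ j := by rw [Finset.sum_const, smul_eq_mul]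
  have h1 := hb 1 S1 (by omega) hS1
  have h2 := hb 2 S2 hk hS2
  have h3 := sat_card hQs (by rw [pow_one]; exact hn) hS1
  have h4 := sat_card hQs hn2 hS2
  have h5 : (P \ Q).card ≤ _ := (Finset.card_le_card hsub).trans (Finset.card_union_le _ _)
  have h6 := Finset.card_sdiff_add_card_eq_card hQP
  have h7 : Q.card * k.choose (k - 1) ≤ Q.card * 5 := by
    apply Nat.mul_le_mul_left
    interval_cases k <;> decide
  have h8 : Q.card * k.choose (k - 2) ≤ Q.card * 10 := by
    apply Nat.mul_le_mul_left
    interval_cases k <;> decide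
  omega

theorem card_le_of_mul {s : Finset (Finset (Fin n))} {α : Type} [DecidableEq α]
    {B : Finset (Fin n) → Finset α} {c M : ℕ} (h : ∀ f ∈ s, (B f).card ≤ c)
    (hs : 4000 * s.card ≤ M) : 4000 * (s.biUnion B).card ≤ M * c := by
  calc 4000 * (s.biUnion B).card ≤ 4000 * (s.card * c) :=
        Nat.mul_le_mul_left _ (Finset.card_biUnion_le_card_mul _ _ _ h)
    _ = 4000 * s.card * c := by ring
    _ ≤ M * c := Nat.mul_le_mul_right _ hs

/-- few inadmissible pairs -/
theorem inad_le (hk : 2 ≤ k) (hk5 : k ≤ 5) {P : Finset (Finset (Fin n))} (hP : P ⊆ sts k n)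
    (hlow : Low k P) {e : Finset (Fin n)} (he : e.card = k) (heP : e ∉ P) :
    100 * (inad P e).card ≤ n ^ 2 := by
  classical
  have hsub : inad P e ⊆
      ((Finset.powersetCard (k - 1) e).biUnion fun Y =>
        ((P.filter fun f => Y ⊆ f).filter fun f => (f \ e).card = 1).biUnion fun f =>
          ((f \ e) ×ˢ (univ : Finset (Fin n))) ∪ ((univ : Finset (Fin n)) ×ˢ (f \ e))) ∪
      ((Finset.powersetCard (k - 2) e).biUnion fun Y =>
        ((P.filter fun f => Y ⊆ f).filter fun f => (f \ e).card = 2).biUnion fun f =>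
          (f \ e).offDiag) := by
    intro p hp
    simp only [inad, pts, Finset.mem_filter, Finset.mem_univ, true_and] at hp
    obtain ⟨⟨hne, h1e, h2e⟩, f, hfP, hfe⟩ := hp
    have hfk := card_of_mem hP hfP
    have hfd : f \ e ⊆ {p.1, p.2} := by
      intro x hx
      rw [Finset.mem_sdiff] at hx
      have h := hfe hx.1
      rw [Finset.mem_insert, Finset.mem_insert] at h
      rw [Finset.mem_insert, Finset.mem_singleton]
      rcases h with h | h | h
      · exact Or.inl h
      · exact Or.inr h
      · exact absurd h hx.2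
    have hc2 : (f \ e).card ≤ 2 := (Finset.card_le_card hfd).trans Finset.card_le_two
    have hcadd : (f \ e).card + (f ∩ e).card = k := by
      rw [Finset.card_sdiff_add_card_inter, hfk]
    have hc0 : (f \ e).card ≠ 0 := by
      intro h0
      have h1 : f ⊆ e := Finset.sdiff_eq_empty_iff_subset.1 (Finset.card_eq_zero.1 h0)
      have h2 : f = e := Finset.eq_of_subset_of_card_le h1 (by omega)
      exact heP (h2 ▸ hfP)
    have hYf : f ∩ e ⊆ f := Finset.inter_subset_left
    have hYe : f ∩ e ⊆ e := Finset.inter_subset_right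
    rw [Finset.mem_union]
    have hc : (f \ e).card = 1 ∨ (f \ e).card = 2 := by omega
    rcases hc with hc | hc
    · left
      rw [Finset.mem_biUnion]
      refine ⟨f ∩ e, Finset.mem_powersetCard.2 ⟨hYe, by omega⟩, ?_⟩
      rw [Finset.mem_biUnion]
      refine ⟨f, Finset.mem_filter.2 ⟨Finset.mem_filter.2 ⟨hfP, hYf⟩, hc⟩, ?_⟩
      obtain ⟨x, hx⟩ := Finset.card_eq_one.1 hc
      have hxm : x ∈ ({p.1, p.2} : Finset (Fin n)) := hfd (by rw [hx]; exact mem_singleton_self x)
      rw [hx, Finset.mem_union, Finset.mem_product, Finset.mem_product]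
      rw [Finset.mem_insert, Finset.mem_singleton] at hxm
      rcases hxm with h | h
      · left
        exact ⟨by rw [h]; exact Finset.mem_singleton_self _, Finset.mem_univ _⟩
      · right
        exact ⟨Finset.mem_univ _, by rw [h]; exact Finset.mem_singleton_self _⟩
    · right
      rw [Finset.mem_biUnion]
      refine ⟨f ∩ e, Finset.mem_powersetCard.2 ⟨hYe, by omega⟩, ?_⟩
      rw [Finset.mem_biUnion]
      refine ⟨f, Finset.mem_filter.2 ⟨Finset.mem_filter.2 ⟨hfP, hYf⟩, hc⟩, ?_⟩
      have heq : f \ e = {p.1, p.2} :=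
        Finset.eq_of_subset_of_card_le hfd (by rw [hc]; exact Finset.card_le_two)
      rw [Finset.mem_offDiag, heq]
      exact ⟨Finset.mem_insert_self _ _,
        Finset.mem_insert_of_mem (Finset.mem_singleton_self _), hne⟩
  have hU1 : 4000 * ((Finset.powersetCard (k - 1) e).biUnion fun Y =>
        ((P.filter fun f => Y ⊆ f).filter fun f => (f \ e).card = 1).biUnion fun f =>
          ((f \ e) ×ˢ (univ : Finset (Fin n))) ∪
            ((univ : Finset (Fin n)) ×ˢ (f \ e))).card ≤ 5 * (n * (2 * n)) := by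
    calc _ ≤ 4000 * ∑ Y ∈ Finset.powersetCard (k - 1) e,
          (((P.filter fun f => Y ⊆ f).filter fun f => (f \ e).card = 1).biUnion fun f =>
          ((f \ e) ×ˢ (univ : Finset (Fin n))) ∪
            ((univ : Finset (Fin n)) ×ˢ (f \ e))).card :=
          Nat.mul_le_mul_left _ Finset.card_biUnion_le
      _ = ∑ Y ∈ Finset.powersetCard (k - 1) e, 4000 *
          (((P.filter fun f => Y ⊆ f).filter fun f => (f \ e).card = 1).biUnion fun f =>
          ((f \ e) ×ˢ (univ : Finset (Fin n))) ∪
            ((univ : Finset (Fin n)) ×ˢ (f \ e))).card := by rw [Finset.mul_sum]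
      _ ≤ ∑ _Y ∈ Finset.powersetCard (k - 1) e, n * (2 * n) := by
          refine Finset.sum_le_sum fun Y hY => ?_
          have hYc := (Finset.mem_powersetCard.1 hY).2
          refine card_le_of_mul (fun f hf => ?_) ?_
          · have hf1 := (Finset.mem_filter.1 hf).2
            refine (Finset.card_union_le _ _).trans ?_
            rw [Finset.card_product, Finset.card_product, hf1, Finset.card_univ,
              Fintype.card_fin]
            omega
          · have h1 := hlow 1 le_rfl (by norm_num) Y (by omega)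
            rw [pow_one] at h1
            refine le_trans (Nat.mul_le_mul_left _ ?_) h1
            exact Finset.card_le_card (Finset.filter_subset _ _)
      _ = (Finset.powersetCard (k - 1) e).card * (n * (2 * n)) := by
          rw [Finset.sum_const, smul_eq_mul]
      _ ≤ 5 * (n * (2 * n)) := by
          apply Nat.mul_le_mul_right
          rw [Finset.card_powersetCard, he]
          clear hsub hlow hP heP he
          interval_cases k <;> decide
  have hU2 : 4000 * ((Finset.powersetCard (k - 2) e).biUnion fun Y =>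
        ((P.filter fun f => Y ⊆ f).filter fun f => (f \ e).card = 2).biUnion fun f =>
          (f \ e).offDiag).card ≤ 10 * (n ^ 2 * 2) := by
    calc _ ≤ 4000 * ∑ Y ∈ Finset.powersetCard (k - 2) e,
          (((P.filter fun f => Y ⊆ f).filter fun f => (f \ e).card = 2).biUnion fun f =>
          (f \ e).offDiag).card :=
          Nat.mul_le_mul_left _ Finset.card_biUnion_le
      _ = ∑ Y ∈ Finset.powersetCard (k - 2) e, 4000 *
          (((P.filter fun f => Y ⊆ f).filter fun f => (f \ e).card = 2).biUnion fun f =>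
          (f \ e).offDiag).card := by rw [Finset.mul_sum]
      _ ≤ ∑ _Y ∈ Finset.powersetCard (k - 2) e, n ^ 2 * 2 := by
          refine Finset.sum_le_sum fun Y hY => ?_
          have hYc := (Finset.mem_powersetCard.1 hY).2
          refine card_le_of_mul (fun f hf => ?_) ?_
          · have hf1 := (Finset.mem_filter.1 hf).2
            rw [Finset.offDiag_card, hf1]
          · have h1 := hlow 2 (by norm_num) le_rfl Y (by omega)
            refine le_trans (Nat.mul_le_mul_left _ ?_) h1
            exact Finset.card_le_card (Finset.filter_subset _ _)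
      _ = (Finset.powersetCard (k - 2) e).card * (n ^ 2 * 2) := by
          rw [Finset.sum_const, smul_eq_mul]
      _ ≤ 10 * (n ^ 2 * 2) := by
          apply Nat.mul_le_mul_right
          rw [Finset.card_powersetCard, he]
          clear hsub hlow hP heP he hU1
          interval_cases k <;> decide
  have h1 := (Finset.card_le_card hsub).trans (Finset.card_union_le _ _)
  have h2 : n * (2 * n) = 2 * n ^ 2 := by ring
  rw [h2] at hU1
  omega

theorem low_case {A N : ℕ} (hk : 2 ≤ k) (hk5 : k ≤ 5) (hN : N ≤ n)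
    (hstep : ∀ n : ℕ, N ≤ n → ∀ (P : Finset (Finset (Fin n))) (e : Finset (Fin n)), e.card = k →
      100 * (inad P e).card ≤ n ^ 2 → n ^ A * (AA k (insert e P)).card ≤ (AA k P).card)
    (P : Finset (Finset (Fin n))) : P ⊆ sts k n → Low k P →
    n ^ (A * P.card) * (AA k P).card ≤ (fams k n).card := by
  induction P using Finset.induction_on with
  | empty =>
    intro _ _
    rw [Finset.card_empty, mul_zero, pow_zero, one_mul]
    exact Finset.card_le_card fun F hF => (mem_AA.1 hF).1
  | insert e P he ih =>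
    intro hP hlow
    have hsub : P ⊆ insert e P := Finset.subset_insert _ _
    have hP' := hsub.trans hP
    have hlow' := Low_mono hsub hlow
    have h1 := ih hP' hlow'
    have hek := card_of_mem hP (Finset.mem_insert_self e P)
    have h2 := hstep n hN P e hek (inad_le hk hk5 hP' hlow' hek he)
    rw [Finset.card_insert_of_notMem he, mul_add, mul_one, pow_add]
    calc n ^ (A * P.card) * n ^ A * (AA k (insert e P)).card
        = n ^ (A * P.card) * (n ^ A * (AA k (insert e P)).card) := by ring
      _ ≤ n ^ (A * P.card) * (AA k P).card := Nat.mul_le_mul_left _ h2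
      _ ≤ _ := h1

end KI

theorem joint (k A : ℕ) (hk : 2 ≤ k) (hk5 : k ≤ 5) : ∃ N : ℕ, ∀ n : ℕ, N ≤ n →
    ∀ P : Finset (Finset (Fin n)), P ⊆ sts k n →
      n ^ (A * P.card) * (AA k P).card ≤ (fams k n).card := by
  obtain ⟨N, hN⟩ := step k (70000 * A) hk hk5
  refine ⟨max N 44000, fun n hn P hP => ?_⟩
  have hn1 : N ≤ n := (le_max_left _ _).trans hn
  have hn2 : 44000 ≤ n := (le_max_right _ _).trans hn
  obtain ⟨Q, hQP, hlow, hcard⟩ := KI.greedy hk hk5 hn2 hP
  have h1 := KI.low_case hk hk5 hn1 hN Q (hQP.trans hP) hlow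
  refine le_trans ?_ h1
  refine Nat.mul_le_mul (Nat.pow_le_pow_right (by omega) ?_)
    (Finset.card_le_card (KI.AA_anti hQP))
  calc A * P.card ≤ A * (70000 * Q.card) := Nat.mul_le_mul_left _ hcard
    _ = 70000 * A * Q.card := by ring

end Pool.Agent.RKP
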