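import Mathlib
import Pool.Agent.RKP.Defs
import Pool.Agent.RKP.KI

/-!
MP_039b14_co, ranks four to seven: the sum over the sets of at least `s` zero sets.
-/

set_option autoImplicit false

namespace Pool.Agent.RKP

open Finset H38Pav

variable {n : ℕ}

namespace KJ

theorem sum_pow (S : Finset (Finset (Fin n))) (x : ℝ) :
    ∑ P ∈ S.powerset.erase ∅, x ^ P.card = (1 + x) ^ S.card - 1 := by
  have h1 : ∑ P ∈ S.powerset, x ^ P.card = (1 + x) ^ S.card := by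
    have h := Finset.prod_one_add (s := S) (f := fun _ => x)
    simp only [Finset.prod_const] at h
    exact h.symm
  have h2 := Finset.sum_erase_add S.powerset (fun P => x ^ P.card)
    (Finset.empty_mem_powerset S)
  rw [h1] at h2
  simp only [Finset.card_empty, pow_zero] at h2
  linarith

theorem pow_le {K n k : ℕ} (hn : 2 ≤ n) (hK : K ≤ n ^ k) :
    (1 + ((n : ℝ) ^ k + 1) / (n : ℝ) ^ (2 * k + 4)) ^ K ≤ 2 := by
  have hn' : (2 : ℝ) ≤ n := by exact_mod_cast hn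
  have hn0 : (0 : ℝ) < n := by linarith
  have hK' : (K : ℝ) ≤ (n : ℝ) ^ k := by exact_mod_cast hK
  have hx : 0 ≤ ((n : ℝ) ^ k + 1) / (n : ℝ) ^ (2 * k + 4) := by positivity
  have h1 : (1 + ((n : ℝ) ^ k + 1) / (n : ℝ) ^ (2 * k + 4)) ^ K ≤
      Real.exp (K * (((n : ℝ) ^ k + 1) / (n : ℝ) ^ (2 * k + 4))) := by
    rw [Real.exp_nat_mul]
    apply pow_le_pow_left₀ (by positivity)
    have := Real.add_one_le_exp (((n : ℝ) ^ k + 1) / (n : ℝ) ^ (2 * k + 4))
    linarith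
  have h2 : (K : ℝ) * (((n : ℝ) ^ k + 1) / (n : ℝ) ^ (2 * k + 4)) ≤ 1 / 2 := by
    have h3 : (K : ℝ) * (((n : ℝ) ^ k + 1) / (n : ℝ) ^ (2 * k + 4)) ≤
        (n : ℝ) ^ k * (((n : ℝ) ^ k + 1) / (n : ℝ) ^ (2 * k + 4)) :=
      mul_le_mul_of_nonneg_right hK' hx
    refine h3.trans ?_
    rw [← mul_div_assoc, div_le_div_iff₀ (by positivity) (by norm_num)]
    have h4 : (4 : ℝ) ≤ (n : ℝ) ^ 4 := by
      have : (2 : ℝ) ^ 4 ≤ (n : ℝ) ^ 4 := pow_le_pow_left₀ (by norm_num) hn' 4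
      linarith
    have h5 : (1 : ℝ) ≤ (n : ℝ) ^ k := one_le_pow₀ (by linarith)
    have h6 : (n : ℝ) ^ (2 * k + 4) = ((n : ℝ) ^ k * (n : ℝ) ^ k) * (n : ℝ) ^ 4 := by
      rw [pow_add, two_mul, pow_add]
    rw [h6]
    have h7 : (0 : ℝ) ≤ (n : ℝ) ^ k * (n : ℝ) ^ k := by positivity
    have h8 := mul_le_mul_of_nonneg_left h4 h7
    nlinarith [mul_nonneg (sub_nonneg.2 h5) (sub_nonneg.2 h5)]
  refine (h1.trans (Real.exp_le_exp.2 h2)).trans ?_
  have h3 : Real.exp (1 / 2) ^ 2 = Real.exp 1 := by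
    rw [← Real.exp_nat_mul]
    norm_num
  have h4 := Real.exp_one_lt_d9
  have h5 := Real.exp_pos (1 / 2)
  nlinarith

end KJ

theorem sum_small (k A : ℕ) (hk : 2 ≤ k) (hk5 : k ≤ 5) : ∃ N : ℕ, ∀ n : ℕ, N ≤ n →
    ∀ s : ℕ, 1 ≤ s →
      n ^ (A * s) * ∑ P ∈ (sts k n).powerset.filter (fun P => s ≤ P.card),
        (AA k P).card * (n ^ k + 1) ^ P.card ≤ (fams k n).card := by
  obtain ⟨N, hN⟩ := joint k (A + (2 * k + 4)) hk hk5
  refine ⟨max N 2, fun n hn s hs => ?_⟩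
  have hnN : N ≤ n := (le_max_left _ _).trans hn
  have hn2 : 2 ≤ n := (le_max_right _ _).trans hn
  have hn2' : (2 : ℝ) ≤ n := by exact_mod_cast hn2
  have hn0 : (0 : ℝ) < n := by linarith
  have hn1 : (1 : ℝ) ≤ n := by linarith
  obtain ⟨x, hx⟩ : ∃ x, x = ((n : ℝ) ^ k + 1) / (n : ℝ) ^ (2 * k + 4) := ⟨_, rfl⟩
  have hx0 : 0 ≤ x := by rw [hx]; positivity
  have hxn : (n : ℝ) ^ (2 * k + 4) * x = (n : ℝ) ^ k + 1 := by
    rw [hx, mul_div_cancel₀ _ (by positivity)]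
  have hterm : ∀ P ∈ (sts k n).powerset.filter (fun P => s ≤ P.card),
      (n : ℝ) ^ (A * s) * (((AA k P).card : ℝ) * ((n : ℝ) ^ k + 1) ^ P.card) ≤
        ((fams k n).card : ℝ) * x ^ P.card := by
    intro P hP
    rw [Finset.mem_filter, Finset.mem_powerset] at hP
    have h1 : ((n : ℝ) ^ ((A + (2 * k + 4)) * P.card)) * ((AA k P).card : ℝ) ≤
        ((fams k n).card : ℝ) := by
      exact_mod_cast hN n hnN P hP.1
    have h2 : (n : ℝ) ^ (A * s) ≤ (n : ℝ) ^ (A * P.card) :=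
      pow_le_pow_right₀ hn1 (Nat.mul_le_mul_left A hP.2)
    have h3 : (0 : ℝ) ≤ ((AA k P).card : ℝ) * ((n : ℝ) ^ k + 1) ^ P.card := by positivity
    calc (n : ℝ) ^ (A * s) * (((AA k P).card : ℝ) * ((n : ℝ) ^ k + 1) ^ P.card)
        ≤ (n : ℝ) ^ (A * P.card) * (((AA k P).card : ℝ) * ((n : ℝ) ^ k + 1) ^ P.card) :=
          mul_le_mul_of_nonneg_right h2 h3
      _ = ((n : ℝ) ^ ((A + (2 * k + 4)) * P.card) * ((AA k P).card : ℝ)) * x ^ P.card := by
          rw [← hxn, mul_pow, add_mul, pow_add (n : ℝ) (A * P.card), pow_mul (n : ℝ) (2 * k + 4)]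
          ring
      _ ≤ ((fams k n).card : ℝ) * x ^ P.card := mul_le_mul_of_nonneg_right h1 (by positivity)
  have hsub : (sts k n).powerset.filter (fun P => s ≤ P.card) ⊆ (sts k n).powerset.erase ∅ := by
    intro P hP
    rw [Finset.mem_filter] at hP
    rw [Finset.mem_erase]
    refine ⟨fun h => ?_, hP.1⟩
    rw [h, Finset.card_empty] at hP
    exact absurd (hs.trans hP.2) (by decide)
  have hle : ∑ P ∈ (sts k n).powerset.filter (fun P => s ≤ P.card), x ^ P.card ≤ 1 := by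
    refine (Finset.sum_le_sum_of_subset_of_nonneg hsub fun P _ _ => pow_nonneg hx0 _).trans ?_
    rw [KJ.sum_pow]
    have hK : (sts k n).card ≤ n ^ k := by
      unfold sts
      rw [Finset.card_powersetCard, Finset.card_univ, Fintype.card_fin]
      exact Nat.choose_le_pow n k
    have h1 := KJ.pow_le hn2 hK
    rw [← hx] at h1
    linarith
  have hsum : (n : ℝ) ^ (A * s) * ∑ P ∈ (sts k n).powerset.filter (fun P => s ≤ P.card),
      ((AA k P).card : ℝ) * ((n : ℝ) ^ k + 1) ^ P.card ≤ ((fams k n).card : ℝ) := by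
    rw [Finset.mul_sum]
    refine (Finset.sum_le_sum hterm).trans ?_
    rw [← Finset.mul_sum]
    exact mul_le_of_le_one_right (by positivity) hle
  exact_mod_cast hsum

end Pool.Agent.RKP
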