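import Pool.Agent.RKP.Defs

/-!
MP_039b14_co, ranks four to seven: closure with respect to small flats, and caps.
-/

set_option autoImplicit false
set_option linter.unusedVariables false

namespace Pool.Agent.RKP

variable {n k : ℕ}

theorem subset_lc (M : Matroid (Fin n)) (X : Set (Fin n)) : X ⊆ lc k M X :=
  Set.subset_sInter fun _ hY => hY.1

theorem closure_subset_lc (M : Matroid (Fin n)) (X : Set (Fin n)) {Z : Finset (Fin n)}
    (hZ : (Z : Set (Fin n)) ⊆ lc k M X) (hk : Z.card ≤ k) :
    M.closure (Z : Set (Fin n)) ⊆ lc k M X :=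
  Set.subset_sInter fun Y hY => hY.2 Z (fun _ hz => Set.mem_sInter.1 (hZ hz) Y hY) hk

theorem lc_mono (M : Matroid (Fin n)) {X Y : Set (Fin n)} (h : X ⊆ lc k M Y) :
    lc k M X ⊆ lc k M Y :=
  Set.sInter_subset_of_mem ⟨h, fun _ hZ hk => closure_subset_lc M Y hZ hk⟩

theorem lc_subset_of_flat (M : Matroid (Fin n)) {X P : Set (Fin n)} (hP : M.IsFlat P)
    (h : X ⊆ P) : lc k M X ⊆ P := by
  refine Set.sInter_subset_of_mem ⟨h, fun Z hZ _ => ?_⟩
  have h1 := M.closure_subset_closure hZ
  rwa [hP.closure] at h1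

theorem mem_cap_iff (M : Matroid (Fin n)) {P : Set (Fin n)} {p : Fin n} :
    p ∈ cap k M P ↔ p ∈ P ∧ p ∉ lc k M {q | q ∈ P ∧ q < p} := by
  simp [cap]

theorem lc_cap (M : Matroid (Fin n)) {P : Set (Fin n)} (hP : M.IsFlat P) :
    lc k M (cap k M P) = P := by
  apply subset_antisymm
  · exact lc_subset_of_flat M hP fun p hp => ((mem_cap_iff M).1 (Finset.mem_coe.1 hp)).1
  · have key : ∀ p : Fin n, p ∈ P → p ∈ lc k M (cap k M P) := by
      intro p
      induction p using WellFoundedLT.induction with
      | ind p ih =>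
        intro hp
        by_cases h : p ∈ cap k M P
        · exact subset_lc M _ (Finset.mem_coe.2 h)
        · rw [mem_cap_iff] at h
          have h2 : p ∈ lc k M {q | q ∈ P ∧ q < p} := by
            by_contra h3
            exact h ⟨hp, h3⟩
          exact lc_mono M (fun q hq => ih q hq.2 hq.1) h2
    exact key

/-- at most `k + 1` points of a cap are independent -/
theorem indep_of_cap (M : Matroid (Fin n)) (hE : M.E = Set.univ) {P : Set (Fin n)}
    (hP : M.IsFlat P) {T : Finset (Fin n)} (hT : T ⊆ cap k M P) (hk : T.card ≤ k + 1) :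
    M.Indep (T : Set (Fin n)) := by
  induction T using Finset.induction_on_max with
  | empty => simp
  | insert t T hlt ih =>
    have hn : t ∉ T := fun h => lt_irrefl _ (hlt t h)
    have hc : (insert t T).card = T.card + 1 := Finset.card_insert_of_notMem hn
    have hTP : T ⊆ cap k M P := (Finset.subset_insert t T).trans hT
    have hI := ih hTP (by omega)
    have ht := (mem_cap_iff M).1 (hT (Finset.mem_insert_self t T))
    have h : t ∉ M.closure (T : Set (Fin n)) := fun h => ht.2 (by
      refine closure_subset_lc M _ (fun z hz => subset_lc M _ ?_) (by omega : T.card ≤ k) h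
      exact ⟨((mem_cap_iff M).1 (hTP (Finset.mem_coe.1 hz))).1, hlt z (Finset.mem_coe.1 hz)⟩)
    rw [Finset.coe_insert]
    exact ((hI.notMem_closure_iff (by rw [hE]; exact Set.mem_univ t)).1 h).1

end Pool.Agent.RKP
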