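import Pool.Agent.RKP.LJ

/-!
MP_039b14_co, ranks four to seven: the caps of the hyperplanes form a family.
-/

set_option autoImplicit false

namespace Pool.Agent.RKP

open Finset H38Pav

variable {n k : ℕ}

namespace LK5

theorem mem_cap (M : Matroid (Fin n)) {P : Set (Fin n)} {p : Fin n} :
    p ∈ cap k M P ↔ p ∈ P ∧ p ∉ lc k M {q | q ∈ P ∧ q < p} := by
  classical
  simp only [cap, Finset.mem_filter, Finset.mem_univ, true_and]

theorem cap_sub (M : Matroid (Fin n)) (P : Set (Fin n)) : (cap k M P : Set (Fin n)) ⊆ P := by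
  intro p hp
  exact ((mem_cap M).1 hp).1

/-- a hyperplane is the closure of `k + 1` independent points in it -/
theorem hyp_eq_closure (M : Matroid (Fin n)) {P : Set (Fin n)} (hP : IsHyp k M P)
    {T : Finset (Fin n)} (hT : (T : Set (Fin n)) ⊆ P) (hk : T.card = k + 1)
    (hI : M.Indep (T : Set (Fin n))) : M.closure (T : Set (Fin n)) = P := by
  have hbas : M.IsBasis (T : Set (Fin n)) P := by
    refine hI.isBasis_of_eRk_ge (Set.toFinite _) hT ?_ hP.1.subset_ground
    rw [hP.2, hI.eRk_eq_encard, Set.encard_coe_eq_coe_finsetCard, hk]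
    push_cast
    exact le_refl _
  rw [hbas.closure_eq_closure, hP.1.closure]

theorem card_lt_of_hyp (M : Matroid (Fin n)) (hE : M.E = Set.univ)
    (hr : M.eRank = (k : ℕ∞) + 2) {P : Set (Fin n)} (hP : IsHyp k M P) :
    (cap k M P).card < n := by
  by_contra h
  have h1 : (cap k M P) = Finset.univ := by
    refine Finset.eq_univ_of_card _ ?_
    rw [Fintype.card_fin]
    have h2 := Finset.card_le_univ (cap k M P)
    rw [Fintype.card_fin] at h2
    omega
  have h3 : P = Set.univ := by
    refine Set.eq_univ_of_forall fun p => ?_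
    have : p ∈ cap k M P := by rw [h1]; exact Finset.mem_univ p
    exact ((mem_cap M).1 this).1
  have h4 := hP.2
  rw [h3, ← hE, M.eRk_ground, hr] at h4
  have h5 : ((k + 2 : ℕ) : ℕ∞) = ((k + 1 : ℕ) : ℕ∞) := by push_cast; exact h4
  have h6 : k + 2 = k + 1 := by exact_mod_cast h5
  omega

end LK5

/-- the caps of the hyperplanes form a family which does not cover the zero sets -/
theorem capFam_mem (M : Matroid (Fin n)) (hE : M.E = Set.univ)
    (hr : M.eRank = (k : ℕ∞) + 2) : capFam k M ∈ AA k (zeroSets k M) := by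
  classical
  have hmem : ∀ H, H ∈ capFam k M ↔ k + 2 ≤ H.card ∧ ∃ P, IsHyp k M P ∧ cap k M P = H := by
    intro H
    unfold capFam
    simp
  have hfam : IsFam k (capFam k M) := by
    refine ⟨?_, ?_⟩
    · intro H hH
      obtain ⟨h4, P, hP, rfl⟩ := (hmem H).1 hH
      exact ⟨h4, LK5.card_lt_of_hyp M hE hr hP⟩
    · intro H hH K hK hne
      obtain ⟨-, P, hP, rfl⟩ := (hmem H).1 hH
      obtain ⟨-, Q, hQ, rfl⟩ := (hmem K).1 hK
      by_contra hcon
      have h3 : k + 1 ≤ (cap k M P ∩ cap k M Q).card := by omega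
      obtain ⟨T, hT, hTc⟩ := Finset.exists_subset_card_eq h3
      have hTP : T ⊆ cap k M P := hT.trans Finset.inter_subset_left
      have hTQ : T ⊆ cap k M Q := hT.trans Finset.inter_subset_right
      have hI : M.Indep (T : Set (Fin n)) := indep_of_cap M hE hP.1 hTP hTc.le
      have e1 := LK5.hyp_eq_closure M hP ((Finset.coe_subset.2 hTP).trans (LK5.cap_sub M P)) hTc hI
      have e2 := LK5.hyp_eq_closure M hQ ((Finset.coe_subset.2 hTQ).trans (LK5.cap_sub M Q)) hTc hI
      exact hne (by rw [← e1, ← e2])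
  unfold AA fams
  rw [Finset.mem_filter, Finset.mem_filter]
  refine ⟨⟨Finset.mem_univ _, hfam⟩, ?_⟩
  rintro e he ⟨H, hH, heH⟩
  obtain ⟨-, P, hP, rfl⟩ := (hmem H).1 hH
  unfold zeroSets at he
  exact (Finset.mem_filter.1 he).2 P hP heH

end Pool.Agent.RKP
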