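import Pool.Agent.RKP.LJ

/-!
MP_039b14_co, ranks four to seven: the zero sets.
-/

set_option autoImplicit false

namespace Pool.Agent.RKP

open Finset H38Pav

variable {n k : ℕ}

namespace LL5

theorem mem_cap (M : Matroid (Fin n)) {P : Set (Fin n)} {p : Fin n} :
    p ∈ cap k M P ↔ p ∈ P ∧ p ∉ lc k M {q | q ∈ P ∧ q < p} := by
  classical
  simp only [cap, Finset.mem_filter, Finset.mem_univ, true_and]

theorem mem_zero (M : Matroid (Fin n)) {e : Finset (Fin n)} :
    e ∈ zeroSets k M ↔ e.card = k ∧ ∀ P, IsHyp k M P → ¬ e ⊆ cap k M P := by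
  classical
  simp only [zeroSets, sts, Finset.mem_filter, Finset.mem_powersetCard_univ]

end LL5

theorem zero_of_dep (M : Matroid (Fin n)) (hE : M.E = Set.univ) {e : Finset (Fin n)}
    (he : e.card = k) (hd : ¬ M.Indep (e : Set (Fin n))) : e ∈ zeroSets k M := by
  rw [LL5.mem_zero]
  exact ⟨he, fun P hP hsub => hd (indep_of_cap M hE hP.1 hsub (by omega))⟩

theorem zero_of_circ (M : Matroid (Fin n)) (hE : M.E = Set.univ) {D : Finset (Fin n)}
    (hD : D.card = k + 1) (hd : ¬ M.Indep (D : Set (Fin n))) {t a : Fin n} (ht : t ∈ D)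
    (hmax : ∀ d ∈ D, d ≤ t) (hi : M.Indep (D.erase t : Set (Fin n))) (ha : a ∈ D)
    (hat : a ≠ t) : D.erase a ∈ zeroSets k M := by
  have hmE : ∀ x : Fin n, x ∈ M.E := fun x => by rw [hE]; exact Set.mem_univ x
  -- a point of a dependent set is in the closure of the others if they are independent
  have key : ∀ x ∈ D, M.Indep (D.erase x : Set (Fin n)) →
      x ∈ M.closure (D.erase x : Set (Fin n)) := by
    intro x hx hI
    by_contra h
    have h1 := ((hI.notMem_closure_iff (hmE x)).1 h).1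
    apply hd
    have h2 : insert x (D.erase x : Set (Fin n)) = (D : Set (Fin n)) := by
      rw [← Finset.coe_insert, Finset.insert_erase hx]
    rw [h2] at h1
    exact h1
  rw [LL5.mem_zero]
  refine ⟨by rw [Finset.card_erase_of_mem ha, hD]; rfl, fun P hP hsub => ?_⟩
  have hIa : M.Indep (D.erase a : Set (Fin n)) :=
    indep_of_cap M hE hP.1 hsub (by rw [Finset.card_erase_of_mem ha, hD]; omega)
  have hsubP : (D.erase a : Set (Fin n)) ⊆ P := by
    intro x hx
    exact ((LL5.mem_cap M).1 (hsub hx)).1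
  have haP : a ∈ P := by
    have h1 := M.closure_subset_closure hsubP (key a ha hIa)
    rwa [hP.1.closure] at h1
  have hDP : ∀ x ∈ D, x ∈ P := by
    intro x hx
    by_cases hxa : x = a
    · rw [hxa]; exact haP
    · exact hsubP (Finset.mem_coe.2 (Finset.mem_erase.2 ⟨hxa, hx⟩))
  have htc : t ∈ cap k M P := hsub (Finset.mem_erase.2 ⟨hat.symm, ht⟩)
  refine ((LL5.mem_cap M).1 htc).2 ?_
  refine closure_subset_lc M {q | q ∈ P ∧ q < t} (Z := D.erase t) ?_ ?_ (key t ht hi)
  · refine Set.Subset.trans ?_ (subset_lc M _)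
    intro x hx
    have hx' := Finset.mem_erase.1 (Finset.mem_coe.1 hx)
    exact ⟨hDP x hx'.2, lt_of_le_of_ne (hmax x hx'.2) hx'.1⟩
  · rw [Finset.card_erase_of_mem ht, hD]; rfl

theorem zeroSets_nonempty (M : Matroid (Fin n)) (hE : M.E = Set.univ)
    (hr : M.eRank = (k : ℕ∞) + 2) (hk : 1 ≤ k) (hM : ¬ Paving M) : (zeroSets k M).Nonempty := by
  classical
  unfold Paving at hM
  push Not at hM
  obtain ⟨C, hC, hlt⟩ := hM
  rw [hr] at hlt
  obtain ⟨s, rfl⟩ : ∃ s : Finset (Fin n), (s : Set (Fin n)) = C := ⟨C.toFinset, by simp⟩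
  have hdep : ¬ M.Indep (s : Set (Fin n)) := hC.not_indep
  rw [Set.encard_coe_eq_coe_finsetCard] at hlt
  have hcard : s.card < k + 2 := by
    have : ((s.card : ℕ) : ℕ∞) < ((k + 2 : ℕ) : ℕ∞) := by push_cast; exact hlt
    exact_mod_cast this
  have hn : k + 2 ≤ n := by
    obtain ⟨B, hB⟩ := M.exists_isBase
    obtain ⟨t, rfl⟩ : ∃ t : Finset (Fin n), (t : Set (Fin n)) = B := ⟨B.toFinset, by simp⟩
    have h1 := hB.encard_eq_eRank
    rw [hr, Set.encard_coe_eq_coe_finsetCard] at h1
    have h2 : t.card = k + 2 := by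
      have : ((t.card : ℕ) : ℕ∞) = ((k + 2 : ℕ) : ℕ∞) := by push_cast; exact h1
      exact_mod_cast this
    have h3 := Finset.card_le_univ t
    rw [Fintype.card_fin] at h3
    omega
  by_cases hs : s.card ≤ k
  · obtain ⟨e, hse, he⟩ := Finset.exists_superset_card_eq hs (by rw [Fintype.card_fin]; omega)
    exact ⟨e, zero_of_dep M hE he fun h => hdep (h.subset (Finset.coe_subset.2 hse))⟩
  · have hs' : s.card = k + 1 := by omega
    have hne : s.Nonempty := Finset.card_pos.1 (by omega)
    have htm := s.max'_mem hne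
    have hi : M.Indep (s.erase (s.max' hne) : Set (Fin n)) := by
      rw [Finset.coe_erase]
      exact hC.sdiff_singleton_indep htm
    have hne2 : (s.erase (s.max' hne)).Nonempty := by
      apply Finset.card_pos.1
      rw [Finset.card_erase_of_mem htm]
      omega
    obtain ⟨a, ha⟩ := hne2
    have ha' := Finset.mem_erase.1 ha
    exact ⟨_, zero_of_circ M hE hs' hdep htm (fun d hd => s.le_max' d hd) hi ha'.2 ha'.1⟩

end Pool.Agent.RKP
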