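import Pool.Agent.RKP.Defs
import Pool.Agent.RKP.LL

/-!
MP_039b14_co, ranks four to seven, module LN: the independent sets with at most `k + 1` elements
are determined by the zero sets and their labels.
-/

set_option autoImplicit false

namespace Pool.Agent.RKP

open Finset H38Pav

variable {n k : ℕ}

open Classical in
/-- an independent list of `k` elements in the closure of the independent set `e` -/
noncomputable def lab (k : ℕ) (M : Matroid (Fin n)) (e : Finset (Fin n)) :
    Option (Fin k → Fin n) :=
  if M.Indep (e : Set (Fin n)) then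
    (if h : ∃ p : Fin k → Fin n, Function.Injective p ∧ Set.range p ⊆ M.closure (e : Set (Fin n)) ∧
      M.Indep (Set.range p) then some h.choose else none)
  else none

/-- an independent set in the closure of another one with at most as many elements has the same
closure -/
private theorem ln_closure_eq (M : Matroid (Fin n)) {I J : Set (Fin n)} (hI : M.Indep I)
    (hJ : M.Indep J) (hJI : J ⊆ M.closure I) (hc : I.encard ≤ J.encard) :
    M.closure J = M.closure I := by
  have h1 : M.eRk (M.closure I) ≤ M.eRk J := by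
    rw [M.eRk_closure_eq, hI.eRk_eq_encard, hJ.eRk_eq_encard]
    exact hc
  have h2 := hJ.isBasis_of_eRk_ge (Set.toFinite J) hJI h1
  rw [h2.closure_eq_closure, M.closure_closure]

private theorem ln_sub (M : Matroid (Fin n)) (hE : M.E = Set.univ) (X : Set (Fin n)) :
    X ⊆ M.closure X :=
  M.subset_closure X (by rw [hE]; exact Set.subset_univ _)

private theorem lab_of_not (M : Matroid (Fin n)) {e : Finset (Fin n)}
    (h : ¬ M.Indep (e : Set (Fin n))) : lab k M e = none := by
  unfold lab
  rw [if_neg h]

/-- an independent set of `k` elements has a label -/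
private theorem lab_of_indep (M : Matroid (Fin n)) (hE : M.E = Set.univ) {e : Finset (Fin n)}
    (he : e.card = k) (h : M.Indep (e : Set (Fin n))) : ∃ p : Fin k → Fin n,
      lab k M e = some p ∧ Function.Injective p ∧ Set.range p ⊆ M.closure (e : Set (Fin n)) ∧
      M.Indep (Set.range p) := by
  have h1 : ∃ p : Fin k → Fin n, Function.Injective p ∧
      Set.range p ⊆ M.closure (e : Set (Fin n)) ∧ M.Indep (Set.range p) := by
    refine ⟨e.orderEmbOfFin he, (e.orderEmbOfFin he).injective, ?_, ?_⟩
    · rw [range_orderEmbOfFin]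
      exact ln_sub M hE _
    · rw [range_orderEmbOfFin]
      exact h
  refine ⟨h1.choose, ?_, h1.choose_spec⟩
  unfold lab
  rw [if_pos h, dif_pos h1]

/-- the label only depends on the closure -/
private theorem lab_congr (M : Matroid (Fin n)) {e e' : Finset (Fin n)}
    (h : M.Indep (e : Set (Fin n))) (h' : M.Indep (e' : Set (Fin n)))
    (hc : M.closure (e : Set (Fin n)) = M.closure (e' : Set (Fin n))) :
    lab k M e = lab k M e' := by
  unfold lab
  rw [if_pos h, if_pos h']
  generalize M.closure (e : Set (Fin n)) = S at hc ⊢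
  subst hc
  rfl

/-- sets with `k` elements -/
private theorem ln_k (M N : Matroid (Fin n)) (hM : M.E = Set.univ) (hN : N.E = Set.univ)
    (hz : zeroSets k M = zeroSets k N) (hl : ∀ e ∈ zeroSets k M, lab k M e = lab k N e)
    (X : Finset (Fin n)) (hX : X.card = k) (h : M.Indep (X : Set (Fin n))) :
    N.Indep (X : Set (Fin n)) := by
  by_contra hcon
  have hmem : X ∈ zeroSets k M := by
    rw [hz]
    exact zero_of_dep N hN hX hcon
  have h2 := hl _ hmem
  rw [lab_of_not N hcon] at h2
  obtain ⟨p, hp, -⟩ := lab_of_indep M hM hX h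
  rw [hp] at h2
  exact absurd h2 (by simp)

/-- sets with at most `k` elements -/
private theorem ln_small (M N : Matroid (Fin n)) (hM : M.E = Set.univ) (hN : N.E = Set.univ)
    (hMr : M.eRank = (k : ℕ∞) + 2)
    (hz : zeroSets k M = zeroSets k N) (hl : ∀ e ∈ zeroSets k M, lab k M e = lab k N e)
    (X : Finset (Fin n)) (hX : X.card ≤ k) (h : M.Indep (X : Set (Fin n))) :
    N.Indep (X : Set (Fin n)) := by
  classical
  obtain ⟨B, hB, hXB⟩ := h.exists_isBase_superset
  have hBc : B.toFinset.card = k + 2 := by
    have h1 : B.encard = (k : ℕ∞) + 2 := by rw [hB.encard_eq_eRank, hMr]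
    rw [Set.encard_eq_coe_toFinset_card] at h1
    exact_mod_cast h1
  have hXB' : X ⊆ B.toFinset := by
    intro x hx
    rw [Set.mem_toFinset]
    exact hXB hx
  obtain ⟨Y, hXY, hYB, hYc⟩ := Finset.exists_subsuperset_card_eq hXB' hX (by omega : k ≤ _)
  have hY : M.Indep (Y : Set (Fin n)) := by
    refine hB.indep.subset ?_
    intro x hx
    have := hYB hx
    rwa [Set.mem_toFinset] at this
  exact (ln_k M N hM hN hz hl Y hYc hY).subset (by exact_mod_cast hXY)

/-- sets with `k + 1` elements -/
private theorem ln_big (M N : Matroid (Fin n)) (hM : M.E = Set.univ) (hN : N.E = Set.univ)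
    (hk : 2 ≤ k) (hz : zeroSets k M = zeroSets k N)
    (hl : ∀ e ∈ zeroSets k M, lab k M e = lab k N e)
    (X : Finset (Fin n)) (hX : X.card = k + 1) (h : M.Indep (X : Set (Fin n))) :
    N.Indep (X : Set (Fin n)) := by
  classical
  by_contra hcon
  have hMe : ∀ a ∈ X, M.Indep ((X.erase a : Finset (Fin n)) : Set (Fin n)) := by
    intro a _
    exact h.subset (by exact_mod_cast erase_subset a X)
  have hcard : ∀ a ∈ X, (X.erase a).card = k := by
    intro a ha
    rw [card_erase_of_mem ha, hX]
    omega
  have hNe : ∀ a ∈ X, N.Indep ((X.erase a : Finset (Fin n)) : Set (Fin n)) := fun a ha =>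
    ln_k M N hM hN hz hl _ (hcard a ha) (hMe a ha)
  have hcl : ∀ a ∈ X, N.closure ((X.erase a : Finset (Fin n)) : Set (Fin n)) =
      N.closure (X : Set (Fin n)) := by
    intro a ha
    apply Set.Subset.antisymm
    · exact N.closure_subset_closure (by exact_mod_cast erase_subset a X)
    · apply N.closure_subset_closure_of_subset_closure
      intro x hx
      by_cases hxa : x = a
      · rw [hxa, (hNe a ha).mem_closure_iff]
        left
        rw [← coe_insert, insert_erase ha]
        exact ⟨hcon, by rw [hN]; exact Set.subset_univ _⟩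
      · apply ln_sub N hN
        rw [mem_coe, mem_erase]
        exact ⟨hxa, hx⟩
  -- the largest element
  have hne : X.Nonempty := card_pos.1 (by omega)
  set t := X.max' hne with ht
  have htX : t ∈ X := X.max'_mem hne
  have h3 : 1 < (X.erase t).card := by
    rw [hcard t htX]
    omega
  obtain ⟨a, ha, b, hb, hab⟩ := one_lt_card.1 h3
  rw [mem_erase] at ha hb
  have hza : X.erase a ∈ zeroSets k M := by
    rw [hz]
    exact zero_of_circ N hN hX hcon htX (fun d hd => X.le_max' d hd)
      (by exact_mod_cast hNe t htX) ha.2 ha.1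
  have hzb : X.erase b ∈ zeroSets k M := by
    rw [hz]
    exact zero_of_circ N hN hX hcon htX (fun d hd => X.le_max' d hd)
      (by exact_mod_cast hNe t htX) hb.2 hb.1
  have hlab : lab k N (X.erase a) = lab k N (X.erase b) :=
    lab_congr N (hNe a ha.2) (hNe b hb.2) ((hcl a ha.2).trans (hcl b hb.2).symm)
  obtain ⟨p, hp, hpi, hpr, hpI⟩ := lab_of_indep M hM (hcard a ha.2) (hMe a ha.2)
  obtain ⟨q, hq, hqi, hqr, hqI⟩ := lab_of_indep M hM (hcard b hb.2) (hMe b hb.2)
  have hpq : p = q := by
    have : some p = some q := by rw [← hp, ← hq, hl _ hza, hl _ hzb, hlab]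
    exact Option.some.inj this
  subst hpq
  have hpc : ∀ c ∈ X, (((X.erase c : Finset (Fin n)) : Set (Fin n))).encard ≤
      (Set.range p).encard := by
    intro c hc
    rw [Set.encard_coe_eq_coe_finsetCard, hcard c hc, ← Set.image_univ,
      hpi.encard_image, Set.encard_univ, ENat.card_eq_coe_fintype_card, Fintype.card_fin]
  have e1 := ln_closure_eq M (hMe a ha.2) hpI hpr (hpc a ha.2)
  have e2 := ln_closure_eq M (hMe b hb.2) hqI hqr (hpc b hb.2)
  have e3 : M.closure ((X.erase a : Finset (Fin n)) : Set (Fin n)) =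
      M.closure ((X.erase b : Finset (Fin n)) : Set (Fin n)) := e1.symm.trans e2
  have h4 : a ∈ M.closure ((X.erase a : Finset (Fin n)) : Set (Fin n)) := by
    rw [e3]
    apply ln_sub M hM
    rw [mem_coe, mem_erase]
    exact ⟨hab, ha.2⟩
  rw [(hMe a ha.2).mem_closure_iff, ← coe_insert, insert_erase ha.2] at h4
  rcases h4 with h4 | h4
  · exact h4.not_indep h
  · simp at h4

theorem indep_of_codes (M N : Matroid (Fin n)) (hM : M.E = Set.univ) (hN : N.E = Set.univ)
    (hk : 2 ≤ k) (hMr : M.eRank = (k : ℕ∞) + 2) (hNr : N.eRank = (k : ℕ∞) + 2)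
    (hz : zeroSets k M = zeroSets k N) (hl : ∀ e ∈ zeroSets k M, lab k M e = lab k N e)
    (X : Finset (Fin n)) (hX : X.card ≤ k + 1) : M.Indep X ↔ N.Indep X := by
  have hl' : ∀ e ∈ zeroSets k N, lab k N e = lab k M e := fun e he => (hl e (hz ▸ he)).symm
  rcases Nat.lt_or_ge k X.card with h | h
  · have hX' : X.card = k + 1 := by omega
    exact ⟨ln_big M N hM hN hk hz hl X hX', ln_big N M hN hM hk hz.symm hl' X hX'⟩
  · exact ⟨ln_small M N hM hN hMr hz hl X h, ln_small N M hN hM hNr hz.symm hl' X h⟩

end Pool.Agent.RKP
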