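import Mathlib
import Pool.Agent.RKP.Defs
import Pool.Agent.RKP.LK
import Pool.Agent.RKP.LM
import Pool.Agent.RKP.LN

/-!
MP_039b14_co, ranks four to seven: the number of matroids of rank `k + 2` with at least `s` zero
sets.

A matroid `M` is determined by `P = zeroSets k M`, the family `capFam k M ∈ AA k P` and the labels
`lab k M` on `P`.
-/

set_option autoImplicit false

namespace Pool.Agent.RKP

open Finset H38Pav

/-- the codes -/
private abbrev CdO (n k s : ℕ) : Type :=
  Σ P : {P : Finset (Finset (Fin n)) // P ∈ (sts k n).powerset.filter (fun P => s ≤ P.card)},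
    {F : Finset (Finset (Fin n)) // F ∈ AA k P.1} ×
      ({e : Finset (Fin n) // e ∈ P.1} → Option (Fin k → Fin n))

private theorem card_CdO (n k s : ℕ) :
    Nat.card (CdO n k s) = ∑ P ∈ (sts k n).powerset.filter (fun P => s ≤ P.card),
      (AA k P).card * (n ^ k + 1) ^ P.card := by
  rw [Nat.card_sigma, ← Finset.sum_coe_sort ((sts k n).powerset.filter (fun P => s ≤ P.card))
    (fun P => (AA k P).card * (n ^ k + 1) ^ P.card)]
  refine Finset.sum_congr rfl (fun P _ => ?_)
  rw [Nat.card_prod, Nat.card_fun, Nat.card_eq_fintype_card, Nat.card_eq_fintype_card,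
    Nat.card_eq_fintype_card, Fintype.card_coe, Fintype.card_coe, Fintype.card_option,
    Fintype.card_fun, Fintype.card_fin, Fintype.card_fin]

open Classical in
/-- the label of a set in a code -/
private noncomputable def evcO {n k s : ℕ} (t : CdO n k s) (e : Finset (Fin n)) :
    Option (Fin k → Fin n) :=
  if h : e ∈ t.1.1 then t.2.2 ⟨e, h⟩ else none

private theorem zs_memO {n k s : ℕ} (M : Mat n) (h : s ≤ (zeroSets k M.1).card) :
    zeroSets k M.1 ∈ (sts k n).powerset.filter (fun P => s ≤ P.card) := by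
  rw [Finset.mem_filter, Finset.mem_powerset]
  refine ⟨?_, h⟩
  intro e he
  simp only [zeroSets, Finset.mem_filter] at he
  exact he.1

/-- the code of a matroid -/
private noncomputable def codeO {n k s : ℕ}
    (M : {M : Mat n // M.1.eRank = (k : ℕ∞) + 2 ∧ s ≤ (zeroSets k M.1).card}) : CdO n k s :=
  ⟨⟨zeroSets k M.1.1, zs_memO M.1 M.2.2⟩, ⟨capFam k M.1.1, capFam_mem M.1.1 M.1.2 M.2.1⟩,
    fun e => lab k M.1.1 e.1⟩

private theorem evc_codeO {n k s : ℕ}
    (M : {M : Mat n // M.1.eRank = (k : ℕ∞) + 2 ∧ s ≤ (zeroSets k M.1).card})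
    {e : Finset (Fin n)} (he : e ∈ zeroSets k M.1.1) : evcO (codeO M) e = lab k M.1.1 e := by
  have h : e ∈ (codeO M).1.1 := he
  rw [evcO, dif_pos h]
  rfl

private theorem code_injO (n k s : ℕ) (hk : 2 ≤ k) :
    Function.Injective (codeO (n := n) (k := k) (s := s)) := by
  intro M N h
  have h1 : zeroSets k M.1.1 = zeroSets k N.1.1 := congrArg (fun t : CdO n k s => t.1.1) h
  have h2 : capFam k M.1.1 = capFam k N.1.1 := congrArg (fun t : CdO n k s => t.2.1.1) h
  have h3 : ∀ e ∈ zeroSets k M.1.1, lab k M.1.1 e = lab k N.1.1 e := by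
    intro e he
    rw [← evc_codeO M he, ← evc_codeO N (h1 ▸ he), h]
  apply Subtype.ext
  apply Subtype.ext
  exact recover M.1.1 N.1.1 M.1.2 N.1.2 M.2.1 N.2.1 h2
    (indep_of_codes M.1.1 N.1.1 M.1.2 N.1.2 hk M.2.1 N.2.1 h1 h3)

theorem count_le (n k s : ℕ) (hk : 2 ≤ k) :
    Nat.card {M : Mat n // M.1.eRank = (k : ℕ∞) + 2 ∧ s ≤ (zeroSets k M.1).card} ≤
      ∑ P ∈ (sts k n).powerset.filter (fun P => s ≤ P.card),
        (AA k P).card * (n ^ k + 1) ^ P.card := by
  rw [← card_CdO]
  exact Nat.card_le_card_of_injective _ (code_injO n k s hk)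

end Pool.Agent.RKP
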