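import Pool.Agent.RKP.KJ
import Pool.Agent.RKP.LL
import Pool.Agent.RKP.LO
import Pool.Agent.RKP.LP

/-!
# Almost all matroids of rank four to seven are paving, labelled version (helper91)
-/

set_option autoImplicit false

namespace Pool.Agent.RKP

open Finset H38Pav

/-- almost all labelled matroids of rank four to seven are paving -/
theorem final_np (k A : ℕ) (hk : 2 ≤ k) (hk5 : k ≤ 5) : ∃ N : ℕ, ∀ n : ℕ, N ≤ n →
    n ^ A * Nat.card {M : Mat n // M.1.eRank = (k : ℕ∞) + 2 ∧ ¬ Paving M.1} ≤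
      Nat.card {M : Mat n // M.1.eRank = (k : ℕ∞) + 2} := by
  obtain ⟨N, hN⟩ := sum_small k A hk hk5
  refine ⟨max N (k + 3), fun n hn => ?_⟩
  have h1 : Nat.card {M : Mat n // M.1.eRank = (k : ℕ∞) + 2 ∧ ¬ Paving M.1} ≤
      Nat.card {M : Mat n // M.1.eRank = (k : ℕ∞) + 2 ∧ 1 ≤ (zeroSets k M.1).card} := by
    refine Nat.card_le_card_of_injective (fun M => ⟨M.1, M.2.1, Finset.card_pos.mpr
      (zeroSets_nonempty M.1.1 M.1.2 M.2.1 (by omega) M.2.2)⟩) ?_
    intro M M' h
    exact Subtype.ext (congrArg (fun x => x.1) h)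
  have h2 := hN n ((le_max_left _ _).trans hn) 1 le_rfl
  rw [mul_one] at h2
  exact (Nat.mul_le_mul_left _ (h1.trans (count_le n k 1 hk))).trans
    (h2.trans (fams_le ((le_max_right _ _).trans hn)))

end Pool.Agent.RKP
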