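import Pool.Agent.RKP.LL

/-!
MP_039b14_co, ranks four to seven: many zero sets in matroids with a loop or with two coloops.
-/

set_option autoImplicit false

namespace Pool.Agent.RKP

open Finset H38Pav

variable {n k : ℕ}

theorem zero_loop (M : Matroid (Fin n)) (hE : M.E = Set.univ) (hk : 1 ≤ k) {b : Fin n}
    (hb : ¬ M.Indep {b}) : (n - 1).choose (k - 1) ≤ (zeroSets k M).card := by
  have h1 : ((univ.erase b : Finset (Fin n)).powersetCard (k - 1)).card =
      (n - 1).choose (k - 1) := by
    rw [Finset.card_powersetCard, Finset.card_erase_of_mem (Finset.mem_univ b), Finset.card_univ,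
      Fintype.card_fin]
  rw [← h1]
  have hnot : ∀ s ∈ (univ.erase b : Finset (Fin n)).powersetCard (k - 1), b ∉ s := by
    intro s hs hbs
    exact Finset.ne_of_mem_erase ((Finset.mem_powersetCard.1 hs).1 hbs) rfl
  refine Finset.card_le_card_of_injOn (fun s => insert b s) ?_ ?_
  · intro s hs
    have hs' := Finset.mem_coe.1 hs
    refine zero_of_dep M hE ?_ ?_
    · rw [Finset.card_insert_of_notMem (hnot s hs'), (Finset.mem_powersetCard.1 hs').2]
      omega
    · intro hi
      exact hb (hi.subset (by simp))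
  · intro s hs s' hs' hss
    have h2 : (insert b s).erase b = (insert b s').erase b :=
      congrArg (fun u => Finset.erase u b) hss
    rwa [Finset.erase_insert (hnot s (Finset.mem_coe.1 hs)),
      Finset.erase_insert (hnot s' (Finset.mem_coe.1 hs'))] at h2

/-- sets of `k + 1` points off two coloops are dependent in rank `k + 2` -/
private theorem dep_off (M : Matroid (Fin n)) (hr : M.eRank = (k : ℕ∞) + 2) {c₁ c₂ : Fin n}
    (hne : c₁ ≠ c₂) (h1 : ∀ B, M.IsBase B → c₁ ∈ B) (h2 : ∀ B, M.IsBase B → c₂ ∈ B)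
    {D : Finset (Fin n)} (hD : D.card = k + 1) (hoff : D ⊆ univ \ ({c₁, c₂} : Finset (Fin n))) :
    ¬ M.Indep (D : Set (Fin n)) := by
  classical
  intro hi
  obtain ⟨B, hB, hsub⟩ := hi.exists_isBase_superset
  have e1 := hB.encard_eq_eRank
  have hsub' : ((D ∪ {c₁, c₂} : Finset (Fin n)) : Set (Fin n)) ⊆ B := by
    intro w hw
    rw [Finset.mem_coe, Finset.mem_union] at hw
    rcases hw with hw | hw
    · exact hsub hw
    · rw [Finset.mem_insert, Finset.mem_singleton] at hw
      rcases hw with rfl | rfl
      · exact h1 B hB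
      · exact h2 B hB
  have hdisj : Disjoint D {c₁, c₂} := by
    rw [Finset.disjoint_left]
    intro w hw hw'
    exact (Finset.mem_sdiff.1 (hoff hw)).2 hw'
  have hc : (D ∪ {c₁, c₂}).card = k + 3 := by
    rw [Finset.card_union_of_disjoint hdisj, Finset.card_pair hne, hD]
  have e2 := Set.encard_le_encard hsub'
  rw [Set.encard_coe_eq_coe_finsetCard, hc, e1, hr] at e2
  have e3 : k + 3 ≤ k + 2 := by exact_mod_cast e2
  omega

/-- an independent set which is obtained from `f` by replacing the greatest element by a smaller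
point shows that `f` is a zero set -/
private theorem zero_of_smaller (M : Matroid (Fin n)) (hE : M.E = Set.univ)
    (hr : M.eRank = (k : ℕ∞) + 2) {c₁ c₂ : Fin n}
    (hne : c₁ ≠ c₂) (h1 : ∀ B, M.IsBase B → c₁ ∈ B) (h2 : ∀ B, M.IsBase B → c₂ ∈ B)
    {f : Finset (Fin n)} (hf : f.card = k) (hoff : f ⊆ univ \ ({c₁, c₂} : Finset (Fin n)))
    {t a : Fin n} (ht : t ∈ f) (hmax : ∀ d ∈ f, d ≤ t)
    (haV : a ∈ univ \ ({c₁, c₂} : Finset (Fin n))) (hat : a < t) (haf : a ∉ f)
    (hi : M.Indep ((insert a (f.erase t) : Finset (Fin n)) : Set (Fin n))) :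
    f ∈ zeroSets k M := by
  have hD : (insert a f).card = k + 1 := by rw [Finset.card_insert_of_notMem haf, hf]
  have hd := dep_off M hr hne h1 h2 hD (Finset.insert_subset haV hoff)
  have h3 : (insert a f).erase t = insert a (f.erase t) := by
    rw [Finset.erase_insert_of_ne (ne_of_lt hat)]
  have h4 := zero_of_circ M hE hD hd (t := t) (a := a) (Finset.mem_insert_of_mem ht)
    (by
      intro d hd'
      rcases Finset.mem_insert.1 hd' with rfl | hd'
      · exact le_of_lt hat
      · exact hmax d hd')
    (by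
      rw [h3]
      exact hi) (Finset.mem_insert_self a f) (ne_of_lt hat)
  rwa [Finset.erase_insert haf] at h4

open Classical in
/-- a set without its greatest element -/
private noncomputable def cut (e : Finset (Fin n)) : Finset (Fin n) :=
  if h : e.Nonempty then e.erase (e.max' h) else ∅

theorem zero_two_coloops (M : Matroid (Fin n)) (hE : M.E = Set.univ) (hk : 1 ≤ k)
    (hr : M.eRank = (k : ℕ∞) + 2) {c₁ c₂ : Fin n} (hne : c₁ ≠ c₂)
    (h1 : ∀ B, M.IsBase B → c₁ ∈ B) (h2 : ∀ B, M.IsBase B → c₂ ∈ B) :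
    (n - 2).choose k ≤ (zeroSets k M).card + (n - 2).choose (k - 1) := by
  classical
  have hV : (univ \ ({c₁, c₂} : Finset (Fin n))).card = n - 2 := by
    rw [Finset.card_sdiff_of_subset (Finset.subset_univ _), Finset.card_pair hne, Finset.card_univ,
      Fintype.card_fin]
  set V := univ \ ({c₁, c₂} : Finset (Fin n)) with hVdef
  have hnon : ∀ e ∈ V.powersetCard k, e.Nonempty := by
    intro e he
    rw [← Finset.card_pos, (Finset.mem_powersetCard.1 he).2]
    omega
  have hcut : ∀ e ∈ V.powersetCard k, ∃ t ∈ e, (∀ d ∈ e, d ≤ t) ∧ cut e = e.erase t := by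
    intro e he
    refine ⟨e.max' (hnon e he), e.max'_mem _, fun d hd => e.le_max' d hd, ?_⟩
    unfold cut
    rw [dif_pos (hnon e he)]
  -- the key step
  have key : ∀ e ∈ V.powersetCard k, ∀ f ∈ V.powersetCard k, e ∉ zeroSets k M →
      f ∉ zeroSets k M → ∀ s t : Fin n, s ∈ e → t ∈ f → (∀ d ∈ e, d ≤ s) → (∀ d ∈ f, d ≤ t) →
      e.erase s = f.erase t → ¬ s < t := by
    intro e he f hf he0 hf0 s t hs ht hms hmt heq hst
    have hei : M.Indep (e : Set (Fin n)) := by
      by_contra hcon
      exact he0 (zero_of_dep M hE (Finset.mem_powersetCard.1 he).2 hcon)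
    refine hf0 (zero_of_smaller M hE hr hne h1 h2 (Finset.mem_powersetCard.1 hf).2
      (Finset.mem_powersetCard.1 hf).1 ht hmt (a := s) ((Finset.mem_powersetCard.1 he).1 hs) hst
      ?_ ?_)
    · intro hsf
      have : s ∈ e.erase s := by
        rw [heq]
        exact Finset.mem_erase.2 ⟨ne_of_lt hst, hsf⟩
      exact (Finset.notMem_erase s e) this
    · rw [← heq, Finset.insert_erase hs]
      exact hei
  have hinj : ((V.powersetCard k).filter (fun e => e ∉ zeroSets k M)).card ≤
      (V.powersetCard (k - 1)).card := by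
    refine Finset.card_le_card_of_injOn cut ?_ ?_
    · intro e he
      have he' := Finset.mem_filter.1 (Finset.mem_coe.1 he)
      obtain ⟨t, ht, _, hc⟩ := hcut e he'.1
      rw [Finset.mem_coe, hc, Finset.mem_powersetCard]
      refine ⟨(Finset.erase_subset _ _).trans (Finset.mem_powersetCard.1 he'.1).1, ?_⟩
      rw [Finset.card_erase_of_mem ht, (Finset.mem_powersetCard.1 he'.1).2]
    · intro e he f hf hef
      have he' := Finset.mem_filter.1 (Finset.mem_coe.1 he)
      have hf' := Finset.mem_filter.1 (Finset.mem_coe.1 hf)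
      obtain ⟨s, hs, hms, hcs⟩ := hcut e he'.1
      obtain ⟨t, ht, hmt, hct⟩ := hcut f hf'.1
      have heq : e.erase s = f.erase t := by rw [← hcs, ← hct]; exact hef
      have a1 := key e he'.1 f hf'.1 he'.2 hf'.2 s t hs ht hms hmt heq
      have a2 := key f hf'.1 e he'.1 hf'.2 he'.2 t s ht hs hmt hms heq.symm
      have hst : s = t := le_antisymm (not_lt.1 a2) (not_lt.1 a1)
      rw [← Finset.insert_erase hs, heq, hst, Finset.insert_erase ht]
  have hz : ((V.powersetCard k).filter (fun e => ¬ e ∉ zeroSets k M)).card ≤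
      (zeroSets k M).card := by
    refine Finset.card_le_card ?_
    intro e he
    exact not_not.1 (Finset.mem_filter.1 he).2
  have hsplit := Finset.card_filter_add_card_filter_not (s := V.powersetCard k)
    (fun e => e ∉ zeroSets k M)
  rw [Finset.card_powersetCard, hV] at hsplit hinj
  omega

end Pool.Agent.RKP
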