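import Pool.Agent.RKP.Defs
import Pool.Agent.R4P.RpT
import Pool.Agent.H83Pav.Aut

/-!
MP_039b14_co, ranks four to seven: the matroids of rank `k + 2` which are fixed by a permutation.
-/

set_option autoImplicit false

namespace Pool.Agent.RKP

open Finset H38Pav H83Pav

variable {n : ℕ}

theorem lt_lp_eRank (M : Matroid (Fin n)) {r : ℕ∞} (hr : M.eRank = r) {b : Fin n}
    {B : Set (Fin n)} (hB : M.IsBase B) (hb : b ∉ B) : (R4P.lp M b).eRank = r := by
  apply le_antisymm
  · obtain ⟨C, hC⟩ := (R4P.lp M b).exists_isBase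
    rw [← hC.encard_eq_eRank, ← hr]
    exact ((R4P.lp_indep M b C).1 hC.indep).1.encard_le_eRank
  · rw [← hr, ← hB.encard_eq_eRank]
    exact ((R4P.lp_indep M b B).2 ⟨hB.indep, hb⟩).encard_le_eRank

theorem lt_isBase_iff_indep {M : Matroid (Fin n)} {r : ℕ∞} (hr : M.eRank = r) {S : Set (Fin n)}
    (hS : S.encard = r) : M.IsBase S ↔ M.Indep S :=
  ⟨fun h => h.indep, fun h => h.isBase_of_eRk_ge S.toFinite
    (by rw [h.eRk_eq_encard, hS, hr])⟩

theorem lt_eq_of_pair {k : ℕ} (hk : 2 ≤ k) {B : Set (Fin n)} (h4 : B.encard = (k : ℕ∞) + 2)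
    {b c : Fin n} (hbc : b ≠ c) (hb : b ∈ B) (hc : c ∈ B) :
    ∃ (K : Finset (Fin n)) (u v : Fin n), K.card = k - 2 ∧ u ≠ v ∧
      u ∉ insert b (insert c (K : Set (Fin n))) ∧ v ∉ insert b (insert c (K : Set (Fin n))) ∧
      B = insert v (insert u (insert b (insert c (K : Set (Fin n))))) := by
  classical
  obtain ⟨S, rfl⟩ : ∃ S : Finset (Fin n), B = (S : Set (Fin n)) :=
    ⟨B.toFinite.toFinset, (Set.Finite.coe_toFinset _).symm⟩
  rw [Set.encard_coe_eq_coe_finsetCard] at h4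
  have hS : S.card = k + 2 := by exact_mod_cast h4
  have hb' : b ∈ S := hb
  have hc' : c ∈ S := hc
  have hc2 : c ∈ S.erase b := mem_erase.mpr ⟨fun h => hbc h.symm, hc'⟩
  have c1 : (S.erase b).card = k + 1 := by rw [card_erase_of_mem hb', hS]; omega
  have c2 : ((S.erase b).erase c).card = k := by rw [card_erase_of_mem hc2, c1]; omega
  obtain ⟨u, hu⟩ : ((S.erase b).erase c).Nonempty := card_pos.mp (by omega)
  have c3 : (((S.erase b).erase c).erase u).card = k - 1 := by rw [card_erase_of_mem hu, c2]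
  obtain ⟨v, hv⟩ : (((S.erase b).erase c).erase u).Nonempty := card_pos.mp (by omega)
  have c4 : ((((S.erase b).erase c).erase u).erase v).card = k - 2 := by
    rw [card_erase_of_mem hv, c3]; omega
  refine ⟨(((S.erase b).erase c).erase u).erase v, u, v, c4, ?_, ?_, ?_, ?_⟩
  · intro h
    rw [← h] at hv
    exact (mem_erase.mp hv).1 rfl
  · rw [mem_erase, mem_erase] at hu
    simp only [Set.mem_insert_iff, mem_coe, mem_erase]
    tauto
  · rw [mem_erase, mem_erase, mem_erase] at hv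
    simp only [Set.mem_insert_iff, mem_coe, mem_erase]
    tauto
  · rw [← coe_insert, ← coe_insert, ← coe_insert, ← coe_insert]
    congr 1
    rw [mem_erase, mem_erase, mem_erase] at hv
    rw [mem_erase, mem_erase] at hu
    ext z
    simp only [mem_insert, mem_erase]
    constructor
    · intro hz
      tauto
    · rintro (hz | hz | hz | hz | hz)
      · rw [hz]; exact hv.2.2.2
      · rw [hz]; exact hu.2.2
      · rw [hz]; exact hb'
      · rw [hz]; exact hc'
      · exact hz.2.2.2.2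

/-- a fixed matroid is determined by the matroid in which `b` is made a loop and by the lines
through the sets with `k` elements which contain `b` and its image -/
theorem lt_eq_of_codes {k : ℕ} (hk : 2 ≤ k) {σ : Equiv.Perm (Fin n)} {b : Fin n} (hb : σ b ≠ b)
    {M N : Mat n} (hM : M.1.eRank = (k : ℕ∞) + 2) (hN : N.1.eRank = (k : ℕ∞) + 2)
    (hMf : act σ M = M) (hNf : act σ N = N) (hl : R4P.lp M.1 b = R4P.lp N.1 b)
    (hg : ∀ (K : Finset (Fin n)) (u : Fin n), K.card = k - 2 →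
      R4P.gg M.1 (insert b (insert (σ b) (K : Set (Fin n)))) u =
        R4P.gg N.1 (insert b (insert (σ b) (K : Set (Fin n)))) u) : M = N := by
  have case1 : ∀ B : Set (Fin n), B.encard = (k : ℕ∞) + 2 → b ∉ B →
      (M.1.IsBase B ↔ N.1.IsBase B) := by
    intro B h4 hbB
    rw [lt_isBase_iff_indep hM h4, lt_isBase_iff_indep hN h4]
    have h1 := R4P.lp_indep M.1 b B
    have h2 := R4P.lp_indep N.1 b B
    rw [hl] at h1
    constructor
    · intro h
      exact (h2.mp (h1.mpr ⟨h, hbB⟩)).1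
    · intro h
      exact (h1.mp (h2.mpr ⟨h, hbB⟩)).1
  have case2 : ∀ B : Set (Fin n), B.encard = (k : ℕ∞) + 2 → b ∈ B → σ b ∈ B →
      (M.1.IsBase B ↔ N.1.IsBase B) := by
    intro B h4 hbB hcB
    rw [lt_isBase_iff_indep hM h4, lt_isBase_iff_indep hN h4]
    obtain ⟨K, u, v, hK, huv, hu, hv, rfl⟩ := lt_eq_of_pair hk h4 (Ne.symm hb) hbB hcB
    rw [R4P.t_indep_iff_gg M.2 huv hu hv, R4P.t_indep_iff_gg N.2 huv hu hv, hg K u hK, hg K v hK]
  have hfix : ∀ K : Mat n, act σ K = K → ∀ B : Set (Fin n),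
      (K.1.IsBase B ↔ K.1.IsBase (σ '' B)) := by
    intro K hK B
    have h := act_isBase σ K B
    rw [hK] at h
    exact h.symm
  apply Subtype.ext
  refine Matroid.ext_isBase (by rw [M.2, N.2]) (fun B _ => ?_)
  by_cases h4 : B.encard = (k : ℕ∞) + 2
  · by_cases hbB : b ∈ B
    · by_cases hcB : σ b ∈ B
      · exact case2 B h4 hbB hcB
      · rw [hfix M hMf B, hfix N hNf B]
        have h4' : (σ '' B).encard = (k : ℕ∞) + 2 := by
          rw [Function.Injective.encard_image σ.injective, h4]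
        by_cases hb2 : b ∈ σ '' B
        · exact case2 _ h4' hb2 (Set.mem_image_of_mem _ hbB)
        · exact case1 _ h4' hb2
    · exact case1 B h4 hbB
  · constructor
    · intro h
      exact absurd (by rw [h.encard_eq_eRank, hM]) h4
    · intro h
      exact absurd (by rw [h.encard_eq_eRank, hN]) h4

theorem fix_le (k : ℕ) (hk : 2 ≤ k) (σ : Equiv.Perm (Fin n)) (b : Fin n) (hb : σ b ≠ b) :
    Nat.card {M : Mat n // M.1.eRank = (k : ℕ∞) + 2 ∧ act σ M = M ∧
      ∃ B, M.1.IsBase B ∧ b ∉ B} ≤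
      (n + 1) ^ (n * n.choose (k - 2)) *
        Nat.card {M : Mat n // M.1.eRank = (k : ℕ∞) + 2 ∧ ¬ M.1.Indep {b}} := by
  have hlp : ∀ M : {M : Mat n // M.1.eRank = (k : ℕ∞) + 2 ∧ act σ M = M ∧
      ∃ B, M.1.IsBase B ∧ b ∉ B},
      (R4P.lp M.1.1 b).eRank = (k : ℕ∞) + 2 ∧ ¬ (R4P.lp M.1.1 b).Indep {b} := by
    rintro ⟨M, hr, _, B, hB, hbB⟩
    refine ⟨lt_lp_eRank M.1 hr hB hbB, fun h => ?_⟩
    exact ((R4P.lp_indep M.1 b {b}).mp h).2 (Set.mem_singleton b)
  have hinj : Function.Injective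
      (fun M : {M : Mat n // M.1.eRank = (k : ℕ∞) + 2 ∧ act σ M = M ∧
        ∃ B, M.1.IsBase B ∧ b ∉ B} =>
        ((fun p => R4P.gg M.1.1 (insert b (insert (σ b) (p.1.1 : Set (Fin n)))) p.2,
          ⟨⟨R4P.lp M.1.1 b, R4P.lp_E M.1.1 b⟩, hlp M⟩) :
          ({K : Finset (Fin n) // K.card = k - 2} × Fin n → Option (Fin n)) ×
            {M : Mat n // M.1.eRank = (k : ℕ∞) + 2 ∧ ¬ M.1.Indep {b}})) := by
    intro M N h
    obtain ⟨h1, h2⟩ := Prod.ext_iff.mp h
    have h3 : R4P.lp M.1.1 b = R4P.lp N.1.1 b := congrArg (fun K => K.1.1) h2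
    exact Subtype.ext (lt_eq_of_codes hk hb M.2.1 N.2.1 M.2.2.1 N.2.2.1 h3
      (fun K u hK => congrFun h1 (⟨K, hK⟩, u)))
  have h := Nat.card_le_card_of_injective _ hinj
  rw [Nat.card_prod] at h
  have hc : Nat.card ({K : Finset (Fin n) // K.card = k - 2} × Fin n → Option (Fin n)) =
      (n + 1) ^ (n * n.choose (k - 2)) := by
    rw [Nat.card_eq_fintype_card, Fintype.card_fun, Fintype.card_option, Fintype.card_prod,
      Fintype.card_finset_len, Fintype.card_fin, Nat.mul_comm]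
  rw [hc] at h
  exact h

end Pool.Agent.RKP
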