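import Pool.Agent.RKP.Defs
import Pool.Agent.RKP.LO
import Pool.Agent.RKP.KJ
import Pool.Agent.RKP.LS
import Pool.Agent.RKP.LT
import Pool.Agent.H83Pav.Aut

/-!
Almost all matroids of rank `k + 2` are asymmetric.
-/

set_option autoImplicit false

namespace Pool.Agent.RKP

open Finset H38Pav H83Pav

variable {n : ℕ}

namespace LU

theorem card_mono {p q : Mat n → Prop} (h : ∀ M, p M → q M) :
    Nat.card {M : Mat n // p M} ≤ Nat.card {M : Mat n // q M} :=
  Nat.card_le_card_of_injective (Subtype.map id h) (Subtype.map_injective h Function.injective_id)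

theorem card_union3 {p q₁ q₂ q₃ : Mat n → Prop} (h : ∀ M, p M → q₁ M ∨ q₂ M ∨ q₃ M) :
    Nat.card {M : Mat n // p M} ≤ Nat.card {M : Mat n // q₁ M} + Nat.card {M : Mat n // q₂ M} +
      Nat.card {M : Mat n // q₃ M} := by
  classical
  have : Fintype (Mat n) := Fintype.ofFinite _
  simp only [Nat.card_eq_fintype_card, Fintype.card_subtype]
  have h1 : (univ.filter p : Finset (Mat n)) ⊆
      (univ.filter q₁ ∪ univ.filter q₂) ∪ univ.filter q₃ := by
    intro M hM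
    simp only [Finset.mem_filter, Finset.mem_univ, true_and, Finset.mem_union] at hM ⊢
    rcases h M hM with h | h | h
    · exact Or.inl (Or.inl h)
    · exact Or.inl (Or.inr h)
    · exact Or.inr h
  refine (Finset.card_le_card h1).trans ((Finset.card_union_le _ _).trans ?_)
  exact Nat.add_le_add_right (Finset.card_union_le _ _) _

/-- `n C(n, j) ≤ 4 (j + 1) C(n - 1, j + 1)` for `n ≥ 2 (j + 1)` -/
theorem choose_bound {n j : ℕ} (h : 2 * (j + 1) ≤ n) :
    n * n.choose j ≤ 4 * (j + 1) * (n - 1).choose (j + 1) := by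
  have h1 : n.choose (j + 1) * (j + 1) = n.choose j * (n - j) := Nat.choose_succ_right_eq n j
  obtain ⟨m, rfl⟩ : ∃ m, n = m + 1 := ⟨n - 1, by omega⟩
  rw [Nat.add_sub_cancel]
  have h2 : m.choose (j + 1) * (m + 1) = (m + 1).choose (j + 1) * (m + 1 - (j + 1)) :=
    Nat.choose_mul_succ_eq m (j + 1)
  have h3 : (m + 1).choose (j + 1) ≤ 2 * m.choose (j + 1) := by
    have h4 : (m + 1).choose (j + 1) * (m + 1) ≤ 2 * m.choose (j + 1) * (m + 1) := by
      calc (m + 1).choose (j + 1) * (m + 1)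
          ≤ (m + 1).choose (j + 1) * (2 * (m + 1 - (j + 1))) := Nat.mul_le_mul_left _ (by omega)
        _ = 2 * ((m + 1).choose (j + 1) * (m + 1 - (j + 1))) := by ring
        _ = 2 * m.choose (j + 1) * (m + 1) := by rw [← h2]; ring
    exact Nat.le_of_mul_le_mul_right h4 (by omega)
  calc (m + 1) * (m + 1).choose j ≤ (2 * (m + 1 - j)) * (m + 1).choose j :=
        Nat.mul_le_mul_right _ (by omega)
    _ = 2 * ((m + 1).choose j * (m + 1 - j)) := by ring
    _ = 2 * ((m + 1).choose (j + 1) * (j + 1)) := by rw [h1]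
    _ ≤ 2 * ((2 * m.choose (j + 1)) * (j + 1)) :=
        Nat.mul_le_mul_left _ (Nat.mul_le_mul_right _ h3)
    _ = 4 * (j + 1) * m.choose (j + 1) := by ring

theorem col_bound {n j : ℕ} (h : 4 * (j + 2) + 4 ≤ n) :
    (n - 1).choose (j + 1) + (n - 2).choose (j + 1) ≤ (n - 2).choose (j + 2) := by
  obtain ⟨m, rfl⟩ : ∃ m, n = m + 2 := ⟨n - 2, by omega⟩
  have e1 : m + 2 - 1 = m + 1 := by omega
  have e2 : m + 2 - 2 = m := by omega
  rw [e1, e2, Nat.choose_succ_succ']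
  have h1 : m.choose (j + 1) * (j + 1) = m.choose j * (m - j) := Nat.choose_succ_right_eq m j
  have h2 : m.choose (j + 2) * (j + 2) = m.choose (j + 1) * (m - (j + 1)) :=
    Nat.choose_succ_right_eq m (j + 1)
  have h3 : m.choose j ≤ m.choose (j + 1) := by
    have h4 : m.choose j * (j + 1) ≤ m.choose (j + 1) * (j + 1) := by
      rw [h1]
      exact Nat.mul_le_mul_left _ (by omega)
    exact Nat.le_of_mul_le_mul_right h4 (by omega)
  have h5 : 3 * m.choose (j + 1) ≤ m.choose (j + 2) := by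
    have h6 : 3 * m.choose (j + 1) * (j + 2) ≤ m.choose (j + 2) * (j + 2) := by
      rw [h2]
      calc 3 * m.choose (j + 1) * (j + 2) = m.choose (j + 1) * (3 * (j + 2)) := by ring
        _ ≤ m.choose (j + 1) * (m - (j + 1)) := Nat.mul_le_mul_left _ (by omega)
    exact Nat.le_of_mul_le_mul_right h6 (by omega)
  omega

/-- the numerical part -/
theorem numeric {A n j s F Z : ℕ} (hn : 4 * (j + 2) + 4 ≤ n) (hs : s = (n - 1).choose (j + 1))
    (h : n ^ ((A + 12 * (j + 2) + 2) * s) * Z ≤ F) :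
    n ^ A * (n ^ n * ((n + 1) ^ (n * n.choose j) * Z + (n + 1) ^ (n * n.choose j) * Z + Z)) ≤
      F := by
  have hc := choose_bound (n := n) (j := j) (by omega)
  rw [← hs] at hc
  have hc1 : 1 ≤ n.choose j := Nat.choose_pos (by omega)
  have hn4 : n ≤ 4 * (j + 1) * s := le_trans (Nat.le_mul_of_pos_right n hc1) hc
  have hs1 : 1 ≤ s := by
    rcases Nat.eq_zero_or_pos s with h0 | h0
    · rw [h0, mul_zero] at hn4
      omega
    · exact h0
  have a1 : (n + 1) ^ (n * n.choose j) ≤ n ^ (2 * (n * n.choose j)) := by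
    rw [pow_mul n 2]
    refine Nat.pow_le_pow_left ?_ _
    nlinarith
  have a2 : 3 ≤ n ^ 1 := by rw [pow_one]; omega
  have a3 : 1 ≤ (n + 1) ^ (n * n.choose j) := Nat.one_le_pow _ _ (by omega)
  have e1 : (n + 1) ^ (n * n.choose j) * Z + (n + 1) ^ (n * n.choose j) * Z + Z ≤
      3 * (n + 1) ^ (n * n.choose j) * Z := by
    have : Z ≤ (n + 1) ^ (n * n.choose j) * Z := Nat.le_mul_of_pos_left Z a3
    calc (n + 1) ^ (n * n.choose j) * Z + (n + 1) ^ (n * n.choose j) * Z + Z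
        ≤ (n + 1) ^ (n * n.choose j) * Z + (n + 1) ^ (n * n.choose j) * Z +
          (n + 1) ^ (n * n.choose j) * Z := Nat.add_le_add_left this _
      _ = 3 * (n + 1) ^ (n * n.choose j) * Z := by ring
  have e2 : n ^ A * (n ^ n * (3 * (n + 1) ^ (n * n.choose j))) ≤
      n ^ ((A + 12 * (j + 2) + 2) * s) := by
    calc n ^ A * (n ^ n * (3 * (n + 1) ^ (n * n.choose j)))
        ≤ n ^ A * (n ^ n * (n ^ 1 * n ^ (2 * (n * n.choose j)))) :=
          Nat.mul_le_mul_left _ (Nat.mul_le_mul_left _ (Nat.mul_le_mul a2 a1))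
      _ = n ^ (A + (n + (1 + 2 * (n * n.choose j)))) := by
          rw [← pow_add, ← pow_add, ← pow_add]
      _ ≤ n ^ ((A + 12 * (j + 2) + 2) * s) := by
          refine Nat.pow_le_pow_right (by omega) ?_
          have b1 : A ≤ A * s := Nat.le_mul_of_pos_right A hs1
          have b2 : (A + 12 * (j + 2) + 2) * s = A * s + 4 * (j + 1) * s + 2 * (4 * (j + 1) * s) +
            14 * s := by ring
          rw [b2]
          omega
  calc n ^ A * (n ^ n * ((n + 1) ^ (n * n.choose j) * Z + (n + 1) ^ (n * n.choose j) * Z + Z))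
      ≤ n ^ A * (n ^ n * (3 * (n + 1) ^ (n * n.choose j) * Z)) :=
        Nat.mul_le_mul_left _ (Nat.mul_le_mul_left _ e1)
    _ = n ^ A * (n ^ n * (3 * (n + 1) ^ (n * n.choose j))) * Z := by ring
    _ ≤ n ^ ((A + 12 * (j + 2) + 2) * s) * Z := Nat.mul_le_mul_right _ e2
    _ ≤ F := h

end LU

open LU

/-- the statement from the statements of LO, KJ, LS, LT -/
theorem asym_of (k : ℕ) (hk : 2 ≤ k)
    (hcount : ∀ n s : ℕ,
      Nat.card {M : Mat n // M.1.eRank = (k : ℕ∞) + 2 ∧ s ≤ (zeroSets k M.1).card} ≤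
        ∑ P ∈ (sts k n).powerset.filter (fun P => s ≤ P.card),
          (AA k P).card * (n ^ k + 1) ^ P.card)
    (hsum : ∀ A : ℕ, ∃ N : ℕ, ∀ n : ℕ, N ≤ n → ∀ s : ℕ, 1 ≤ s →
      n ^ (A * s) * ∑ P ∈ (sts k n).powerset.filter (fun P => s ≤ P.card),
        (AA k P).card * (n ^ k + 1) ^ P.card ≤ (fams k n).card)
    (hloop : ∀ (n : ℕ) (M : Matroid (Fin n)), M.E = Set.univ → ∀ b : Fin n, ¬ M.Indep {b} →
      (n - 1).choose (k - 1) ≤ (zeroSets k M).card)
    (hcol : ∀ (n : ℕ) (M : Matroid (Fin n)), M.E = Set.univ → M.eRank = (k : ℕ∞) + 2 →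
      ∀ c₁ c₂ : Fin n, c₁ ≠ c₂ → (∀ B, M.IsBase B → c₁ ∈ B) → (∀ B, M.IsBase B → c₂ ∈ B) →
        (n - 2).choose k ≤ (zeroSets k M).card + (n - 2).choose (k - 1))
    (hfix : ∀ (n : ℕ) (σ : Equiv.Perm (Fin n)) (b : Fin n), σ b ≠ b →
      Nat.card {M : Mat n // M.1.eRank = (k : ℕ∞) + 2 ∧ act σ M = M ∧
        ∃ B, M.1.IsBase B ∧ b ∉ B} ≤
        (n + 1) ^ (n * n.choose (k - 2)) *
          Nat.card {M : Mat n // M.1.eRank = (k : ℕ∞) + 2 ∧ ¬ M.1.Indep {b}})
    (A : ℕ) : ∃ N : ℕ, ∀ n : ℕ, N ≤ n →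
    n ^ A * ∑ σ ∈ (univ : Finset (Equiv.Perm (Fin n))).erase 1,
      Nat.card {M : Mat n // M.1.eRank = (k : ℕ∞) + 2 ∧ act σ M = M} ≤ (fams k n).card := by
  obtain ⟨j, rfl⟩ : ∃ j, k = j + 2 := ⟨k - 2, by omega⟩
  have ek1 : j + 2 - 1 = j + 1 := by omega
  have ek2 : j + 2 - 2 = j := by omega
  obtain ⟨N, hN⟩ := hsum (A + 12 * (j + 2) + 2)
  refine ⟨max N (4 * (j + 2) + 4), fun n hn => ?_⟩
  have hnN : N ≤ n := (le_max_left _ _).trans hn
  have hn8 : 4 * (j + 2) + 4 ≤ n := (le_max_right _ _).trans hn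
  obtain ⟨s, hs⟩ : ∃ s, s = (n - 1).choose (j + 1) := ⟨_, rfl⟩
  have hs1 : 1 ≤ s := by
    rw [hs]
    exact Nat.choose_pos (by omega)
  set Z : ℕ := Nat.card {M : Mat n // M.1.eRank = ((j + 2 : ℕ) : ℕ∞) + 2 ∧
    s ≤ (zeroSets (j + 2) M.1).card} with hZ
  have hZk : n ^ ((A + 12 * (j + 2) + 2) * s) * Z ≤ (fams (j + 2) n).card :=
    (Nat.mul_le_mul_left _ (hcount n s)).trans (hN n hnN s hs1)
  -- one moved letter
  have hone : ∀ (σ : Equiv.Perm (Fin n)) (b : Fin n), σ b ≠ b →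
      Nat.card {M : Mat n // M.1.eRank = ((j + 2 : ℕ) : ℕ∞) + 2 ∧ act σ M = M ∧
        ∃ B, M.1.IsBase B ∧ b ∉ B} ≤ (n + 1) ^ (n * n.choose j) * Z := fun σ b hb =>
    (hfix n σ b hb).trans (Nat.mul_le_mul_left _ (card_mono fun M hM =>
      ⟨hM.1, by rw [hs]; exact hloop n M.1 M.2 b hM.2⟩))
  have hterm : ∀ σ ∈ (univ : Finset (Equiv.Perm (Fin n))).erase 1,
      Nat.card {M : Mat n // M.1.eRank = ((j + 2 : ℕ) : ℕ∞) + 2 ∧ act σ M = M} ≤
        (n + 1) ^ (n * n.choose j) * Z + (n + 1) ^ (n * n.choose j) * Z + Z := by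
    intro σ hσ
    have hσ1 : σ ≠ 1 := (Finset.mem_erase.1 hσ).1
    obtain ⟨b, hb⟩ : ∃ b, σ b ≠ b := by
      by_contra hcon
      push Not at hcon
      exact hσ1 (Equiv.ext hcon)
    have hb2 : σ (σ b) ≠ σ b := fun h => hb (σ.injective h)
    refine (card_union3 (q₁ := fun M : Mat n => M.1.eRank = ((j + 2 : ℕ) : ℕ∞) + 2 ∧
      act σ M = M ∧ ∃ B, M.1.IsBase B ∧ b ∉ B) (q₂ := fun M : Mat n =>
      M.1.eRank = ((j + 2 : ℕ) : ℕ∞) + 2 ∧ act σ M = M ∧
      ∃ B, M.1.IsBase B ∧ σ b ∉ B) (q₃ := fun M : Mat n =>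
      M.1.eRank = ((j + 2 : ℕ) : ℕ∞) + 2 ∧ s ≤ (zeroSets (j + 2) M.1).card) ?_).trans
      (Nat.add_le_add_right (Nat.add_le_add (hone σ b hb) (hone σ (σ b) hb2)) _)
    rintro M ⟨h1, h2⟩
    by_cases h3 : ∃ B, M.1.IsBase B ∧ b ∉ B
    · exact Or.inl ⟨h1, h2, h3⟩
    · by_cases h4 : ∃ B, M.1.IsBase B ∧ σ b ∉ B
      · exact Or.inr (Or.inl ⟨h1, h2, h4⟩)
      · push Not at h3 h4
        refine Or.inr (Or.inr ⟨h1, ?_⟩)
        have h5 := hcol n M.1 M.2 h1 b (σ b) hb.symm h3 h4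
        rw [ek1] at h5
        have h6 := col_bound hn8
        rw [← hs] at h6
        omega
  have hcard : ((univ : Finset (Equiv.Perm (Fin n))).erase 1).card ≤ n ^ n := by
    refine (Finset.card_le_card (Finset.erase_subset _ _)).trans ?_
    rw [Finset.card_univ, Fintype.card_perm, Fintype.card_fin]
    exact Nat.factorial_le_pow n
  have hsum' : ∑ σ ∈ (univ : Finset (Equiv.Perm (Fin n))).erase 1,
      Nat.card {M : Mat n // M.1.eRank = ((j + 2 : ℕ) : ℕ∞) + 2 ∧ act σ M = M} ≤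
        n ^ n * ((n + 1) ^ (n * n.choose j) * Z + (n + 1) ^ (n * n.choose j) * Z + Z) := by
    refine (Finset.sum_le_card_nsmul _ _ _ hterm).trans ?_
    rw [smul_eq_mul]
    exact Nat.mul_le_mul_right _ hcard
  refine (Nat.mul_le_mul_left _ hsum').trans ?_
  exact numeric hn8 hs hZk

theorem asym (k A : ℕ) (hk : 2 ≤ k) (hk5 : k ≤ 5) : ∃ N : ℕ, ∀ n : ℕ, N ≤ n →
    n ^ A * ∑ σ ∈ (univ : Finset (Equiv.Perm (Fin n))).erase 1,
      Nat.card {M : Mat n // M.1.eRank = (k : ℕ∞) + 2 ∧ act σ M = M} ≤ (fams k n).card :=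
  asym_of k hk (fun n s => count_le n k s hk) (fun A => sum_small k A hk hk5)
    (fun _ M hE _ hb => zero_loop M hE (by omega) hb)
    (fun _ M hE hr _ _ hne h1 h2 => zero_two_coloops M hE (by omega) hr hne h1 h2)
    (fun _ σ b hb => fix_le k hk σ b hb) A

end Pool.Agent.RKP
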